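import Mathlib

set_option autoImplicit false

open Metric Set Filter Topology

namespace Pool.Agent.Work.MP_8d04b0_an

/-- The operator `∑ (a k / k!) D^k`. -/
noncomputable def opS (a : ℕ → ℂ) (f : ℂ → ℂ) (z : ℂ) : ℂ :=
  ∑' k : ℕ, a k / (k.factorial : ℂ) * iteratedDeriv k f z

/-- `a` grows at most geometrically. -/
def GeomBdd (a : ℕ → ℂ) (A τ : ℝ) : Prop := 0 < A ∧ 0 < τ ∧ ∀ k, ‖a k‖ ≤ A * τ ^ k

lemma differentiable_iteratedDeriv {f : ℂ → ℂ} (hf : Differentiable ℂ f) (k : ℕ) :
    Differentiable ℂ (iteratedDeriv k f) := by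
  induction k with
  | zero => simpa using hf
  | succ k ih =>
    rw [iteratedDeriv_succ]
    intro z
    exact (ih.differentiableOn.deriv isOpen_univ).differentiableAt univ_mem

lemma norm_iteratedDeriv_le {f : ℂ → ℂ} (hf : Differentiable ℂ f) {z : ℂ} {R M : ℝ} (hR : 0 < R)
    (hM : ∀ w ∈ closedBall z R, ‖f w‖ ≤ M) (k : ℕ) :
    ‖iteratedDeriv k f z‖ ≤ k.factorial * M / R ^ k :=
  Complex.norm_iteratedDeriv_le_of_forall_mem_sphere_norm_le k hR hf.diffContOnCl
    (fun w hw => hM w (sphere_subset_closedBall hw))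

lemma term_le {a : ℕ → ℂ} {A τ : ℝ} (ha : GeomBdd a A τ) {f : ℂ → ℂ} (hf : Differentiable ℂ f)
    {z : ℂ} {R M : ℝ} (hR : 0 < R) (hM : ∀ w ∈ closedBall z R, ‖f w‖ ≤ M) (k : ℕ) :
    ‖a k / (k.factorial : ℂ) * iteratedDeriv k f z‖ ≤ A * M * (τ / R) ^ k := by
  obtain ⟨hA, hτ, hak⟩ := ha
  have hM0 : 0 ≤ M := (norm_nonneg _).trans (hM z (mem_closedBall_self hR.le))
  have hk : (0 : ℝ) < k.factorial := by exact_mod_cast k.factorial_pos
  rw [norm_mul, norm_div, Complex.norm_natCast]
  calc ‖a k‖ / k.factorial * ‖iteratedDeriv k f z‖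
      ≤ (A * τ ^ k) / k.factorial * (k.factorial * M / R ^ k) := by
        gcongr
        · exact hak k
        · exact norm_iteratedDeriv_le hf hR hM k
    _ = A * M * (τ / R) ^ k := by
        rw [div_pow]
        field_simp

lemma exists_bound {f : ℂ → ℂ} (hf : Differentiable ℂ f) (z : ℂ) (R : ℝ) :
    ∃ M : ℝ, 0 ≤ M ∧ ∀ w ∈ closedBall z R, ‖f w‖ ≤ M := by
  obtain ⟨M, hM⟩ := (isCompact_closedBall z R).exists_bound_of_continuousOn
    hf.continuous.continuousOn
  exact ⟨max M 0, le_max_right _ _, fun w hw => (hM w hw).trans (le_max_left _ _)⟩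

lemma summable_opS {a : ℕ → ℂ} {A τ : ℝ} (ha : GeomBdd a A τ) {f : ℂ → ℂ}
    (hf : Differentiable ℂ f) (z : ℂ) :
    Summable fun k : ℕ => a k / (k.factorial : ℂ) * iteratedDeriv k f z := by
  have hτ := ha.2.1
  obtain ⟨M, hM0, hM⟩ := exists_bound hf z (2 * τ)
  refine Summable.of_norm_bounded (g := fun k => A * M * (τ / (2 * τ)) ^ k) ?_
    (fun k => term_le ha hf (by positivity) hM k)
  refine (summable_geometric_of_lt_one (by positivity) ?_).mul_left _
  rw [div_lt_one (by positivity)]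
  linarith

lemma norm_opS_le {a : ℕ → ℂ} {A τ : ℝ} (ha : GeomBdd a A τ) {f : ℂ → ℂ}
    (hf : Differentiable ℂ f) {z : ℂ} {M : ℝ} (hM : ∀ w ∈ closedBall z (2 * τ), ‖f w‖ ≤ M) :
    ‖opS a f z‖ ≤ 2 * A * M := by
  have hτ := ha.2.1
  have h1 : HasSum (fun k : ℕ => A * M * (τ / (2 * τ)) ^ k) (A * M * (1 - τ / (2 * τ))⁻¹) := by
    refine (hasSum_geometric_of_lt_one (by positivity) ?_).mul_left _
    rw [div_lt_one (by positivity)]
    linarith
  have h2 := tsum_of_norm_bounded h1 (fun k => term_le ha hf (by positivity) hM k)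
  have h3 : (1 - τ / (2 * τ))⁻¹ = 2 := by
    field_simp
    norm_num
  rw [h3] at h2
  calc ‖opS a f z‖ ≤ _ := h2
    _ = _ := by ring

lemma hasDerivAt_opS {a : ℕ → ℂ} {A τ : ℝ} (ha : GeomBdd a A τ) {f : ℂ → ℂ}
    (hf : Differentiable ℂ f) (z : ℂ) : HasDerivAt (opS a f) (opS a (deriv f) z) z := by
  have hτ := ha.2.1
  obtain ⟨M, hM0, hM⟩ := exists_bound hf z (1 + 2 * τ)
  have hu : Summable fun k : ℕ => A * M * (τ / (2 * τ)) ^ k := by
    refine (summable_geometric_of_lt_one (by positivity) ?_).mul_left _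
    rw [div_lt_one (by positivity)]
    linarith
  have hterm : ∀ (k : ℕ) (w : ℂ), w ∈ ball z 1 →
      ‖a k / (k.factorial : ℂ) * iteratedDeriv k f w‖ ≤ A * M * (τ / (2 * τ)) ^ k := by
    intro k w hw
    refine term_le ha hf (by positivity) (fun v hv => hM v ?_) k
    rw [mem_closedBall] at hv ⊢
    rw [mem_ball] at hw
    linarith [dist_triangle v w z]
  have hd : ∀ k : ℕ, DifferentiableOn ℂ (fun w => a k / (k.factorial : ℂ) * iteratedDeriv k f w)
      (ball z 1) := fun k => ((differentiable_iteratedDeriv hf k).const_mul _).differentiableOn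
  have h1 := Complex.differentiableOn_tsum_of_summable_norm hu hd isOpen_ball hterm
  have h2 := Complex.hasSum_deriv_of_summable_norm hu hd isOpen_ball hterm (mem_ball_self one_pos)
  have h3 : DifferentiableAt ℂ (opS a f) z := h1.differentiableAt (ball_mem_nhds z one_pos)
  have h4 : deriv (opS a f) z = opS a (deriv f) z := by
    have h5 : deriv (opS a f) z = ∑' k : ℕ, deriv (fun w => a k / (k.factorial : ℂ) *
      iteratedDeriv k f w) z := h2.tsum_eq.symm
    rw [h5]
    unfold opS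
    congr 1
    funext k
    rw [deriv_const_mul _ ((differentiable_iteratedDeriv hf k) z), ← iteratedDeriv_succ,
      iteratedDeriv_succ']
  rw [← h4]
  exact h3.hasDerivAt

lemma differentiable_opS {a : ℕ → ℂ} {A τ : ℝ} (ha : GeomBdd a A τ) {f : ℂ → ℂ}
    (hf : Differentiable ℂ f) : Differentiable ℂ (opS a f) :=
  fun z => (hasDerivAt_opS ha hf z).differentiableAt

lemma deriv_opS {a : ℕ → ℂ} {A τ : ℝ} (ha : GeomBdd a A τ) {f : ℂ → ℂ}
    (hf : Differentiable ℂ f) : deriv (opS a f) = opS a (deriv f) :=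
  funext fun z => (hasDerivAt_opS ha hf z).deriv

lemma iteratedDeriv_opS {a : ℕ → ℂ} {A τ : ℝ} (ha : GeomBdd a A τ) {f : ℂ → ℂ}
    (hf : Differentiable ℂ f) (j : ℕ) :
    iteratedDeriv j (opS a f) = opS a (iteratedDeriv j f) := by
  induction j with
  | zero => simp
  | succ j ih =>
    rw [iteratedDeriv_succ, ih, deriv_opS ha (differentiable_iteratedDeriv hf j),
      ← iteratedDeriv_succ]

lemma iteratedDeriv_add' (f : ℂ → ℂ) (m j : ℕ) :
    iteratedDeriv m (iteratedDeriv j f) = iteratedDeriv (m + j) f := by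
  induction m with
  | zero => simp
  | succ m ih =>
    rw [iteratedDeriv_succ, ih, ← iteratedDeriv_succ]
    congr 1
    omega

/-- Geometric bound on the coefficients of the reciprocal power series. -/
lemma exists_inverse {a : ℕ → ℂ} {A τ : ℝ} (ha : GeomBdd a A τ) (h0 : a 0 ≠ 0) :
    ∃ (b : ℕ → ℂ) (B s : ℝ), 0 < B ∧ 0 < s ∧ (∀ j, ‖b j‖ ≤ B * s ^ j) ∧ b 0 * a 0 = 1 ∧
      ∀ n : ℕ, 1 ≤ n →
        ∑ j ∈ Finset.range (n + 1), b j * (a (n - j) / ((n - j).factorial : ℂ)) = 0 := by
  obtain ⟨hA, hτ, hak⟩ := ha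
  let p : PowerSeries ℂ := PowerSeries.mk fun n => a n / (n.factorial : ℂ)
  have hp0 : PowerSeries.constantCoeff p ≠ 0 := by
    simp only [p, PowerSeries.constantCoeff_mk]
    simpa using h0
  have hqp : p⁻¹ * p = 1 := PowerSeries.inv_mul_cancel p hp0
  let b : ℕ → ℂ := fun n => PowerSeries.coeff n p⁻¹
  have hcoef : ∀ n : ℕ, ∑ j ∈ Finset.range (n + 1), b j * (a (n - j) / ((n - j).factorial : ℂ)) =
      if n = 0 then 1 else 0 := by
    intro n
    have h1 := congrArg (PowerSeries.coeff n) hqp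
    rw [PowerSeries.coeff_mul, PowerSeries.coeff_one,
      Finset.Nat.sum_antidiagonal_eq_sum_range_succ_mk] at h1
    simpa only [p, PowerSeries.coeff_mk] using h1
  have ha0 : 0 < ‖a 0‖ := norm_pos_iff.2 h0
  have hb0 : b 0 * a 0 = 1 := by
    have := hcoef 0
    simpa using this
  set s : ℝ := τ * (1 + A / ‖a 0‖) with hs
  have hspos : 0 < s := by positivity
  have hsτ : τ ≤ s := by
    rw [hs]
    nlinarith [mul_pos hτ (div_pos hA ha0)]
  refine ⟨b, 1 / ‖a 0‖, s, by positivity, hspos, ?_, hb0, ?_⟩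
  · intro j
    induction j using Nat.strong_induction_on with
    | _ n ih =>
      rcases Nat.eq_zero_or_pos n with rfl | hn
      · have : b 0 = 1 / a 0 := by rw [eq_div_iff h0, hb0]
        rw [this]
        simp
      · have h1 := hcoef n
        rw [if_neg (by omega), Finset.sum_range_succ] at h1
        simp only [Nat.sub_self, Nat.factorial_zero, Nat.cast_one, div_one] at h1
        have h2 : b n * a 0 = -∑ j ∈ Finset.range n, b j * (a (n - j) / ((n - j).factorial : ℂ)) := by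
          linear_combination h1
        have h3 : ‖b n‖ * ‖a 0‖ ≤ ∑ j ∈ Finset.range n, (1 / ‖a 0‖ * s ^ j) * (A * τ ^ (n - j)) := by
          rw [← norm_mul, h2, norm_neg]
          refine (norm_sum_le _ _).trans (Finset.sum_le_sum fun j hj => ?_)
          rw [norm_mul]
          refine mul_le_mul (ih j (Finset.mem_range.1 hj)) ?_ (norm_nonneg _) (by positivity)
          rw [norm_div, Complex.norm_natCast]
          refine (div_le_self (norm_nonneg _) ?_).trans (hak _)
          exact_mod_cast Nat.one_le_iff_ne_zero.2 (Nat.factorial_ne_zero _)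
        -- geometric sum bound
        have h4 : ∑ j ∈ Finset.range n, (1 / ‖a 0‖ * s ^ j) * (A * τ ^ (n - j)) ≤ s ^ n := by
          have h5 : ∀ j ∈ Finset.range n, (1 / ‖a 0‖ * s ^ j) * (A * τ ^ (n - j)) =
              (A / ‖a 0‖) * (s ^ j * τ ^ (n - 1 - j)) * τ := by
            intro j hj
            have hj' := Finset.mem_range.1 hj
            have : n - j = (n - 1 - j) + 1 := by omega
            rw [this, pow_succ]
            ring
          rw [Finset.sum_congr rfl h5, ← Finset.sum_mul, ← Finset.mul_sum]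
          have h6 : (∑ j ∈ Finset.range n, s ^ j * τ ^ (n - 1 - j)) * (s - τ) = s ^ n - τ ^ n :=
            Commute.geom_sum₂_mul (Commute.all s τ) n
          have h7 : s - τ = τ * (A / ‖a 0‖) := by rw [hs]; ring
          rw [h7] at h6
          calc A / ‖a 0‖ * (∑ j ∈ Finset.range n, s ^ j * τ ^ (n - 1 - j)) * τ
              = (∑ j ∈ Finset.range n, s ^ j * τ ^ (n - 1 - j)) * (τ * (A / ‖a 0‖)) := by ring
            _ = s ^ n - τ ^ n := h6
            _ ≤ s ^ n := by linarith [pow_pos hτ n]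
        have h8 : ‖b n‖ * ‖a 0‖ ≤ s ^ n := h3.trans h4
        rw [one_div, inv_mul_eq_div, le_div_iff₀ ha0]
        exact h8
  · intro n hn
    rw [hcoef n, if_neg (by omega)]

end Pool.Agent.Work.MP_8d04b0_an
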