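import Mathlib
import Pool.Agent.Work.MP_8d04b0_an.Op

set_option autoImplicit false

open Metric Set Filter Topology

namespace Pool.Agent.Work.MP_8d04b0_an

/-- Lower bound for a zero free function. -/
lemma zero_free_lower {Q : ℂ → ℂ} (hQ : Differentiable ℂ Q) {z1 : ℂ} {ρ U κ : ℝ} (hρ : 0 < ρ)
    (hκ : 0 < κ) (hne : ∀ z ∈ ball z1 (2 * ρ), Q z ≠ 0)
    (hup : ∀ z ∈ ball z1 (2 * ρ), ‖Q z‖ ≤ Real.exp U) (hlow : Real.exp (U - κ) ≤ ‖Q z1‖)
    {z : ℂ} (hz : ‖z - z1‖ ≤ 3 / 2 * ρ) : Real.exp (U - 7 * κ) ≤ ‖Q z‖ := by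
  have hd : DifferentiableOn ℂ (fun z => deriv Q z / Q z) (ball z1 (2 * ρ)) := by
    refine DifferentiableOn.div ?_ hQ.differentiableOn hne
    exact (hQ.differentiableOn.deriv isOpen_univ).mono (subset_univ _)
  obtain ⟨L, hL⟩ := hd.isExactOn_ball
  have hz1 : z1 ∈ ball z1 (2 * ρ) := mem_ball_self (by positivity)
  -- `Q * exp (-L)` is constant
  have hconst : ∀ w ∈ ball z1 (2 * ρ), Q w * Complex.exp (-L w) = Q z1 * Complex.exp (-L z1) := by
    have hder : ∀ w ∈ ball z1 (2 * ρ), HasDerivAt (fun w => Q w * Complex.exp (-L w)) 0 w := by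
      intro w hw
      have h1 := (hQ w).hasDerivAt.mul ((hL w hw).neg.cexp)
      refine h1.congr_deriv ?_
      have := hne w hw
      field_simp
      ring
    intro w hw
    have hconv : Convex ℝ (ball z1 (2 * ρ)) := convex_ball _ _
    refine hconv.is_const_of_fderivWithin_eq_zero (𝕜 := ℂ)
      (f := fun w => Q w * Complex.exp (-L w)) ?_ ?_ hw hz1
    · intro x hx
      exact (hder x hx).differentiableAt.differentiableWithinAt
    · intro x hx
      rw [fderivWithin_of_isOpen isOpen_ball hx]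
      have h2 := (hder x hx).hasFDerivAt.fderiv
      rw [h2]
      ext
      simp
  have hQL : ∀ w ∈ ball z1 (2 * ρ), Q w = Q z1 * Complex.exp (L w - L z1) := by
    intro w hw
    have h1 := hconst w hw
    have h2 : Q w = Q w * Complex.exp (-L w) * Complex.exp (L w) := by
      rw [mul_assoc, ← Complex.exp_add, neg_add_cancel, Complex.exp_zero, mul_one]
    rw [h2, h1, mul_assoc, ← Complex.exp_add]
    congr 2
    ring
  have hre : ∀ w ∈ ball z1 (2 * ρ), ‖Q w‖ = ‖Q z1‖ * Real.exp (L w - L z1).re := by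
    intro w hw
    rw [hQL w hw, norm_mul, Complex.norm_exp]
  have hmem : ∀ ζ ∈ ball (0 : ℂ) (2 * ρ), z1 + ζ ∈ ball z1 (2 * ρ) := by
    intro ζ hζ
    rw [mem_ball, dist_eq_norm, add_sub_cancel_left]
    rwa [mem_ball_zero_iff] at hζ
  have hzb : z - z1 ∈ ball (0 : ℂ) (2 * ρ) := by
    rw [mem_ball_zero_iff]
    linarith
  have hBC := Complex.borelCaratheodory_zero (M := κ) (R := 2 * ρ) (z := z - z1)
    (f := fun ζ => L (z1 + ζ) - L z1) hκ
    (by
      intro ζ hζ
      have h1 : DifferentiableAt ℂ L (z1 + ζ) := (hL _ (hmem ζ hζ)).differentiableAt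
      have h2 : DifferentiableAt ℂ (fun ζ => L (z1 + ζ)) ζ :=
        h1.comp ζ (by fun_prop : DifferentiableAt ℂ (fun ζ => z1 + ζ) ζ)
      exact (h2.sub_const _).differentiableWithinAt)
    (by
      intro ζ hζ
      have h1 := hup _ (hmem ζ hζ)
      rw [hre _ (hmem ζ hζ)] at h1
      have h2 : Real.exp (U - κ) * Real.exp (L (z1 + ζ) - L z1).re ≤ Real.exp U :=
        (mul_le_mul_of_nonneg_right hlow (Real.exp_pos _).le).trans h1
      rw [← Real.exp_add, Real.exp_le_exp] at h2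
      simp only [mem_ofPred_eq]
      linarith)
    (by positivity) hzb (by simp)
  have h3 : 2 * κ * ‖z - z1‖ / (2 * ρ - ‖z - z1‖) ≤ 6 * κ := by
    have hpos : 0 < 2 * ρ - ‖z - z1‖ := by linarith
    rw [div_le_iff₀ hpos]
    nlinarith
  have h4 : -(6 * κ) ≤ (L z - L z1).re := by
    simp only [add_sub_cancel] at hBC
    have h5 := Complex.abs_re_le_norm (L z - L z1)
    have h6 := neg_abs_le (L z - L z1).re
    linarith
  have hzB : z ∈ ball z1 (2 * ρ) := by
    rw [mem_ball, dist_eq_norm]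
    linarith
  rw [hre z hzB]
  calc Real.exp (U - 7 * κ) = Real.exp (U - κ) * Real.exp (-(6 * κ)) := by
        rw [← Real.exp_add]
        congr 1
        ring
    _ ≤ ‖Q z1‖ * Real.exp (L z - L z1).re := by
        gcongr

/-- Removing the zeros in a ball. -/
lemma factor_zeros {F : ℂ → ℂ} (hF : Differentiable ℂ F) {z1 : ℂ} {ρ U κ : ℝ} (hρ : 0 < ρ)
    (hup : ∀ z, ‖z - z1‖ ≤ 6 * ρ → ‖F z‖ ≤ Real.exp U) (hlow : Real.exp (U - κ) ≤ ‖F z1‖) :
    ∃ (m : ℕ) (w : Fin m → ℂ) (Q : ℂ → ℂ), Differentiable ℂ Q ∧ (∀ i, ‖w i - z1‖ ≤ 2 * ρ) ∧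
      (∀ z, F z = (∏ i, (z - w i)) * Q z) ∧ (∀ z, ‖z - z1‖ ≤ 2 * ρ → Q z ≠ 0) ∧
      m * Real.log 2 ≤ κ ∧
      (∀ z, ‖z - z1‖ ≤ 6 * ρ → ‖Q z‖ ≤ Real.exp (U - m * Real.log (4 * ρ))) ∧
      Real.exp (U - m * Real.log (4 * ρ) - κ) ≤ ‖Q z1‖ := by
  -- properties of a factorisation
  have hprop : ∀ (m : ℕ) (w : Fin m → ℂ) (Q : ℂ → ℂ), Differentiable ℂ Q →
      (∀ i, ‖w i - z1‖ ≤ 2 * ρ) → (∀ z, F z = (∏ i, (z - w i)) * Q z) →
      (∀ z, ‖z - z1‖ ≤ 6 * ρ → ‖Q z‖ ≤ Real.exp (U - m * Real.log (4 * ρ))) ∧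
      Real.exp (U - m * Real.log (4 * ρ) - κ) * 2 ^ m ≤ ‖Q z1‖ := by
    intro m w Q hQ hw hFQ
    have hexp : Real.exp (U - m * Real.log (4 * ρ)) = Real.exp U / (4 * ρ) ^ m := by
      rw [Real.exp_sub, Real.exp_nat_mul, Real.exp_log (by positivity)]
    constructor
    · have hsph : ∀ z ∈ sphere z1 (6 * ρ), ‖Q z‖ ≤ Real.exp (U - m * Real.log (4 * ρ)) := by
        intro z hz
        rw [mem_sphere, dist_eq_norm] at hz
        have h1 := hup z hz.le
        rw [hFQ z, norm_mul, norm_prod] at h1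
        have h2 : (4 * ρ) ^ m ≤ ∏ i, ‖z - w i‖ := by
          have : ∏ _i : Fin m, (4 * ρ) = (4 * ρ) ^ m := by simp
          rw [← this]
          refine Finset.prod_le_prod (fun _ _ => by positivity) (fun i _ => ?_)
          have h3 : ‖z - z1‖ ≤ ‖z - w i‖ + ‖w i - z1‖ := norm_sub_le_norm_sub_add_norm_sub _ _ _
          linarith [hw i]
        rw [hexp, le_div_iff₀ (by positivity), mul_comm]
        exact (mul_le_mul_of_nonneg_right h2 (norm_nonneg _)).trans h1
      intro z hz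
      refine Complex.norm_le_of_forall_mem_frontier_norm_le (U := ball z1 (6 * ρ)) isBounded_ball
        hQ.diffContOnCl (fun w hw => ?_) ?_
      · rw [frontier_ball _ (by positivity)] at hw
        exact hsph w hw
      · rw [closure_ball _ (by positivity), mem_closedBall, dist_eq_norm]
        exact hz
    · rw [hFQ z1, norm_mul, norm_prod] at hlow
      have h2 : ∏ i, ‖z1 - w i‖ ≤ (2 * ρ) ^ m := by
        have : ∏ _i : Fin m, (2 * ρ) = (2 * ρ) ^ m := by simp
        rw [← this]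
        refine Finset.prod_le_prod (fun _ _ => norm_nonneg _) (fun i _ => ?_)
        rw [norm_sub_rev]
        exact hw i
      have h3 : Real.exp (U - κ) ≤ (2 * ρ) ^ m * ‖Q z1‖ :=
        hlow.trans (mul_le_mul_of_nonneg_right h2 (norm_nonneg _))
      have h4 : Real.exp (U - m * Real.log (4 * ρ) - κ) * 2 ^ m =
          Real.exp (U - κ) / (2 * ρ) ^ m := by
        have h5 : U - m * Real.log (4 * ρ) - κ = (U - κ) - m * Real.log (4 * ρ) := by ring
        rw [h5, Real.exp_sub, Real.exp_nat_mul, Real.exp_log (by positivity),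
          show (4 * ρ) = 2 * (2 * ρ) by ring, mul_pow 2 (2 * ρ) m]
        field_simp
      rw [h4, div_le_iff₀ (by positivity), mul_comm]
      exact h3
  have hbound : ∀ (m : ℕ) (w : Fin m → ℂ) (Q : ℂ → ℂ), Differentiable ℂ Q →
      (∀ i, ‖w i - z1‖ ≤ 2 * ρ) → (∀ z, F z = (∏ i, (z - w i)) * Q z) → m * Real.log 2 ≤ κ := by
    intro m w Q hQ hw hFQ
    obtain ⟨h1, h2⟩ := hprop m w Q hQ hw hFQ
    have h3 := h1 z1 (by rw [sub_self, norm_zero]; positivity)
    have h4 := h2.trans h3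
    have h5 : (2 : ℝ) ^ m = Real.exp (m * Real.log 2) := by
      rw [Real.exp_nat_mul, Real.exp_log (by norm_num)]
    rw [h5, ← Real.exp_add, Real.exp_le_exp] at h4
    linarith
  -- maximal factorisation
  classical
  let P : ℕ → Prop := fun m => ∃ (w : Fin m → ℂ) (Q : ℂ → ℂ), Differentiable ℂ Q ∧
    (∀ i, ‖w i - z1‖ ≤ 2 * ρ) ∧ (∀ z, F z = (∏ i, (z - w i)) * Q z)
  have hP0 : P 0 := ⟨fun i => i.elim0, F, hF, fun i => i.elim0, fun z => by simp⟩
  have hlog2 : 0 < Real.log 2 := Real.log_pos (by norm_num)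
  obtain ⟨N, hN⟩ := exists_nat_gt (κ / Real.log 2)
  have hPN : ∀ m, P m → m ≤ N := by
    rintro m ⟨w, Q, hQ, hw, hFQ⟩
    have h1 := hbound m w Q hQ hw hFQ
    rw [div_lt_iff₀ hlog2] at hN
    have h2 : (m : ℝ) * Real.log 2 < N * Real.log 2 := h1.trans_lt hN
    have h3 : (m : ℝ) < N := lt_of_mul_lt_mul_right h2 hlog2.le
    exact_mod_cast h3.le
  set m := Nat.findGreatest P N with hm
  have hPm : P m := Nat.findGreatest_spec (Nat.zero_le N) hP0
  have hPm1 : ¬ P (m + 1) := by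
    intro h
    have := Nat.le_findGreatest (hPN _ h) h
    omega
  obtain ⟨w, Q, hQ, hw, hFQ⟩ := hPm
  obtain ⟨h1, h2⟩ := hprop m w Q hQ hw hFQ
  refine ⟨m, w, Q, hQ, hw, hFQ, ?_, hbound m w Q hQ hw hFQ, h1, ?_⟩
  · intro z hz hQz
    apply hPm1
    have hdiff : Differentiable ℂ (dslope Q z) := by
      have := (Complex.differentiableOn_dslope (s := univ) (c := z) (f := Q) univ_mem).2
        hQ.differentiableOn
      exact differentiableOn_univ.1 this
    refine ⟨Fin.cons z w, dslope Q z, hdiff, ?_, ?_⟩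
    · intro i
      refine Fin.cases ?_ (fun j => ?_) i
      · simpa using hz
      · simpa using hw j
    · intro x
      rw [Fin.prod_univ_succ]
      simp only [Fin.cons_zero, Fin.cons_succ]
      have h3 := sub_smul_dslope Q z x
      rw [hQz, sub_zero, smul_eq_mul] at h3
      rw [hFQ x, ← h3]
      ring
  · refine le_trans ?_ h2
    have : (1 : ℝ) ≤ 2 ^ m := one_le_pow₀ (by norm_num)
    nlinarith [Real.exp_pos (U - m * Real.log (4 * ρ) - κ)]

end Pool.Agent.Work.MP_8d04b0_an
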