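import Mathlib

set_option autoImplicit false

open Metric Set Filter Topology

namespace Pool.Agent.Work.MP_8d04b0_an

/-- `E` is covered by finitely many discs with centres in `W` and total radius at most `s`. -/
def Cov (E W : Set ℂ) (s : ℝ) : Prop :=
  ∃ T : List (ℂ × ℝ), (∀ p ∈ T, p.1 ∈ W ∧ 0 < p.2) ∧ (T.map Prod.snd).sum ≤ s ∧
    ∀ z ∈ E, ∃ p ∈ T, ‖z - p.1‖ ≤ p.2

lemma Cov.mono {E E' W W' : Set ℂ} {s s' : ℝ} (h : Cov E W s) (hE : E' ⊆ E) (hW : W ⊆ W')
    (hs : s ≤ s') : Cov E' W' s' := by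
  obtain ⟨T, h1, h2, h3⟩ := h
  exact ⟨T, fun p hp => ⟨hW (h1 p hp).1, (h1 p hp).2⟩, h2.trans hs, fun z hz => h3 z (hE hz)⟩

lemma Cov.union {E E' W : Set ℂ} {s s' : ℝ} (h : Cov E W s) (h' : Cov E' W s') :
    Cov (E ∪ E') W (s + s') := by
  obtain ⟨T, h1, h2, h3⟩ := h
  obtain ⟨T', h1', h2', h3'⟩ := h'
  refine ⟨T ++ T', ?_, ?_, ?_⟩
  · intro p hp
    rw [List.mem_append] at hp
    exact hp.elim (h1 p) (h1' p)
  · rw [List.map_append, List.sum_append]
    linarith
  · rintro z (hz | hz)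
    · obtain ⟨p, hp, hp'⟩ := h3 z hz
      exact ⟨p, List.mem_append.2 (Or.inl hp), hp'⟩
    · obtain ⟨p, hp, hp'⟩ := h3' z hz
      exact ⟨p, List.mem_append.2 (Or.inr hp), hp'⟩

lemma Cov.empty {W : Set ℂ} : Cov ∅ W 0 := ⟨[], by simp, by simp, by simp⟩

lemma Cov.biUnion {α : Type*} (S : Finset α) {E : α → Set ℂ} {W : Set ℂ} {s : ℝ}
    (h : ∀ i ∈ S, Cov (E i) W s) : Cov (⋃ i ∈ S, E i) W (S.card * s) := by
  classical
  induction S using Finset.induction_on with
  | empty => simpa using Cov.empty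
  | insert i S hi ih =>
    have h1 := (h i (Finset.mem_insert_self _ _)).union
      (ih (fun j hj => h j (Finset.mem_insert_of_mem hj)))
    rw [Finset.set_biUnion_insert, Finset.card_insert_of_notMem hi]
    refine h1.mono subset_rfl subset_rfl (le_of_eq ?_)
    push_cast
    ring

lemma pow_le_factorial (n : ℕ) (h : ℝ) (hh : 0 < h) (hn : 0 < n) :
    (h / Real.exp 1) ^ n ≤ ∏ k : Fin n, (((k : ℕ) + 1 : ℝ) * h / n) := by
  have hn' : (0 : ℝ) < n := by exact_mod_cast hn
  have h1 : ∏ k : Fin n, (((k : ℕ) + 1 : ℝ) * h / n) = n.factorial * (h / n) ^ n := by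
    have h2 : ∏ k : Fin n, (((k : ℕ) + 1 : ℝ) * h / n) =
        ∏ k ∈ Finset.range n, (((k : ℕ) + 1 : ℝ) * (h / n)) := by
      rw [← Fin.prod_univ_eq_prod_range (fun k => ((k : ℝ) + 1) * (h / n)) n]
      refine Finset.prod_congr rfl (fun k _ => ?_)
      ring
    rw [h2, Finset.prod_mul_distrib, Finset.prod_const, Finset.card_range]
    congr 1
    rw [← Finset.prod_range_add_one_eq_factorial]
    push_cast
    rfl
  rw [h1]
  have h3 := Real.pow_div_factorial_le_exp (n : ℝ) hn'.le n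
  have hf : (0 : ℝ) < n.factorial := by exact_mod_cast n.factorial_pos
  rw [div_le_iff₀ hf] at h3
  have h4 : Real.exp (n : ℝ) = Real.exp 1 ^ n := by
    rw [← Real.exp_nat_mul, mul_one]
  rw [h4] at h3
  rw [div_pow, div_pow, div_le_iff₀ (by positivity)]
  calc h ^ n = (n : ℝ) ^ n * (h ^ n / n ^ n) := by field_simp
    _ ≤ (Real.exp 1 ^ n * n.factorial) * (h ^ n / n ^ n) := by gcongr
    _ = _ := by ring

/-- Cartan's lemma. -/
theorem cartan (n : ℕ) (w : Fin n → ℂ) {h : ℝ} (hh : 0 < h) (W : Set ℂ) :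
    Cov {z | z ∈ W ∧ ∏ k, ‖z - w k‖ < (h / Real.exp 1) ^ n} W (4 * h) := by
  classical
  rcases Nat.eq_zero_or_pos n with rfl | hn
  · refine ⟨[], by simp, by simpa using hh.le, ?_⟩
    rintro z ⟨-, hz⟩
    simp at hz
  have hn' : (0 : ℝ) < n := by exact_mod_cast hn
  let J : ℂ → ℝ → Finset (Fin n) := fun z t => Finset.univ.filter (fun j => ‖z - w j‖ ≤ t)
  -- good points
  have hgood : ∀ z : ℂ, (∀ k : ℕ, 1 ≤ k → k ≤ n → (J z (k * h / n)).card < k) →
      (h / Real.exp 1) ^ n ≤ ∏ k, ‖z - w k‖ := by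
    intro z hz
    set d : Fin n → ℝ := fun j => ‖z - w j‖ with hd
    set σ := Tuple.sort d with hσ
    have hmono : Monotone (d ∘ σ) := Tuple.monotone_sort d
    have hlow : ∀ k : Fin n, ((k : ℕ) + 1 : ℝ) * h / n ≤ d (σ k) := by
      intro k
      by_contra hcon
      push Not at hcon
      have h1 := hz (k + 1) (by omega) (by omega)
      have h2 : (Finset.Iic k).image σ ⊆ J z ((k + 1 : ℕ) * h / n) := by
        intro j hj
        rw [Finset.mem_image] at hj
        obtain ⟨i, hi, rfl⟩ := hj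
        rw [Finset.mem_Iic] at hi
        simp only [J, Finset.mem_filter, Finset.mem_univ, true_and]
        have h3 := hmono hi
        simp only [Function.comp] at h3
        push_cast
        exact h3.trans hcon.le
      have h4 := Finset.card_le_card h2
      rw [Finset.card_image_of_injective _ σ.injective, Fin.card_Iic] at h4
      omega
    calc (h / Real.exp 1) ^ n ≤ ∏ k : Fin n, (((k : ℕ) + 1 : ℝ) * h / n) :=
          pow_le_factorial n h hh hn
      _ ≤ ∏ k : Fin n, d (σ k) :=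
          Finset.prod_le_prod (fun _ _ => by positivity) (fun k _ => hlow k)
      _ = ∏ k, d k := Equiv.prod_comp σ d
  -- Vitali
  let t : Set (ℂ × ℕ) := {p | p.1 ∈ W ∧ 1 ≤ p.2 ∧ p.2 ≤ n ∧ p.2 ≤ (J p.1 (p.2 * h / n)).card}
  obtain ⟨u, hut, hdisj, hcover⟩ := Vitali.exists_disjoint_subfamily_covering_enlargement_closedBall
    t (fun p => p.1) (fun p => p.2 * h / n) h (by
      rintro p ⟨-, -, hp, -⟩
      rw [div_le_iff₀ hn', mul_comm]
      have : (p.2 : ℝ) ≤ n := by exact_mod_cast hp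
      gcongr) 4 (by norm_num)
  have hsum : ∀ s : Finset (ℂ × ℕ), (↑s : Set (ℂ × ℕ)) ⊆ u → ∑ p ∈ s, p.2 ≤ n := by
    intro s hs
    have h1 : ∑ p ∈ s, p.2 ≤ ∑ p ∈ s, (J p.1 (p.2 * h / n)).card :=
      Finset.sum_le_sum (fun p hp => (hut (hs hp)).2.2.2)
    have h2 : (s.biUnion (fun p => J p.1 (p.2 * h / n))).card =
        ∑ p ∈ s, (J p.1 (p.2 * h / n)).card := by
      apply Finset.card_biUnion
      intro p hp q hq hpq
      simp only [Function.onFun]
      rw [Finset.disjoint_left]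
      intro j hj1 hj2
      simp only [J, Finset.mem_filter, Finset.mem_univ, true_and] at hj1 hj2
      have h3 := hdisj (hs hp) (hs hq) hpq
      simp only [Function.onFun] at h3
      have m1 : w j ∈ closedBall p.1 (p.2 * h / n) := by
        rw [mem_closedBall, dist_eq_norm, norm_sub_rev]
        exact hj1
      have m2 : w j ∈ closedBall q.1 (q.2 * h / n) := by
        rw [mem_closedBall, dist_eq_norm, norm_sub_rev]
        exact hj2
      exact Set.disjoint_left.1 h3 m1 m2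
    have h4 := Finset.card_le_univ (s.biUnion (fun p => J p.1 (p.2 * h / n)))
    rw [Fintype.card_fin] at h4
    omega
  have hufin : u.Finite := by
    by_contra hinf
    obtain ⟨s, hs, hcard⟩ := Set.Infinite.exists_subset_card_eq hinf (n + 1)
    have h1 := hsum s hs
    have h2 : s.card ≤ ∑ p ∈ s, p.2 := by
      rw [Finset.card_eq_sum_ones]
      exact Finset.sum_le_sum (fun p hp => (hut (hs hp)).2.1)
    omega
  refine ⟨hufin.toFinset.toList.map (fun p => (p.1, 4 * (p.2 * h / n))), ?_, ?_, ?_⟩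
  · intro q hq
    rw [List.mem_map] at hq
    obtain ⟨p, hp, rfl⟩ := hq
    rw [Finset.mem_toList, hufin.mem_toFinset] at hp
    have hp2 : (0 : ℝ) < p.2 := by exact_mod_cast (hut hp).2.1
    exact ⟨(hut hp).1, by positivity⟩
  · rw [List.map_map]
    have h1 : (List.map (Prod.snd ∘ fun p : ℂ × ℕ => (p.1, 4 * ((p.2 : ℝ) * h / n)))
        hufin.toFinset.toList).sum = ∑ p ∈ hufin.toFinset, 4 * ((p.2 : ℝ) * h / n) := by
      rw [← Finset.sum_map_toList]
      rfl
    rw [h1]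
    have h2 := hsum hufin.toFinset (by simp)
    have h3 : ∑ p ∈ hufin.toFinset, 4 * ((p.2 : ℝ) * h / n) =
        (4 * h / n) * ((∑ p ∈ hufin.toFinset, p.2 : ℕ) : ℝ) := by
      push_cast
      rw [Finset.mul_sum]
      refine Finset.sum_congr rfl (fun p _ => ?_)
      ring
    rw [h3]
    have h4 : ((∑ p ∈ hufin.toFinset, p.2 : ℕ) : ℝ) ≤ n := by exact_mod_cast h2
    calc (4 * h / n) * ((∑ p ∈ hufin.toFinset, p.2 : ℕ) : ℝ) ≤ (4 * h / n) * n := by gcongr
      _ = 4 * h := by field_simp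
  · rintro z ⟨hzW, hz⟩
    have h1 : ∃ k : ℕ, 1 ≤ k ∧ k ≤ n ∧ k ≤ (J z (k * h / n)).card := by
      by_contra hcon
      push Not at hcon
      have := hgood z hcon
      linarith
    obtain ⟨k, hk1, hk2, hk3⟩ := h1
    obtain ⟨b, hb, hsub⟩ := hcover (z, k) ⟨hzW, hk1, hk2, hk3⟩
    refine ⟨(b.1, 4 * (b.2 * h / n)), ?_, ?_⟩
    · rw [List.mem_map]
      exact ⟨b, by rw [Finset.mem_toList, hufin.mem_toFinset]; exact hb, rfl⟩
    · have h2 : z ∈ closedBall z (k * h / n) := mem_closedBall_self (by positivity)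
      have h3 := hsub h2
      rw [mem_closedBall, dist_eq_norm] at h3
      exact h3

end Pool.Agent.Work.MP_8d04b0_an
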