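import Mathlib
import Pool.Agent.Work.MP_8d04b0_an.Op

set_option autoImplicit false

open Metric Set Filter Topology

namespace Pool.Agent.Work.MP_8d04b0_an

/-- Hadamard's three circles theorem. -/
lemma three_circles {G : ℂ → ℂ} (hG : Differentiable ℂ G) {c w : ℂ} {t₁ t₂ m₁ m₂ : ℝ}
    (ht₁ : 0 < t₁) (ht : t₁ < t₂) (h1 : ∀ v : ℂ, ‖v - c‖ = t₁ → ‖G v‖ ≤ Real.exp m₁)
    (h2 : ∀ v : ℂ, ‖v - c‖ = t₂ → ‖G v‖ ≤ Real.exp m₂) (hw1 : t₁ ≤ ‖w - c‖) (hw2 : ‖w - c‖ ≤ t₂) :
    ‖G w‖ ≤ Real.exp ((1 - Real.log (‖w - c‖ / t₁) / Real.log (t₂ / t₁)) * m₁ +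
      Real.log (‖w - c‖ / t₁) / Real.log (t₂ / t₁) * m₂) := by
  have hpos : 0 < ‖w - c‖ := ht₁.trans_le hw1
  have ht₂ : 0 < t₂ := ht₁.trans ht
  have hne : w - c ≠ 0 := norm_pos_iff.1 hpos
  obtain ⟨M, hM0, hM⟩ := exists_bound hG c t₂
  have hexp : ∀ ζ : ℂ, ‖(c + Complex.exp ζ) - c‖ = Real.exp ζ.re := by
    intro ζ
    rw [add_sub_cancel_left, Complex.norm_exp]
  have hul : Real.log t₁ < Real.log t₂ := Real.log_lt_log ht₁ ht
  have hre : (Complex.log (w - c)).re = Real.log ‖w - c‖ := Complex.log_re _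
  have key := Complex.HadamardThreeLines.norm_le_interp_of_mem_verticalClosedStrip'
    (f := fun ζ : ℂ => G (c + Complex.exp ζ)) (z := Complex.log (w - c))
    (a := Real.exp m₁) (b := Real.exp m₂) (l := Real.log t₁) (u := Real.log t₂) hul
    (by
      rw [Complex.HadamardThreeLines.verticalClosedStrip, mem_preimage, hre]
      exact ⟨Real.log_le_log ht₁ hw1, Real.log_le_log hpos hw2⟩)
    (by
      apply Differentiable.diffContOnCl
      fun_prop)
    (by
      refine ⟨M, ?_⟩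
      rintro _ ⟨ζ, hζ, rfl⟩
      refine hM _ ?_
      rw [mem_closedBall, dist_eq_norm, hexp]
      rw [Complex.HadamardThreeLines.verticalClosedStrip, mem_preimage] at hζ
      rw [← Real.exp_log ht₂]
      exact Real.exp_le_exp.2 hζ.2)
    (by
      intro ζ hζ
      refine h1 _ ?_
      rw [hexp]
      have : ζ.re = Real.log t₁ := hζ
      rw [this, Real.exp_log ht₁])
    (by
      intro ζ hζ
      refine h2 _ ?_
      rw [hexp]
      have : ζ.re = Real.log t₂ := hζ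
      rw [this, Real.exp_log ht₂])
  simp only [Complex.exp_log hne, add_sub_cancel] at key
  rw [hre, ← Real.exp_mul, ← Real.exp_mul, ← Real.exp_add] at key
  rw [Real.log_div hpos.ne' ht₁.ne', Real.log_div ht₂.ne' ht₁.ne']
  convert key using 2
  ring

/-- The four point product trick. -/
lemma four_point {G : ℂ → ℂ} (hG : Differentiable ℂ G) {z n : ℂ} {ρ A B : ℝ} (hρ : 0 < ρ)
    (hA : ∀ ζ : ℂ, ‖ζ‖ = ρ → ‖G (z + ζ)‖ ≤ Real.exp A)
    (hB : ∀ ζ : ℂ, ‖ζ‖ = ρ → ρ * ‖n‖ ≤ 2 * (ζ * (starRingEnd ℂ) n).re * (√2 / 2) →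
      ‖G (z + ζ)‖ ≤ Real.exp B) :
    ‖G z‖ ^ 4 ≤ Real.exp (3 * A + B) := by
  have hI : Complex.I ^ 2 = -1 := Complex.I_sq
  have h1 : Differentiable ℂ (fun ζ : ℂ => G (z + ζ) * G (z + Complex.I * ζ) * G (z + -ζ) *
      G (z + -(Complex.I * ζ))) := by fun_prop
  have key : ∀ ζ : ℂ, ‖ζ‖ = ρ → ‖G (z + ζ) * G (z + Complex.I * ζ) * G (z + -ζ) *
      G (z + -(Complex.I * ζ))‖ ≤ Real.exp (3 * A + B) := by
    intro ζ hζ
    have n1 : ‖Complex.I * ζ‖ = ρ := by rw [norm_mul, Complex.norm_I, one_mul, hζ]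
    have n2 : ‖-ζ‖ = ρ := by rw [norm_neg, hζ]
    have n3 : ‖-(Complex.I * ζ)‖ = ρ := by rw [norm_neg, n1]
    have a0 := hA _ hζ
    have a1 := hA _ n1
    have a2 := hA _ n2
    have a3 := hA _ n3
    set q : ℂ := ζ * (starRingEnd ℂ) n with hq
    have hqn : ρ * ‖n‖ = ‖q‖ := by rw [hq, norm_mul, RCLike.norm_conj, hζ]
    have hs2 : √2 * √2 = 2 := Real.mul_self_sqrt (by norm_num)
    have hs0 : 0 < √2 := by positivity
    have hsq : ‖q‖ ^ 2 = q.re ^ 2 + q.im ^ 2 := by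
      rw [← Complex.normSq_eq_norm_sq, Complex.normSq_apply]
      ring
    have e1 : (Complex.I * ζ * (starRingEnd ℂ) n).re = -q.im := by
      rw [mul_assoc, ← hq, Complex.I_mul_re]
    have e2 : (-ζ * (starRingEnd ℂ) n).re = -q.re := by
      rw [neg_mul, ← hq, Complex.neg_re]
    have e3 : (-(Complex.I * ζ) * (starRingEnd ℂ) n).re = q.im := by
      rw [neg_mul, Complex.neg_re, e1, neg_neg]
    have big : ∀ x y : ℝ, |y| ≤ x → ‖q‖ ^ 2 = x ^ 2 + y ^ 2 → ‖q‖ ≤ 2 * x * (√2 / 2) := by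
      intro x y hxy hn
      have hx0 : 0 ≤ x := (abs_nonneg y).trans hxy
      have hy2 : y ^ 2 ≤ x ^ 2 := by
        rw [← sq_abs y]
        exact pow_le_pow_left₀ (abs_nonneg y) hxy 2
      have h2 : ‖q‖ ^ 2 ≤ (2 * x * (√2 / 2)) ^ 2 := by
        have : (2 * x * (√2 / 2)) ^ 2 = 2 * x ^ 2 := by
          calc (2 * x * (√2 / 2)) ^ 2 = x ^ 2 * (√2 * √2) := by ring
            _ = 2 * x ^ 2 := by rw [hs2]; ring
        rw [this, hn]
        linarith
      exact le_of_sq_le_sq h2 (by positivity)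
    rw [norm_mul, norm_mul, norm_mul]
    have hexp : Real.exp (3 * A + B) = Real.exp A * Real.exp A * Real.exp A * Real.exp B := by
      rw [← Real.exp_add, ← Real.exp_add, ← Real.exp_add]
      congr 1
      ring
    rw [hexp]
    rcases le_total |q.im| |q.re| with h | h
    · rcases le_total 0 q.re with h' | h'
      · have b := hB ζ hζ (by
          rw [hqn, ← hq]
          rw [abs_of_nonneg h'] at h
          exact big _ _ h hsq)
        calc ‖G (z + ζ)‖ * ‖G (z + Complex.I * ζ)‖ * ‖G (z + -ζ)‖ * ‖G (z + -(Complex.I * ζ))‖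
            ≤ Real.exp B * Real.exp A * Real.exp A * Real.exp A := by gcongr
          _ = _ := by ring
      · have b := hB (-ζ) n2 (by
          rw [hqn, e2]
          rw [abs_of_nonpos h'] at h
          exact big _ _ h (by rw [hsq]; ring))
        calc ‖G (z + ζ)‖ * ‖G (z + Complex.I * ζ)‖ * ‖G (z + -ζ)‖ * ‖G (z + -(Complex.I * ζ))‖
            ≤ Real.exp A * Real.exp A * Real.exp B * Real.exp A := by gcongr
          _ = _ := by ring
    · rcases le_total 0 q.im with h' | h'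
      · have b := hB (-(Complex.I * ζ)) n3 (by
          rw [hqn, e3]
          rw [abs_of_nonneg h'] at h
          exact big _ _ h (by rw [hsq]; ring))
        calc ‖G (z + ζ)‖ * ‖G (z + Complex.I * ζ)‖ * ‖G (z + -ζ)‖ * ‖G (z + -(Complex.I * ζ))‖
            ≤ Real.exp A * Real.exp A * Real.exp A * Real.exp B := by gcongr
          _ = _ := by ring
      · have b := hB (Complex.I * ζ) n1 (by
          rw [hqn, e1]
          rw [abs_of_nonpos h'] at h
          exact big _ _ h (by rw [hsq]; ring))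
        calc ‖G (z + ζ)‖ * ‖G (z + Complex.I * ζ)‖ * ‖G (z + -ζ)‖ * ‖G (z + -(Complex.I * ζ))‖
            ≤ Real.exp A * Real.exp B * Real.exp A * Real.exp A := by gcongr
          _ = _ := by ring
  have h2 := Complex.norm_le_of_forall_mem_frontier_norm_le (U := ball (0 : ℂ) ρ)
    isBounded_ball h1.diffContOnCl (C := Real.exp (3 * A + B))
    (by
      intro ζ hζ
      rw [frontier_ball _ hρ.ne', mem_sphere_zero_iff_norm] at hζ
      exact key ζ hζ) (z := 0) (subset_closure (mem_ball_self hρ))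
  simp only [add_zero, mul_zero, neg_zero, norm_mul] at h2
  calc ‖G z‖ ^ 4 = ‖G z‖ * ‖G z‖ * ‖G z‖ * ‖G z‖ := by ring
    _ ≤ _ := h2

end Pool.Agent.Work.MP_8d04b0_an
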