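import Pool.Agent.Work.MP_8d04b0_an.LocalInv

set_option autoImplicit false

open Metric Set Filter Topology

namespace Pool.Agent.Work.MP_8d04b0_an

/-- The coefficient sequence of the symbol recentred at `l`. -/
noncomputable def shiftSeq (a : ℕ → ℂ) (l : ℂ) (m : ℕ) : ℂ :=
  ∑' i : ℕ, a (i + m) * l ^ i / (i.factorial : ℂ)

lemma norm_shift_term_le {a : ℕ → ℂ} {A τ : ℝ} (ha : GeomBdd a A τ) (l : ℂ) (m i : ℕ) :
    ‖a (i + m) * l ^ i / (i.factorial : ℂ)‖ ≤ A * τ ^ m * ((τ * ‖l‖) ^ i / i.factorial) := by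
  obtain ⟨hA, hτ, hak⟩ := ha
  rw [norm_div, norm_mul, norm_pow, Complex.norm_natCast]
  calc ‖a (i + m)‖ * ‖l‖ ^ i / i.factorial ≤ (A * τ ^ (i + m)) * ‖l‖ ^ i / i.factorial := by
        gcongr
        exact hak _
    _ = A * τ ^ m * ((τ * ‖l‖) ^ i / i.factorial) := by
        rw [pow_add, mul_pow]
        ring

lemma hasSum_exp_real (x : ℝ) : HasSum (fun i : ℕ => x ^ i / i.factorial) (Real.exp x) := by
  rw [Real.exp_eq_exp_ℝ]
  exact NormedSpace.expSeries_div_hasSum_exp x

lemma summable_shift {a : ℕ → ℂ} {A τ : ℝ} (ha : GeomBdd a A τ) (l : ℂ) (m : ℕ) :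
    Summable fun i : ℕ => a (i + m) * l ^ i / (i.factorial : ℂ) :=
  Summable.of_norm_bounded (g := fun i => A * τ ^ m * ((τ * ‖l‖) ^ i / i.factorial))
    ((hasSum_exp_real _).summable.mul_left _) (norm_shift_term_le ha l m)

lemma geomBdd_shift {a : ℕ → ℂ} {A τ : ℝ} (ha : GeomBdd a A τ) (l : ℂ) :
    GeomBdd (shiftSeq a l) (A * Real.exp (τ * ‖l‖)) τ := by
  refine ⟨mul_pos ha.1 (Real.exp_pos _), ha.2.1, fun m => ?_⟩
  have h := tsum_of_norm_bounded ((hasSum_exp_real (τ * ‖l‖)).mul_left (A * τ ^ m))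
    (norm_shift_term_le ha l m)
  calc ‖shiftSeq a l m‖ ≤ _ := h
    _ = _ := by ring

lemma iteratedDeriv_exp_mul {G : ℂ → ℂ} (hG : Differentiable ℂ G) (l z : ℂ) (k : ℕ) :
    iteratedDeriv k (fun w => Complex.exp (l * w) * G w) z =
      Complex.exp (l * z) * ∑ p ∈ Finset.HasAntidiagonal.antidiagonal k,
        (k.choose p.1 : ℂ) * l ^ p.1 * iteratedDeriv p.2 G z := by
  have h1 : ContDiffAt ℂ k (fun w : ℂ => Complex.exp (l * w)) z := by
    have : ContDiff ℂ k (fun w : ℂ => Complex.exp (l * w)) := by fun_prop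
    exact this.contDiffAt
  have h2 : ContDiffAt ℂ k G z := (hG.contDiff).contDiffAt
  rw [iteratedDeriv_fun_mul h1 h2, Finset.mul_sum,
    Finset.Nat.sum_antidiagonal_eq_sum_range_succ_mk]
  refine Finset.sum_congr rfl fun i _ => ?_
  rw [iteratedDeriv_cexp_const_mul]
  ring

theorem opS_conj {a : ℕ → ℂ} {A τ : ℝ} (ha : GeomBdd a A τ) {G : ℂ → ℂ}
    (hG : Differentiable ℂ G) (l z : ℂ) :
    opS a (fun w => Complex.exp (l * w) * G w) z =
      Complex.exp (l * z) * opS (shiftSeq a l) G z := by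
  obtain ⟨hA, hτ, hak⟩ := id ha
  obtain ⟨M, hM0, hM⟩ := exists_bound hG z (2 * τ)
  let F : ℕ × ℕ → ℂ := fun p =>
    (a (p.1 + p.2) * l ^ p.1 / (p.1.factorial : ℂ)) / (p.2.factorial : ℂ) * iteratedDeriv p.2 G z
  have hF : Summable F := by
    have h1 : Summable fun i : ℕ => A * M * ((τ * ‖l‖) ^ i / i.factorial) :=
      (hasSum_exp_real _).summable.mul_left _
    have h2 : Summable fun m : ℕ => ((1 / 2 : ℝ)) ^ m :=
      summable_geometric_of_lt_one (by norm_num) (by norm_num)
    have h3 := h1.mul_of_nonneg h2 (fun i => by positivity) (fun m => by positivity)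
    refine Summable.of_norm_bounded h3 ?_
    rintro ⟨i, m⟩
    have hfm : (0 : ℝ) < m.factorial := by exact_mod_cast m.factorial_pos
    simp only [F]
    rw [norm_mul, norm_div, Complex.norm_natCast]
    calc ‖a (i + m) * l ^ i / (i.factorial : ℂ)‖ / m.factorial * ‖iteratedDeriv m G z‖
        ≤ (A * τ ^ m * ((τ * ‖l‖) ^ i / i.factorial)) / m.factorial *
          (m.factorial * M / (2 * τ) ^ m) := by
          gcongr
          · exact norm_shift_term_le ha l m i
          · exact norm_iteratedDeriv_le hG (by positivity) hM m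
      _ = A * M * ((τ * ‖l‖) ^ i / i.factorial) * (1 / 2) ^ m := by
          rw [mul_pow 2 τ m, one_div, inv_pow]
          field_simp
  have hleft : opS a (fun w => Complex.exp (l * w) * G w) z =
      Complex.exp (l * z) * ∑' k : ℕ, ∑ p ∈ Finset.HasAntidiagonal.antidiagonal k, F p := by
    unfold opS
    rw [← tsum_mul_left]
    congr 1
    funext k
    rw [iteratedDeriv_exp_mul hG, Finset.mul_sum, Finset.mul_sum, Finset.mul_sum]
    refine Finset.sum_congr rfl fun p hp => ?_
    have hp' : p.1 + p.2 = k := Finset.HasAntidiagonal.mem_antidiagonal.1 hp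
    have hk : (k.factorial : ℂ) ≠ 0 := by exact_mod_cast k.factorial_ne_zero
    have hp1 : (p.1.factorial : ℂ) ≠ 0 := by exact_mod_cast p.1.factorial_ne_zero
    have hp2 : (p.2.factorial : ℂ) ≠ 0 := by exact_mod_cast p.2.factorial_ne_zero
    have hch : (k.choose p.1 : ℂ) * p.1.factorial * p.2.factorial = k.factorial := by
      have h := Nat.choose_mul_factorial_mul_factorial (n := k) (k := p.1) (by omega)
      have h2 : k - p.1 = p.2 := by omega
      rw [h2] at h
      exact_mod_cast h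
    simp only [F]
    rw [hp']
    have hch' : (k.choose p.1 : ℂ) / k.factorial = 1 / (p.1.factorial * p.2.factorial) := by
      rw [div_eq_div_iff hk (mul_ne_zero hp1 hp2)]
      linear_combination hch
    calc a k / (k.factorial : ℂ) * (Complex.exp (l * z) * ((k.choose p.1 : ℂ) * l ^ p.1 *
          iteratedDeriv p.2 G z))
        = Complex.exp (l * z) * (a k * l ^ p.1 * iteratedDeriv p.2 G z *
          ((k.choose p.1 : ℂ) / k.factorial)) := by ring
      _ = _ := by
          rw [hch']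
          field_simp
  have hmid : ∑' k : ℕ, ∑ p ∈ Finset.HasAntidiagonal.antidiagonal k, F p = ∑' p : ℕ × ℕ, F p := by
    conv_lhs => congr; ext; rw [← Finset.sum_finset_coe, ← tsum_fintype (L := .unconditional _)]
    rw [← Finset.HasAntidiagonal.sigmaAntidiagonalEquivProd.tsum_eq F]
    exact ((Finset.HasAntidiagonal.sigmaAntidiagonalEquivProd.summable_iff.2 hF).tsum_sigma'
      (fun n ↦ (hasSum_fintype _).summable)).symm
  have hright : ∑' p : ℕ × ℕ, F p = opS (shiftSeq a l) G z := by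
    have h1 : ∑' p : ℕ × ℕ, F p = ∑' m : ℕ, ∑' i : ℕ, F (i, m) := by
      rw [hF.tsum_prod, Summable.tsum_comm]
      exact (Equiv.prodComm ℕ ℕ).summable_iff.2 hF
    rw [h1]
    unfold opS
    congr 1
    funext m
    simp only [F]
    rw [tsum_mul_right, tsum_div_const]
    rfl
  rw [hleft, hmid, hright]

end Pool.Agent.Work.MP_8d04b0_an
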