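import Pool.Agent.Work.MP_8d04b0_an.Op

set_option autoImplicit false

open Metric Set Filter Topology

namespace Pool.Agent.Work.MP_8d04b0_an

/-- Coefficients of the truncated inverse times the symbol. -/
noncomputable def trc (a b : ℕ → ℂ) (N n : ℕ) : ℂ :=
  ∑ j ∈ Finset.range (N + 1), if j ≤ n then b j * (a (n - j) / ((n - j).factorial : ℂ)) else 0

lemma sum_b_iteratedDeriv {a : ℕ → ℂ} {A τ : ℝ} (ha : GeomBdd a A τ) {G : ℂ → ℂ}
    (hG : Differentiable ℂ G) (z : ℂ) (b : ℕ → ℂ) (N : ℕ) :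
    HasSum (fun n : ℕ => trc a b N n * iteratedDeriv n G z)
      (∑ j ∈ Finset.range (N + 1), b j * iteratedDeriv j (opS a G) z) := by
  have h1 : ∀ j : ℕ, HasSum (fun n : ℕ => (if j ≤ n then b j *
      (a (n - j) / ((n - j).factorial : ℂ)) else 0) * iteratedDeriv n G z)
      (b j * iteratedDeriv j (opS a G) z) := by
    intro j
    have h2 : HasSum (fun m : ℕ => b j * (a m / (m.factorial : ℂ) * iteratedDeriv m
        (iteratedDeriv j G) z)) (b j * iteratedDeriv j (opS a G) z) := by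
      rw [iteratedDeriv_opS ha hG]
      exact ((summable_opS ha (differentiable_iteratedDeriv hG j) z).hasSum).mul_left _
    have hinj : Function.Injective (fun m : ℕ => m + j) := add_left_injective j
    have h3 := (hinj.hasSum_iff (f := fun n : ℕ => (if j ≤ n then b j *
      (a (n - j) / ((n - j).factorial : ℂ)) else 0) * iteratedDeriv n G z)
      (a := b j * iteratedDeriv j (opS a G) z) (by
        intro n hn
        have : ¬ j ≤ n := by
          intro h
          exact hn ⟨n - j, by simp only; omega⟩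
        rw [if_neg this, zero_mul])).1
    refine h3 ?_
    refine h2.congr_fun ?_ |> fun h => h
    intro m
    simp only [Function.comp]
    rw [if_pos (by omega), iteratedDeriv_add', Nat.add_sub_cancel]
    ring
  have h4 := hasSum_sum (s := Finset.range (N + 1)) fun j _ => h1 j
  refine h4.congr_fun ?_ |> fun h => h
  intro n
  unfold trc
  rw [Finset.sum_mul]

lemma trc_zero {a b : ℕ → ℂ} (hab : b 0 * a 0 = 1) (N : ℕ) : trc a b N 0 = 1 := by
  unfold trc
  rw [Finset.sum_eq_single 0]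
  · simpa using hab
  · intro j _ hj
    rw [if_neg (by omega)]
  · intro h
    simp at h

lemma trc_eq_zero {a b : ℕ → ℂ}
    (hab : ∀ n : ℕ, 1 ≤ n →
        ∑ j ∈ Finset.range (n + 1), b j * (a (n - j) / ((n - j).factorial : ℂ)) = 0)
    {N n : ℕ} (h1 : 1 ≤ n) (h2 : n ≤ N) : trc a b N n = 0 := by
  unfold trc
  rw [← Finset.sum_filter, ← hab n h1]
  apply Finset.sum_congr
  · ext j
    simp only [Finset.mem_filter, Finset.mem_range]
    omega
  · intro j _
    rfl

lemma norm_trc_mul_le {a b : ℕ → ℂ} {A B s τ ρ : ℝ} (ha : GeomBdd a A τ) (hB : 0 < B)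
    (hs : 0 < s) (hb : ∀ j, ‖b j‖ ≤ B * s ^ j) (hρ : 0 < ρ) (hτρ : τ / ρ ≤ 1 / 8)
    {N n : ℕ} (hN : 1 ≤ N) (hNρ : s * N / ρ ≤ 1 / 8) (hn : N < n) :
    ‖trc a b N n‖ * n.factorial / ρ ^ n ≤
      A * B * (N + 1) * Real.exp (-N) * (3 / 8) ^ n := by
  obtain ⟨hA, hτ, hak⟩ := ha
  have hNpos : (0 : ℝ) < N := by exact_mod_cast hN
  have hterm : ∀ j ∈ Finset.range (N + 1),
      ‖(if j ≤ n then b j * (a (n - j) / ((n - j).factorial : ℂ)) else 0)‖ * n.factorial / ρ ^ n ≤
        A * B * Real.exp (-N) * (3 / 8) ^ n := by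
    intro j hj
    have hjN : j ≤ N := by
      have := Finset.mem_range.1 hj
      omega
    have hjn : j ≤ n := by omega
    rw [if_pos hjn, norm_mul, norm_div, Complex.norm_natCast]
    have hfac : (0 : ℝ) < (n - j).factorial := by exact_mod_cast Nat.factorial_pos _
    have hfac2 : (n.factorial : ℝ) = (n - j).factorial * (n.descFactorial j : ℝ) := by
      exact_mod_cast (Nat.factorial_mul_descFactorial hjn).symm
    have hdesc : (n.descFactorial j : ℝ) ≤ (n : ℝ) ^ j := by
      exact_mod_cast Nat.descFactorial_le_pow n j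
    have e1 : ‖b j‖ * (‖a (n - j)‖ / (n - j).factorial) * n.factorial / ρ ^ n =
        ‖b j‖ * ‖a (n - j)‖ * (n.descFactorial j : ℝ) / ρ ^ n := by
      rw [hfac2]
      field_simp
    rw [e1]
    have e2 : ‖b j‖ * ‖a (n - j)‖ * (n.descFactorial j : ℝ) / ρ ^ n ≤
        (B * s ^ j) * (A * τ ^ (n - j)) * (n : ℝ) ^ j / ρ ^ n := by
      gcongr
      · exact hb j
      · exact hak _
    refine e2.trans ?_
    have e3 : (B * s ^ j) * (A * τ ^ (n - j)) * (n : ℝ) ^ j / ρ ^ n =
        A * B * (((s * N / ρ) ^ j * (τ / ρ) ^ (n - j)) * (n / N : ℝ) ^ j) := by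
      have : ρ ^ n = ρ ^ j * ρ ^ (n - j) := by rw [← pow_add]; congr 1; omega
      rw [this, div_pow, div_pow, div_pow, mul_pow]
      field_simp
    rw [e3]
    have e4 : (s * N / ρ) ^ j * (τ / ρ) ^ (n - j) ≤ (1 / 8) ^ n := by
      calc (s * N / ρ) ^ j * (τ / ρ) ^ (n - j) ≤ (1 / 8) ^ j * (1 / 8) ^ (n - j) := by
            gcongr
        _ = (1 / 8) ^ n := by rw [← pow_add]; congr 1; omega
    have e5 : (n / N : ℝ) ^ j ≤ Real.exp (n - N) := by
      have hnN : (1 : ℝ) ≤ n / N := by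
        rw [le_div_iff₀ hNpos, one_mul]
        exact_mod_cast hn.le
      calc (n / N : ℝ) ^ j ≤ (n / N : ℝ) ^ N := pow_le_pow_right₀ hnN hjN
        _ ≤ (Real.exp ((n - N) / N)) ^ N := by
            gcongr
            have h := Real.add_one_le_exp (((n : ℝ) - N) / N)
            have h2 : ((n : ℝ) - N) / N + 1 = n / N := by field_simp; ring
            linarith
        _ = Real.exp (n - N) := by
            rw [← Real.exp_nat_mul]
            congr 1
            field_simp
    have e6 : Real.exp ((n : ℝ) - N) = Real.exp 1 ^ n * Real.exp (-N) := by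
      rw [← Real.exp_nat_mul, ← Real.exp_add]
      congr 1
      ring
    have e7 : Real.exp 1 ^ n ≤ 3 ^ n := by
      gcongr
      exact Real.exp_one_lt_d9.le.trans (by norm_num)
    calc A * B * (((s * N / ρ) ^ j * (τ / ρ) ^ (n - j)) * (n / N : ℝ) ^ j)
        ≤ A * B * ((1 / 8) ^ n * (3 ^ n * Real.exp (-N))) := by
          gcongr
          rw [e6] at e5
          exact e5.trans (by gcongr)
      _ = A * B * Real.exp (-N) * (3 / 8) ^ n := by
          have : (3 / 8 : ℝ) ^ n = (1 / 8) ^ n * 3 ^ n := by rw [← mul_pow]; norm_num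
          rw [this]
          ring
  calc ‖trc a b N n‖ * n.factorial / ρ ^ n
      ≤ (∑ j ∈ Finset.range (N + 1), ‖(if j ≤ n then b j *
          (a (n - j) / ((n - j).factorial : ℂ)) else 0)‖) * n.factorial / ρ ^ n := by
        gcongr
        exact norm_sum_le _ _
    _ = ∑ j ∈ Finset.range (N + 1), ‖(if j ≤ n then b j *
          (a (n - j) / ((n - j).factorial : ℂ)) else 0)‖ * n.factorial / ρ ^ n := by
        rw [Finset.sum_mul, Finset.sum_div]
    _ ≤ ∑ j ∈ Finset.range (N + 1), A * B * Real.exp (-N) * (3 / 8) ^ n :=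
        Finset.sum_le_sum hterm
    _ = A * B * (N + 1) * Real.exp (-N) * (3 / 8) ^ n := by
        rw [Finset.sum_const, Finset.card_range, nsmul_eq_mul]
        push_cast
        ring

/-- Local inversion of `∑ (a k / k!) D^k` when `a 0 ≠ 0`. -/
theorem local_inversion {a : ℕ → ℂ} {A τ : ℝ} (ha : GeomBdd a A τ) (h0 : a 0 ≠ 0) :
    ∃ c C ρ₀ : ℝ, 0 < c ∧ 0 < C ∧ 0 < ρ₀ ∧ ∀ ρ : ℝ, ρ₀ ≤ ρ → ∀ G : ℂ → ℂ, Differentiable ℂ G →
      ∀ (z : ℂ) (M m : ℝ), (∀ w ∈ closedBall z ρ, ‖G w‖ ≤ M) →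
        (∀ w ∈ closedBall z (ρ / 2), ‖opS a G w‖ ≤ m) →
        ‖G z‖ ≤ C * ρ * (m + Real.exp (-c * ρ) * M) := by
  obtain ⟨b, B, s, hB, hs, hb, hb0, hbn⟩ := exists_inverse ha h0
  obtain ⟨hA, hτ, hak⟩ := id ha
  refine ⟨1 / (8 * s), (B + 3 * A * B) / (4 * s), max (8 * s) (8 * τ), by positivity,
    by positivity, by positivity, ?_⟩
  intro ρ hρ G hG z M m hM hm
  have hρs : 8 * s ≤ ρ := (le_max_left _ _).trans hρ
  have hρτ : 8 * τ ≤ ρ := (le_max_right _ _).trans hρ
  have hρ0 : 0 < ρ := by linarith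
  have hM0 : 0 ≤ M := (norm_nonneg _).trans (hM z (mem_closedBall_self hρ0.le))
  have hm0 : 0 ≤ m := (norm_nonneg _).trans (hm z (mem_closedBall_self (by positivity)))
  set N : ℕ := ⌊ρ / (8 * s)⌋₊ with hNdef
  have hx1 : 1 ≤ ρ / (8 * s) := by rw [le_div_iff₀ (by positivity)]; linarith
  have hN1 : 1 ≤ N := Nat.one_le_floor_iff _ |>.2 hx1
  have hNle : (N : ℝ) ≤ ρ / (8 * s) := Nat.floor_le (by positivity)
  have hNlt : ρ / (8 * s) < N + 1 := Nat.lt_floor_add_one _
  have hNpos : (0 : ℝ) < N := by exact_mod_cast hN1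
  have hsN : s * N / ρ ≤ 1 / 8 := by
    rw [div_le_iff₀ hρ0]
    have := mul_le_mul_of_nonneg_left hNle hs.le
    calc s * N ≤ s * (ρ / (8 * s)) := this
      _ = 1 / 8 * ρ := by field_simp
  have hτρ : τ / ρ ≤ 1 / 8 := by
    rw [div_le_iff₀ hρ0]
    linarith
  -- the main identity
  have hsum := sum_b_iteratedDeriv ha hG z b N
  set S : ℂ := ∑ j ∈ Finset.range (N + 1), b j * iteratedDeriv j (opS a G) z with hS
  have hsum1 := (hasSum_nat_add_iff' 1).2 hsum
  simp only [Finset.range_one, Finset.sum_singleton, iteratedDeriv_zero,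
    trc_zero hb0, one_mul] at hsum1
  -- bound the tail
  set K : ℝ := A * B * (N + 1) * Real.exp (-N) * M with hK
  have hK0 : 0 ≤ K := by positivity
  have hterm : ∀ n : ℕ, ‖trc a b N (n + 1) * iteratedDeriv (n + 1) G z‖ ≤
      K * (3 / 8) * (3 / 8) ^ n := by
    intro n
    rcases le_or_gt (n + 1) N with h | h
    · rw [trc_eq_zero hbn (by omega) h, zero_mul, norm_zero]
      positivity
    · rw [norm_mul]
      have h1 := norm_iteratedDeriv_le hG hρ0 hM (n + 1)
      have h2 := norm_trc_mul_le ha hB hs hb hρ0 hτρ hN1 hsN h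
      calc ‖trc a b N (n + 1)‖ * ‖iteratedDeriv (n + 1) G z‖
          ≤ ‖trc a b N (n + 1)‖ * ((n + 1).factorial * M / ρ ^ (n + 1)) := by gcongr
        _ = (‖trc a b N (n + 1)‖ * (n + 1).factorial / ρ ^ (n + 1)) * M := by ring
        _ ≤ (A * B * (N + 1) * Real.exp (-N) * (3 / 8) ^ (n + 1)) * M := by gcongr
        _ = K * (3 / 8) * (3 / 8) ^ n := by rw [hK, pow_succ]; ring
  have hgeo : HasSum (fun n : ℕ => K * (3 / 8) * (3 / 8 : ℝ) ^ n)
      (K * (3 / 8) * (1 - 3 / 8)⁻¹) :=
    (hasSum_geometric_of_lt_one (by norm_num) (by norm_num)).mul_left _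
  have htail : ‖S - G z‖ ≤ K := by
    have h1 := tsum_of_norm_bounded hgeo hterm
    rw [hsum1.tsum_eq] at h1
    refine h1.trans ?_
    norm_num
    linarith
  -- bound the main part
  have hmain : ‖S‖ ≤ B * m * (N + 1) := by
    have h1 : ∀ j ∈ Finset.range (N + 1), ‖b j * iteratedDeriv j (opS a G) z‖ ≤ B * m := by
      intro j hj
      have hjN : j ≤ N := by
        have := Finset.mem_range.1 hj
        omega
      rw [norm_mul]
      have h2 := norm_iteratedDeriv_le (differentiable_opS ha hG) (by positivity : 0 < ρ / 2) hm j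
      have h3 : (j.factorial : ℝ) ≤ (N : ℝ) ^ j := by
        have : j.factorial ≤ N ^ j :=
          (Nat.factorial_le_pow j).trans (Nat.pow_le_pow_left hjN j)
        exact_mod_cast this
      calc ‖b j‖ * ‖iteratedDeriv j (opS a G) z‖
          ≤ (B * s ^ j) * ((N : ℝ) ^ j * m / (ρ / 2) ^ j) := by
            gcongr
            · exact hb j
            · exact h2.trans (by gcongr)
        _ = B * m * (2 * (s * N / ρ)) ^ j := by
            rw [div_pow, mul_pow, div_pow, mul_pow]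
            field_simp
        _ ≤ B * m * 1 := by
            gcongr
            exact pow_le_one₀ (by positivity) (by linarith)
        _ = B * m := by ring
    calc ‖S‖ ≤ ∑ j ∈ Finset.range (N + 1), ‖b j * iteratedDeriv j (opS a G) z‖ := norm_sum_le _ _
      _ ≤ ∑ j ∈ Finset.range (N + 1), B * m := Finset.sum_le_sum h1
      _ = B * m * (N + 1) := by
          rw [Finset.sum_const, Finset.card_range, nsmul_eq_mul]
          push_cast
          ring
  have hGz : ‖G z‖ ≤ B * m * (N + 1) + K := by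
    calc ‖G z‖ = ‖S - (S - G z)‖ := by rw [sub_sub_cancel]
      _ ≤ ‖S‖ + ‖S - G z‖ := norm_sub_le _ _
      _ ≤ _ := add_le_add hmain htail
  have hN2 : (N : ℝ) + 1 ≤ ρ / (4 * s) := by
    have : ρ / (4 * s) = 2 * (ρ / (8 * s)) := by field_simp; ring
    rw [this]
    linarith
  have hexp : Real.exp (-(N : ℝ)) ≤ 3 * Real.exp (-(1 / (8 * s)) * ρ) := by
    have h1 : -(N : ℝ) ≤ 1 + -(1 / (8 * s)) * ρ := by
      have : 1 / (8 * s) * ρ = ρ / (8 * s) := by ring
      linarith
    calc Real.exp (-(N : ℝ)) ≤ Real.exp (1 + -(1 / (8 * s)) * ρ) := Real.exp_le_exp.2 h1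
      _ = Real.exp 1 * Real.exp (-(1 / (8 * s)) * ρ) := Real.exp_add _ _
      _ ≤ 3 * Real.exp (-(1 / (8 * s)) * ρ) := by
          gcongr
          exact Real.exp_one_lt_d9.le.trans (by norm_num)
  set X : ℝ := Real.exp (-(1 / (8 * s)) * ρ) with hX
  have hX0 : 0 < X := Real.exp_pos _
  calc ‖G z‖ ≤ B * m * (N + 1) + K := hGz
    _ ≤ B * m * (ρ / (4 * s)) + A * B * (ρ / (4 * s)) * (3 * X) * M := by
        rw [hK]
        gcongr
    _ ≤ (B + 3 * A * B) / (4 * s) * ρ * (m + X * M) := by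
        have h1 : (B + 3 * A * B) / (4 * s) * ρ * (m + X * M) =
            B * m * (ρ / (4 * s)) + A * B * (ρ / (4 * s)) * (3 * X) * M +
            (B * (X * M) * (ρ / (4 * s)) + 3 * A * B * m * (ρ / (4 * s))) := by
          field_simp
          ring
        rw [h1]
        have : 0 ≤ B * (X * M) * (ρ / (4 * s)) + 3 * A * B * m * (ρ / (4 * s)) := by positivity
        linarith

end Pool.Agent.Work.MP_8d04b0_an
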