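import Mathlib

set_option autoImplicit false

open Metric Set Filter Topology

namespace Pool.Agent.Work.MP_8d04b0_an

/-- Sublinear functions on the plane. -/
structure Subl (H : ℂ → ℝ) : Prop where
  add_le : ∀ z w, H (z + w) ≤ H z + H w
  smul : ∀ (t : ℝ) (z : ℂ), 0 ≤ t → H (t * z) = t * H z

/-- The convex set with support function `H` (for the pairing `Re (w z)`). -/
def DD (H : ℂ → ℝ) : Set ℂ := {w | ∀ z, (w * z).re ≤ H z}

namespace Subl

variable {H : ℂ → ℝ} (hH : Subl H)

include hH

lemma zero : H 0 = 0 := by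
  have := hH.smul 0 0 le_rfl
  simpa using this

lemma neg_le (z : ℂ) : -H (-z) ≤ H z := by
  have h := hH.add_le z (-z)
  rw [add_neg_cancel, hH.zero] at h
  linarith

lemma exists_bound : ∃ L : ℝ, 0 < L ∧ ∀ z, H z ≤ L * ‖z‖ := by
  set M : ℝ := |H 1| + |H (-1)| + |H Complex.I| + |H (-Complex.I)| + 1 with hM
  have hM0 : 0 < M := by positivity
  refine ⟨2 * M, by positivity, fun z => ?_⟩
  have key : ∀ (v : ℂ), H v ≤ M → H (-v) ≤ M → ∀ x : ℝ, H (x * v) ≤ M * |x| := by
    intro v h1 h2 x
    rcases le_total 0 x with hx | hx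
    · rw [hH.smul x v hx, abs_of_nonneg hx, mul_comm]
      gcongr
    · have : (x : ℂ) * v = ((-x : ℝ) : ℂ) * (-v) := by push_cast; ring
      rw [this, hH.smul (-x) (-v) (by linarith), abs_of_nonpos hx, mul_comm]
      exact mul_le_mul_of_nonneg_right h2 (by linarith)
  have h1 := le_abs_self (H 1)
  have h2 := le_abs_self (H (-1))
  have h3 := le_abs_self (H Complex.I)
  have h4 := le_abs_self (H (-Complex.I))
  have a1 := abs_nonneg (H 1)
  have a2 := abs_nonneg (H (-1))
  have a3 := abs_nonneg (H Complex.I)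
  have a4 := abs_nonneg (H (-Complex.I))
  have hz : z = (z.re : ℂ) * 1 + (z.im : ℂ) * Complex.I := by
    rw [mul_one, Complex.re_add_im]
  have e1 := key 1 (by linarith) (by linarith) z.re
  have e2 := key Complex.I (by linarith) (by linarith) z.im
  calc H z = H ((z.re : ℂ) * 1 + (z.im : ℂ) * Complex.I) := by rw [← hz]
    _ ≤ M * |z.re| + M * |z.im| := (hH.add_le _ _).trans (add_le_add e1 e2)
    _ ≤ M * ‖z‖ + M * ‖z‖ := by
        gcongr
        · exact Complex.abs_re_le_norm z
        · exact Complex.abs_im_le_norm z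
    _ = 2 * M * ‖z‖ := by ring

lemma exists_lipschitz : ∃ L : ℝ, 0 < L ∧ (∀ z, H z ≤ L * ‖z‖) ∧
    ∀ z w, H z - H w ≤ L * ‖z - w‖ := by
  obtain ⟨L, hL, hb⟩ := hH.exists_bound
  refine ⟨L, hL, hb, fun z w => ?_⟩
  have h1 := hH.add_le w (z - w)
  rw [add_sub_cancel] at h1
  linarith [hb (z - w)]

lemma continuous : Continuous H := by
  obtain ⟨L, hL, -, hl⟩ := hH.exists_lipschitz
  have : LipschitzWith ⟨L, hL.le⟩ H := by
    refine LipschitzWith.of_dist_le_mul fun z w => ?_
    rw [Real.dist_eq, dist_eq_norm, abs_le]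
    constructor
    · have := hl w z
      rw [norm_sub_rev] at this
      change -(L * ‖z - w‖) ≤ _
      linarith
    · exact hl z w
  exact this.continuous

lemma norm_le_of_mem {L : ℝ} (hL : ∀ z, H z ≤ L * ‖z‖) {w : ℂ} (hw : w ∈ DD H) :
    ‖w‖ ≤ L := by
  rcases eq_or_ne w 0 with rfl | h0
  · have := hL 1
    have h2 : (0 : ℝ) ≤ H 1 := by
      have := hw 1
      simpa using this
    simp at this ⊢
    linarith
  · have h1 := hw ((starRingEnd ℂ) w)
    have h2 := hL ((starRingEnd ℂ) w)
    rw [Complex.mul_conj, Complex.ofReal_re, Complex.normSq_eq_norm_sq] at h1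
    rw [RCLike.norm_conj] at h2
    have hpos : 0 < ‖w‖ := norm_pos_iff.2 h0
    nlinarith

lemma isClosed_DD : IsClosed (DD H) := by
  have : DD H = ⋂ z : ℂ, {w : ℂ | (w * z).re ≤ H z} := by
    ext w
    simp [DD]
  rw [this]
  refine isClosed_iInter fun z => isClosed_le ?_ continuous_const
  fun_prop

lemma isCompact_DD : IsCompact (DD H) := by
  obtain ⟨L, hL, hb⟩ := hH.exists_bound
  refine Metric.isCompact_of_isClosed_isBounded hH.isClosed_DD ?_
  refine (Metric.isBounded_closedBall (x := (0 : ℂ)) (r := L)).subset fun w hw => ?_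
  rw [mem_closedBall_zero_iff]
  exact hH.norm_le_of_mem hb hw

lemma convex_DD : Convex ℝ (DD H) := by
  intro w hw v hv a b ha hb hab z
  have h1 := hw z
  have h2 := hv z
  have h3 : ((a • w + b • v) * z).re = a * (w * z).re + b * (v * z).re := by
    rw [add_mul, Complex.add_re, smul_mul_assoc, smul_mul_assoc, Complex.smul_re, Complex.smul_re,
      smul_eq_mul, smul_eq_mul]
  rw [h3]
  nlinarith [mul_le_mul_of_nonneg_left h1 ha, mul_le_mul_of_nonneg_left h2 hb,
    (by rw [← add_mul, hab, one_mul] : a * H z + b * H z = H z)]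

/-- Every direction has a support point. -/
lemma exists_support (z : ℂ) : ∃ w ∈ DD H, (w * z).re = H z := by
  have hmain : ∀ v : ℂ, v ≠ 0 → ∃ w ∈ DD H, (w * v).re = H v := by
    intro v hv
    obtain ⟨g, hg1, hg2⟩ := exists_extension_of_le_sublinear
      (LinearPMap.mkSpanSingleton (K := ℝ) v (H v) hv) H
      (fun c hc x => by
        have := hH.smul c x hc.le
        rwa [← Complex.real_smul] at this) hH.add_le
      (by
        rintro ⟨x, hx⟩
        obtain ⟨t, rfl⟩ := Submodule.mem_span_singleton.1 hx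
        have e1 : (LinearPMap.mkSpanSingleton (K := ℝ) v (H v) hv) ⟨t • v, hx⟩ = t • H v :=
          LinearPMap.mkSpanSingleton'_apply _ _ _ _ _
        rw [e1]
        simp only [smul_eq_mul]
        rcases le_total 0 t with ht | ht
        · have := hH.smul t v ht
          rw [← Complex.real_smul] at this
          exact this.ge
        · have h1 := hH.smul (-t) v (by linarith)
          have h2 := hH.neg_le (((-t : ℝ) : ℂ) * v)
          have h3 : t • v = -(((-t : ℝ) : ℂ) * v) := by
            rw [Complex.real_smul]; push_cast; ring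
          have h4 := hH.neg_le (t • v)
          rw [h3, neg_neg, h1] at h4
          rw [h3]
          linarith)
    refine ⟨(g 1 : ℂ) - (g Complex.I : ℂ) * Complex.I, ?_, ?_⟩
    · intro x
      have hx : x = x.re • (1 : ℂ) + x.im • Complex.I := by
        rw [Complex.real_smul, Complex.real_smul, mul_one, Complex.re_add_im]
      have h1 : g x = x.re * g 1 + x.im * g Complex.I := by
        conv_lhs => rw [hx]
        rw [map_add, map_smul, map_smul, smul_eq_mul, smul_eq_mul]
      have h2 : (((g 1 : ℂ) - (g Complex.I : ℂ) * Complex.I) * x).re = g x := by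
        rw [h1]
        simp [Complex.mul_re, Complex.mul_im]
        ring
      rw [h2]
      exact hg2 x
    · have hx : v = v.re • (1 : ℂ) + v.im • Complex.I := by
        rw [Complex.real_smul, Complex.real_smul, mul_one, Complex.re_add_im]
      have h1 : g v = v.re * g 1 + v.im * g Complex.I := by
        conv_lhs => rw [hx]
        rw [map_add, map_smul, map_smul, smul_eq_mul, smul_eq_mul]
      have h2 : (((g 1 : ℂ) - (g Complex.I : ℂ) * Complex.I) * v).re = g v := by
        rw [h1]
        simp [Complex.mul_re, Complex.mul_im]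
        ring
      rw [h2]
      have h3 := hg1 ⟨v, Submodule.mem_span_singleton_self v⟩
      exact h3.trans (LinearPMap.mkSpanSingleton_apply ℝ ℝ hv (H v))
  rcases eq_or_ne z 0 with rfl | hz
  · obtain ⟨w, hw, -⟩ := hmain 1 one_ne_zero
    exact ⟨w, hw, by simp [hH.zero]⟩
  · exact hmain z hz

/-- If `l` is the only support point in direction `u` then `H - Re (l ·)` is `o` near `u`. -/
lemma diff_of_unique {u l : ℂ} (hl : l ∈ DD H)
    (huniq : ∀ w ∈ DD H, (w * u).re = H u → w = l) {η : ℝ} (hη : 0 < η) :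
    ∃ δ : ℝ, 0 < δ ∧ ∀ ζ : ℂ, ‖ζ‖ ≤ δ → H (u + ζ) - (l * (u + ζ)).re ≤ η * ‖ζ‖ := by
  obtain ⟨L, hL, hb, hlip⟩ := hH.exists_lipschitz
  -- gap
  obtain ⟨κ, hκ, hgap⟩ : ∃ κ : ℝ, 0 < κ ∧ ∀ w ∈ DD H, η ≤ ‖w - l‖ → (w * u).re ≤ H u - κ := by
    set C : Set ℂ := DD H ∩ {w | η ≤ ‖w - l‖} with hC
    have hCc : IsCompact C := hH.isCompact_DD.inter_right
      (isClosed_le continuous_const (by fun_prop))
    rcases C.eq_empty_or_nonempty with hemp | hne
    · refine ⟨1, one_pos, fun w hw h => ?_⟩
      have : w ∈ C := ⟨hw, h⟩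
      rw [hemp] at this
      exact absurd this (notMem_empty _)
    · obtain ⟨w0, hw0, hmin⟩ := hCc.exists_isMinOn hne
        (f := fun w : ℂ => H u - (w * u).re) (by fun_prop)
      have hpos : 0 < H u - (w0 * u).re := by
        have h1 := hw0.1 u
        have h2 : (w0 * u).re ≠ H u := by
          intro h
          have := huniq w0 hw0.1 h
          have h3 : η ≤ ‖w0 - l‖ := hw0.2
          rw [this, sub_self, norm_zero] at h3
          linarith
        have : (w0 * u).re < H u := lt_of_le_of_ne h1 h2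
        linarith
      refine ⟨H u - (w0 * u).re, hpos, fun w hw h => ?_⟩
      have := hmin (show w ∈ C from ⟨hw, h⟩)
      simp only [mem_ofPred_eq] at this
      linarith
  refine ⟨κ / (2 * L + 1) / 2, by positivity, fun ζ hζ => ?_⟩
  obtain ⟨w, hw, hws⟩ := hH.exists_support (u + ζ)
  have hwL := hH.norm_le_of_mem hb hw
  have hre : (w * ζ).re ≤ L * ‖ζ‖ := by
    refine (Complex.re_le_norm _).trans ?_
    rw [norm_mul]
    gcongr
  have h1 : (w * (u + ζ)).re = (w * u).re + (w * ζ).re := by rw [mul_add, Complex.add_re]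
  have h2 : H u - H (u + ζ) ≤ L * ‖ζ‖ := by
    have := hlip u (u + ζ)
    rwa [sub_add_cancel_left, norm_neg] at this
  have hsmall : 2 * L * ‖ζ‖ < κ := by
    have h3 : ‖ζ‖ * (2 * L + 1) ≤ κ / 2 := by
      have h31 : κ / (2 * L + 1) / 2 * (2 * L + 1) = κ / 2 := by
        field_simp
      rw [← h31]
      exact mul_le_mul_of_nonneg_right hζ (by positivity)
    have := norm_nonneg ζ
    nlinarith
  have hclose : ‖w - l‖ < η := by
    by_contra hcon
    have := hgap w hw (not_lt.1 hcon)
    rw [hws] at h1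
    linarith
  have h4 : H (u + ζ) - (l * (u + ζ)).re = ((w - l) * u).re + ((w - l) * ζ).re := by
    rw [← hws, ← Complex.sub_re, ← Complex.add_re]
    congr 1
    ring
  rw [h4]
  have h5 : ((w - l) * u).re ≤ 0 := by
    have hlu : (l * u).re = H u := by
      obtain ⟨v, hv, hvs⟩ := hH.exists_support u
      rw [← huniq v hv hvs]
      exact hvs
    rw [sub_mul, Complex.sub_re, hlu]
    linarith [hw u]
  have h6 : ((w - l) * ζ).re ≤ η * ‖ζ‖ := by
    refine (Complex.re_le_norm _).trans ?_
    rw [norm_mul]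
    gcongr
  linarith

end Subl

end Pool.Agent.Work.MP_8d04b0_an
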