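import Mathlib
import Pool.Agent.Work.MP_8d04b0_an.LocalInv
import Pool.Agent.Work.MP_8d04b0_an.Conj
import Pool.Agent.Work.MP_8d04b0_an.Subl

set_option autoImplicit false

open Metric Set Filter Topology

namespace Pool.Agent.Work.MP_8d04b0_an

/-- `H` dominates `log ‖f‖` up to `o(‖z‖)`. -/
def Upper (f : ℂ → ℂ) (H : ℂ → ℝ) : Prop :=
  ∀ ε : ℝ, 0 < ε → ∃ R : ℝ, 0 < R ∧ ∀ z : ℂ, R ≤ ‖z‖ → ‖f z‖ ≤ Real.exp (H z + ε * ‖z‖)

/-- `f` is regular in direction `u`. -/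
def Reg (f : ℂ → ℂ) (H : ℂ → ℝ) (u : ℂ) : Prop :=
  ∀ ε : ℝ, 0 < ε → ∀ δ : ℝ, 0 < δ → ∃ R : ℝ, ∀ r : ℝ, R ≤ r →
    ∃ z : ℂ, ‖z - r * u‖ ≤ δ * r ∧ Real.exp (r * (H u - ε)) ≤ ‖f z‖

lemma opS_eq_mul {a : ℕ → ℂ} {A τ : ℝ} (ha : GeomBdd a A τ) {f : ℂ → ℂ}
    (hf : Differentiable ℂ f) (l z : ℂ) :
    opS a f z = Complex.exp (l * z) * opS (shiftSeq a l) (fun w => Complex.exp (-(l * w)) * f w) z := by
  rw [← opS_conj ha (by fun_prop)]
  congr 1
  funext w
  rw [← mul_assoc, ← Complex.exp_add, add_neg_cancel, Complex.exp_zero, one_mul]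

theorem reg_of_good {a : ℕ → ℂ} {A τ : ℝ} (ha : GeomBdd a A τ) {H : ℂ → ℝ} (hH : Subl H)
    {f : ℂ → ℂ} (hf : Differentiable ℂ f) (hU : Upper f H) {u l : ℂ} (hu : u ≠ 0)
    (hl : l ∈ DD H) (hlu : (l * u).re = H u)
    (hdiff : ∀ η : ℝ, 0 < η → ∃ δ : ℝ, 0 < δ ∧ ∀ ζ : ℂ, ‖ζ‖ ≤ δ →
      H (u + ζ) - (l * (u + ζ)).re ≤ η * ‖ζ‖)
    (h0 : shiftSeq a l 0 ≠ 0) (hR : Reg f H u) : Reg (opS a f) H u := by
  obtain ⟨c, C, ρ₀, hc, hC, hρ₀, hinv⟩ := local_inversion (geomBdd_shift ha l) h0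
  intro ε0 hε0 δ0 hδ0
  obtain ⟨δ1, hδ1, hδ1'⟩ := hdiff (c / 16) (by positivity)
  have hun : 0 < ‖u‖ := norm_pos_iff.2 hu
  have hln : 0 ≤ ‖l‖ := norm_nonneg l
  obtain ⟨δ, hδ, hδa, hδb, hδc, hδd⟩ : ∃ δ : ℝ, 0 < δ ∧ δ ≤ δ0 ∧ δ ≤ δ1 ∧ ‖l‖ * δ ≤ ε0 / 4 ∧
      δ ≤ ‖u‖ / 2 := by
    refine ⟨min (min δ0 δ1) (min (ε0 / (4 * (‖l‖ + 1))) (‖u‖ / 2)), by positivity,
      (min_le_left _ _).trans (min_le_left _ _), (min_le_left _ _).trans (min_le_right _ _), ?_,
      (min_le_right _ _).trans (min_le_right _ _)⟩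
    calc ‖l‖ * min (min δ0 δ1) (min (ε0 / (4 * (‖l‖ + 1))) (‖u‖ / 2))
        ≤ (‖l‖ + 1) * (ε0 / (4 * (‖l‖ + 1))) := by
          gcongr
          · linarith
          · exact (min_le_right _ _).trans (min_le_left _ _)
      _ = ε0 / 4 := by field_simp
  set κ : ℝ := min (ε0 / 2) (c * δ / 4) with hκdef
  have hκ : 0 < κ := by positivity
  have hκ1 : κ ≤ ε0 / 2 := min_le_left _ _
  have hκ2 : κ ≤ c * δ / 4 := min_le_right _ _
  obtain ⟨δ', hδ', hδ'a, hδ'b⟩ : ∃ δ' : ℝ, 0 < δ' ∧ δ' ≤ δ / 2 ∧ ‖l‖ * δ' ≤ κ / 4 := by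
    refine ⟨min (δ / 2) (κ / (4 * (‖l‖ + 1))), by positivity, min_le_left _ _, ?_⟩
    calc ‖l‖ * min (δ / 2) (κ / (4 * (‖l‖ + 1)))
        ≤ (‖l‖ + 1) * (κ / (4 * (‖l‖ + 1))) := by
          gcongr
          · linarith
          · exact min_le_right _ _
      _ = κ / 4 := by field_simp
  obtain ⟨RU, hRU, hRU'⟩ := hU (c * δ / 16 / (‖u‖ + δ)) (by positivity)
  obtain ⟨RR, hRR⟩ := hR (κ / 4) (by positivity) δ' hδ'
  refine ⟨max (max RR 1) (max (RU / (‖u‖ / 2)) (max (2 * ρ₀ / δ) (8 * C * δ / κ ^ 2))), ?_⟩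
  intro r hr
  have hr1 : RR ≤ r := (le_max_left _ _).trans ((le_max_left _ _).trans hr)
  have hr2 : 1 ≤ r := (le_max_right _ _).trans ((le_max_left _ _).trans hr)
  have hr3 : RU / (‖u‖ / 2) ≤ r := (le_max_left _ _).trans ((le_max_right _ _).trans hr)
  have hr4 : 2 * ρ₀ / δ ≤ r :=
    (le_max_left _ _).trans ((le_max_right _ _).trans ((le_max_right _ _).trans hr))
  have hr5 : 8 * C * δ / κ ^ 2 ≤ r :=
    (le_max_right _ _).trans ((le_max_right _ _).trans ((le_max_right _ _).trans hr))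
  have hr0 : 0 < r := by linarith
  by_contra hcon
  push Not at hcon
  obtain ⟨z, hz1, hz2⟩ := hRR r hr1
  have hb : ∀ w : ℂ, ‖w - r * u‖ ≤ δ * r → ‖Complex.exp (-(l * w)) * f w‖ ≤
      Real.exp (c * δ * r / 8) := by
    intro w hw
    have hw1 : RU ≤ ‖w‖ := by
      have h1 : ‖(r : ℂ) * u‖ = r * ‖u‖ := by
        rw [norm_mul, Complex.norm_real, Real.norm_of_nonneg hr0.le]
      have h2 : ‖(r : ℂ) * u‖ ≤ ‖w‖ + ‖w - r * u‖ := by
        have := norm_sub_le w (w - r * u)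
        rwa [sub_sub_cancel] at this
      have h3 : RU ≤ r * (‖u‖ / 2) := by rwa [div_le_iff₀ (by positivity)] at hr3
      nlinarith
    have hw2 : ‖w‖ ≤ (‖u‖ + δ) * r := by
      have h1 : ‖(r : ℂ) * u‖ = r * ‖u‖ := by
        rw [norm_mul, Complex.norm_real, Real.norm_of_nonneg hr0.le]
      have h2 : ‖w‖ ≤ ‖w - r * u‖ + ‖(r : ℂ) * u‖ := by
        have := norm_add_le (w - r * u) (r * u)
        rwa [sub_add_cancel] at this
      nlinarith
    set ζ : ℂ := (w - r * u) / r with hζ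
    have hrc : (r : ℂ) ≠ 0 := by exact_mod_cast hr0.ne'
    have hwζ : w = (r : ℂ) * (u + ζ) := by
      rw [hζ]
      field_simp
      ring
    have hζn : ‖ζ‖ ≤ δ := by
      rw [hζ, norm_div, Complex.norm_real, Real.norm_of_nonneg hr0.le, div_le_iff₀ hr0]
      exact hw
    have hK : H w - (l * w).re ≤ c / 16 * δ * r := by
      have h1 : H w = r * H (u + ζ) := by
        rw [hwζ]
        exact hH.smul r _ hr0.le
      have h2 : (l * w).re = r * (l * (u + ζ)).re := by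
        rw [hwζ, ← mul_assoc, mul_comm l, mul_assoc, Complex.re_ofReal_mul]
      rw [h1, h2, ← mul_sub]
      have h3 := hδ1' ζ (hζn.trans hδb)
      have h4 : c / 16 * ‖ζ‖ ≤ c / 16 * δ := by gcongr
      nlinarith
    have h5 := hRU' w hw1
    rw [norm_mul, Complex.norm_exp, Complex.neg_re]
    calc Real.exp (-(l * w).re) * ‖f w‖
        ≤ Real.exp (-(l * w).re) * Real.exp (H w + c * δ / 16 / (‖u‖ + δ) * ‖w‖) := by gcongr
      _ = Real.exp (H w - (l * w).re + c * δ / 16 / (‖u‖ + δ) * ‖w‖) := by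
          rw [← Real.exp_add]
          congr 1
          ring
      _ ≤ Real.exp (c * δ * r / 8) := by
          apply Real.exp_le_exp.2
          have h6 : c * δ / 16 / (‖u‖ + δ) * ‖w‖ ≤ c * δ / 16 / (‖u‖ + δ) * ((‖u‖ + δ) * r) := by
            gcongr
          have h7 : c * δ / 16 / (‖u‖ + δ) * ((‖u‖ + δ) * r) = c * δ / 16 * r := by
            field_simp
          rw [h7] at h6
          linarith
  have hs : ∀ w : ℂ, ‖w - r * u‖ ≤ δ * r →
      ‖opS (shiftSeq a l) (fun w => Complex.exp (-(l * w)) * f w) w‖ ≤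
        Real.exp (-(3 / 4 * ε0 * r)) := by
    intro w hw
    have h1 := hcon w (hw.trans (by gcongr))
    rw [opS_eq_mul ha hf l w, norm_mul, Complex.norm_exp] at h1
    have h2 : (l * w).re ≥ r * H u - ‖l‖ * (δ * r) := by
      have h3 : (l * w).re = (l * (r * u)).re + (l * (w - r * u)).re := by
        rw [← Complex.add_re]
        congr 1
        ring
      have h4 : (l * (r * u)).re = r * H u := by
        rw [← hlu, ← mul_assoc, mul_comm l, mul_assoc, Complex.re_ofReal_mul]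
      have h5 : -(‖l‖ * (δ * r)) ≤ (l * (w - r * u)).re := by
        have h6 := Complex.abs_re_le_norm (l * (w - r * u))
        have h7 := neg_abs_le (l * (w - r * u)).re
        rw [norm_mul] at h6
        have h8 : ‖l‖ * ‖w - r * u‖ ≤ ‖l‖ * (δ * r) := by gcongr
        linarith
      linarith
    have h9 : 0 < Real.exp ((l * w).re) := Real.exp_pos _
    have h10 : ‖opS (shiftSeq a l) (fun w => Complex.exp (-(l * w)) * f w) w‖ <
        Real.exp (r * (H u - ε0)) / Real.exp ((l * w).re) := by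
      rw [lt_div_iff₀ h9, mul_comm]
      exact h1
    rw [← Real.exp_sub] at h10
    refine h10.le.trans (Real.exp_le_exp.2 ?_)
    have h11 : ‖l‖ * δ * r ≤ ε0 / 4 * r := by gcongr
    linarith
  -- apply the local inversion
  have hρ : ρ₀ ≤ δ * r / 2 := by
    rw [div_le_iff₀ hδ] at hr4
    linarith
  have hG : Differentiable ℂ (fun w => Complex.exp (-(l * w)) * f w) := by fun_prop
  have hmain := hinv (δ * r / 2) hρ (fun w => Complex.exp (-(l * w)) * f w) hG z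
    (Real.exp (c * δ * r / 8)) (Real.exp (-(3 / 4 * ε0 * r)))
    (fun w hw => hb w (by
      rw [mem_closedBall, dist_eq_norm] at hw
      have h1 : ‖w - r * u‖ ≤ ‖w - z‖ + ‖z - r * u‖ := norm_sub_le_norm_sub_add_norm_sub _ _ _
      have h2 : δ' * r ≤ δ / 2 * r := by gcongr
      linarith))
    (fun w hw => hs w (by
      rw [mem_closedBall, dist_eq_norm] at hw
      have h1 : ‖w - r * u‖ ≤ ‖w - z‖ + ‖z - r * u‖ := norm_sub_le_norm_sub_add_norm_sub _ _ _
      have h2 : δ' * r ≤ δ / 2 * r := by gcongr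
      have h3 : 0 < δ * r := by positivity
      linarith))
  have h1 : Real.exp (-(3 / 4 * ε0 * r)) ≤ Real.exp (-(3 / 2 * κ * r)) := by
    apply Real.exp_le_exp.2
    nlinarith
  have h2 : Real.exp (-c * (δ * r / 2)) * Real.exp (c * δ * r / 8) ≤
      Real.exp (-(3 / 2 * κ * r)) := by
    rw [← Real.exp_add]
    apply Real.exp_le_exp.2
    nlinarith
  have h3 : C * (δ * r) ≤ Real.exp (κ / 2 * r) := by
    have h4 := Real.quadratic_le_exp_of_nonneg (x := κ / 2 * r) (by positivity)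
    have h5 : 8 * C * δ ≤ r * κ ^ 2 := by rwa [div_le_iff₀ (by positivity)] at hr5
    have h6 : C * (δ * r) ≤ (κ / 2 * r) ^ 2 / 2 := by
      have : 8 * C * δ * r ≤ r * κ ^ 2 * r := by gcongr
      nlinarith
    have h7 : 0 ≤ κ / 2 * r := by positivity
    linarith
  have h4 : ‖Complex.exp (-(l * z)) * f z‖ ≤ Real.exp (-(κ * r)) := by
    refine hmain.trans ?_
    calc C * (δ * r / 2) * (Real.exp (-(3 / 4 * ε0 * r)) +
          Real.exp (-c * (δ * r / 2)) * Real.exp (c * δ * r / 8))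
        ≤ C * (δ * r / 2) * (Real.exp (-(3 / 2 * κ * r)) + Real.exp (-(3 / 2 * κ * r))) := by
          gcongr
      _ = C * (δ * r) * Real.exp (-(3 / 2 * κ * r)) := by ring
      _ ≤ Real.exp (κ / 2 * r) * Real.exp (-(3 / 2 * κ * r)) := by gcongr
      _ = Real.exp (-(κ * r)) := by
          rw [← Real.exp_add]
          congr 1
          ring
  have h5 : ‖f z‖ ≤ Real.exp ((l * z).re) * Real.exp (-(κ * r)) := by
    rw [norm_mul, Complex.norm_exp, Complex.neg_re, Real.exp_neg, inv_mul_le_iff₀ (Real.exp_pos _)]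
      at h4
    exact h4
  have h6 : (l * z).re ≤ r * H u + ‖l‖ * (δ' * r) := by
    have h3 : (l * z).re = (l * (r * u)).re + (l * (z - r * u)).re := by
      rw [← Complex.add_re]
      congr 1
      ring
    have h4 : (l * (r * u)).re = r * H u := by
      rw [← hlu, ← mul_assoc, mul_comm l, mul_assoc, Complex.re_ofReal_mul]
    have h5 : (l * (z - r * u)).re ≤ ‖l‖ * (δ' * r) := by
      refine (Complex.re_le_norm _).trans ?_
      rw [norm_mul]
      gcongr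
    linarith
  rw [← Real.exp_add] at h5
  have h7 := Real.exp_le_exp.1 (hz2.trans h5)
  have h8 : ‖l‖ * δ' * r ≤ κ / 4 * r := by gcongr
  nlinarith [mul_pos hκ hr0]

end Pool.Agent.Work.MP_8d04b0_an
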