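import Mathlib
import Pool.Agent.Work.MP_8d04b0_an.Circles
import Pool.Agent.Work.MP_8d04b0_an.GoodDir

set_option autoImplicit false

open Metric Set Filter Topology

namespace Pool.Agent.Work.MP_8d04b0_an

lemma re_mul_le (l w : ℂ) : (l * w).re ≤ ‖l‖ * ‖w‖ := by
  refine (Complex.re_le_norm _).trans ?_
  rw [norm_mul]

lemma neg_le_re_mul (l w : ℂ) : -(‖l‖ * ‖w‖) ≤ (l * w).re := by
  have h6 := Complex.abs_re_le_norm (l * w)
  have h7 := neg_abs_le (l * w).re
  rw [norm_mul] at h6
  linarith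

lemma re_mul_ofReal_mul (l u : ℂ) (r : ℝ) : (l * (r * u)).re = r * (l * u).re := by
  rw [← mul_assoc, mul_comm l, mul_assoc, Complex.re_ofReal_mul]

lemma re_mul_scale (l u w : ℂ) (r : ℝ) :
    (l * w).re = r * (l * u).re + (l * (w - r * u)).re := by
  have h1 : (l * (r * u)).re = r * (l * u).re := by
    rw [← mul_assoc, mul_comm l, mul_assoc, Complex.re_ofReal_mul]
  rw [← h1, ← Complex.add_re]
  congr 1
  ring

/-- A positive solution of finitely many smallness constraints. -/
lemma exists_small_mul {x y : ℝ} (hx : 0 ≤ x) (hy : 0 < y) : ∃ δ : ℝ, 0 < δ ∧ x * δ ≤ y := by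
  refine ⟨y / (x + 1), by positivity, ?_⟩
  calc x * (y / (x + 1)) ≤ (x + 1) * (y / (x + 1)) := by
        gcongr
        linarith
    _ = y := by field_simp

lemma norm_exp_neg_mul (l w x : ℂ) :
    ‖Complex.exp (-(l * w)) * x‖ = Real.exp (-(l * w).re) * ‖x‖ := by
  rw [norm_mul, Complex.norm_exp, Complex.neg_re]

theorem hopf {H : ℂ → ℝ} (hH : Subl H) {F : ℂ → ℂ} (hF : Differentiable ℂ F) (hU : Upper F H)
    {u v l : ℂ} (huv : v ≠ u) (hdv : ‖v - u‖ < ‖v‖)
    (hK : ∀ w : ℂ, ‖w - v‖ ≤ ‖v - u‖ → H w = (l * w).re)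
    (hdiff : ∀ η : ℝ, 0 < η → ∃ δ : ℝ, 0 < δ ∧ ∀ ζ : ℂ, ‖ζ‖ ≤ δ →
      H (u + ζ) - (l * (u + ζ)).re ≤ η * ‖ζ‖)
    (hR : Reg F H u) : Reg F H v := by
  set d : ℝ := ‖v - u‖ with hd
  have hd0 : 0 < d := norm_pos_iff.2 (sub_ne_zero.2 huv)
  have hln : 0 ≤ ‖l‖ := norm_nonneg l
  have hv0 : 0 < ‖v‖ := hd0.trans hdv
  have hKv : H v = (l * v).re := hK v (by rw [sub_self, norm_zero]; exact hd0.le)
  have hKu : H u = (l * u).re := hK u (by rw [norm_sub_rev])
  intro ε0 hε0 δ0 hδ0
  -- δ₁
  obtain ⟨δ1, hδ1, hδ1a, hδ1b, hδ1c⟩ : ∃ δ1 : ℝ, 0 < δ1 ∧ δ1 ≤ δ0 ∧ ‖l‖ * δ1 ≤ ε0 / 2 ∧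
      δ1 ≤ d / 3 := by
    obtain ⟨x, hx, hx'⟩ := exists_small_mul hln (half_pos hε0)
    refine ⟨min (min δ0 x) (d / 3), by positivity, (min_le_left _ _).trans (min_le_left _ _), ?_,
      min_le_right _ _⟩
    refine le_trans ?_ hx'
    gcongr
    exact (min_le_left _ _).trans (min_le_right _ _)
  have hdδ : 3 ≤ d / δ1 := by
    rw [le_div_iff₀ hδ1]
    linarith
  have hlog1 : 1 ≤ Real.log (d / δ1) := by
    rw [Real.le_log_iff_exp_le (by positivity)]
    have := Real.exp_one_lt_d9
    linarith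
  set Lg : ℝ := Real.log (d / δ1) with hLg
  have hLg0 : 0 < Lg := by linarith
  set κ : ℝ := ε0 / (2 * d * Lg) with hκdef
  have hκ : 0 < κ := by positivity
  have hκd : κ * d * Lg = ε0 / 2 := by
    rw [hκdef]
    field_simp
  obtain ⟨δη, hδη, hδη'⟩ := hdiff (κ / 96) (by positivity)
  set m : ℝ := ‖v‖ - d with hm
  have hm0 : 0 < m := by linarith
  have hum : m ≤ ‖u‖ := by
    have : ‖v‖ ≤ ‖v - u‖ + ‖u‖ := norm_le_norm_sub_add v u
    linarith
  -- s
  obtain ⟨s, hs, hsa, hsb, hsc⟩ : ∃ s : ℝ, 0 < s ∧ 2 * s ≤ δη ∧ s ≤ d / 3 ∧ 4 * s ≤ m := by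
    refine ⟨min (min (δη / 2) (m / 4)) (d / 3), by positivity, ?_, min_le_right _ _, ?_⟩
    · have h1 := min_le_left (min (δη / 2) (m / 4)) (d / 3)
      have h2 := min_le_left (δη / 2) (m / 4)
      linarith
    · have h1 := min_le_left (min (δη / 2) (m / 4)) (d / 3)
      have h2 := min_le_right (δη / 2) (m / 4)
      linarith
  obtain ⟨s', hs', hs'a, hs'b⟩ : ∃ s' : ℝ, 0 < s' ∧ s' ≤ s / 4 ∧ ‖l‖ * s' ≤ κ * s / 128 := by
    obtain ⟨x, hx, hx'⟩ := exists_small_mul hln (show 0 < κ * s / 128 by positivity)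
    refine ⟨min (s / 4) x, by positivity, min_le_left _ _, ?_⟩
    refine le_trans ?_ hx'
    gcongr
    exact min_le_right _ _
  set Λ : ℝ := ‖u‖ + ‖v‖ + d + 2 * s with hΛ
  have hΛ0 : 0 < Λ := by positivity
  set ε1 : ℝ := κ * s / (64 * Λ) with hε1def
  have hε1 : 0 < ε1 := by positivity
  have hε1Λ : ε1 * Λ = κ * s / 64 := by
    rw [hε1def]
    field_simp
  obtain ⟨RU, hRU, hRU'⟩ := hU ε1 hε1
  obtain ⟨RR, hRR⟩ := hR (κ * s / 128) (by positivity) s' hs'
  refine ⟨max (max RR 1) (RU / (m / 2)), ?_⟩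
  intro r hr
  have hr1 : RR ≤ r := (le_max_left _ _).trans ((le_max_left _ _).trans hr)
  have hr2 : 1 ≤ r := (le_max_right _ _).trans ((le_max_left _ _).trans hr)
  have hr3 : RU ≤ r * (m / 2) := by
    have : RU / (m / 2) ≤ r := (le_max_right _ _).trans hr
    rwa [div_le_iff₀ (by positivity)] at this
  have hr0 : 0 < r := by linarith
  have hrc : (r : ℂ) ≠ 0 := by exact_mod_cast hr0.ne'
  have hnorm : ∀ x : ℂ, ‖(r : ℂ) * x‖ = r * ‖x‖ := by
    intro x
    rw [norm_mul, Complex.norm_real, Real.norm_of_nonneg hr0.le]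
  by_contra hcon
  push Not at hcon
  obtain ⟨z1, hz1, hz1'⟩ := hRR r hr1
  set G : ℂ → ℂ := fun w => Complex.exp (-(l * w)) * F w with hGdef
  have hG : Differentiable ℂ G := by rw [hGdef]; fun_prop
  have hGn : ∀ w, ‖G w‖ = Real.exp (-(l * w).re) * ‖F w‖ := fun w => norm_exp_neg_mul l w _
  -- general upper bound
  have hup : ∀ w : ℂ, r * (m / 2) ≤ ‖w‖ → ‖w‖ ≤ Λ * r →
      ‖G w‖ ≤ Real.exp (H w - (l * w).re + κ * s / 64 * r) := by
    intro w h1 h2
    rw [hGn]
    calc Real.exp (-(l * w).re) * ‖F w‖ ≤ Real.exp (-(l * w).re) * Real.exp (H w + ε1 * ‖w‖) := by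
          gcongr
          exact hRU' w (hr3.trans h1)
      _ = Real.exp (H w - (l * w).re + ε1 * ‖w‖) := by
          rw [← Real.exp_add]
          congr 1
          ring
      _ ≤ _ := by
          apply Real.exp_le_exp.2
          have : ε1 * ‖w‖ ≤ ε1 * (Λ * r) := by gcongr
          rw [← mul_assoc, hε1Λ] at this
          linarith
  -- the upper bound on the big ball around `r v`
  have hball : ∀ w : ℂ, ‖w - r * v‖ ≤ r * d → ‖G w‖ ≤ Real.exp (κ * s / 64 * r) := by
    intro w hw
    have h1 : r * (m / 2) ≤ ‖w‖ := by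
      have h2 := norm_sub_le w (w - r * v)
      rw [sub_sub_cancel, hnorm] at h2
      nlinarith
    have h2 : ‖w‖ ≤ Λ * r := by
      have h3 := norm_add_le (w - r * v) (r * v)
      rw [sub_add_cancel, hnorm] at h3
      have : 0 ≤ ‖u‖ * r := by positivity
      nlinarith
    have h3 := hup w h1 h2
    have h4 : H w = (l * w).re := by
      have h5 : w = (r : ℂ) * (w / r) := by field_simp
      have h6 : ‖w / r - v‖ ≤ d := by
        have : w / r - v = (w - r * v) / r := by field_simp
        rw [this, norm_div, Complex.norm_real, Real.norm_of_nonneg hr0.le, div_le_iff₀ hr0]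
        linarith
      have h7 := hK _ h6
      rw [h5, hH.smul r _ hr0.le, h7, re_mul_ofReal_mul]
    rw [h4, sub_self, zero_add] at h3
    exact h3
  have hsmall : ∀ w : ℂ, ‖w - r * v‖ ≤ δ1 * r → ‖G w‖ ≤ Real.exp (-(ε0 / 2 * r)) := by
    intro w hw
    have h1 := hcon w (hw.trans (by gcongr))
    rw [hGn]
    have h2 : r * (l * v).re - ‖l‖ * (δ1 * r) ≤ (l * w).re := by
      rw [re_mul_scale l v w r]
      have := neg_le_re_mul l (w - r * v)
      have h3 : ‖l‖ * ‖w - r * v‖ ≤ ‖l‖ * (δ1 * r) := by gcongr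
      linarith
    calc Real.exp (-(l * w).re) * ‖F w‖
        ≤ Real.exp (-(l * w).re) * Real.exp (r * (H v - ε0)) := by gcongr
      _ = Real.exp (-(l * w).re + r * (H v - ε0)) := by rw [← Real.exp_add]
      _ ≤ _ := by
          apply Real.exp_le_exp.2
          rw [hKv]
          have : ‖l‖ * δ1 * r ≤ ε0 / 2 * r := by gcongr
          linarith
  -- the decay bound in the ball
  have hdec : ∀ w : ℂ, ‖w - r * v‖ ≤ r * d →
      ‖G w‖ ≤ Real.exp (-(κ * (r * d - ‖w - r * v‖)) + κ * s / 64 * r) := by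
    intro w hw
    have hks : 0 ≤ κ * s / 64 * r := by positivity
    rcases le_total ‖w - r * v‖ (δ1 * r) with h | h
    · refine (hsmall w h).trans (Real.exp_le_exp.2 ?_)
      have h1 : κ * (r * d - ‖w - r * v‖) ≤ κ * (r * d) := by
        gcongr
        linarith [norm_nonneg (w - r * v)]
      have h2 : κ * (r * d) ≤ ε0 / 2 * r := by
        rw [← hκd]
        have : 0 ≤ κ * d * r := by positivity
        nlinarith
      linarith
    · have hδr : 0 < δ1 * r := by positivity
      have hlt : δ1 * r < r * d := by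
        have : δ1 * r < d * r := by
          apply mul_lt_mul_of_pos_right _ hr0
          linarith
        linarith
      have h1 := three_circles hG (c := r * v) (w := w) (t₁ := δ1 * r) (t₂ := r * d)
        (m₁ := -(ε0 / 2 * r)) (m₂ := κ * s / 64 * r) hδr hlt
        (fun x hx => hsmall x hx.le) (fun x hx => hball x hx.le) h hw
      refine h1.trans (Real.exp_le_exp.2 ?_)
      have hw0 : 0 < ‖w - r * v‖ := hδr.trans_le h
      have e1 : r * d / (δ1 * r) = d / δ1 := by field_simp
      rw [e1, ← hLg]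
      set θ : ℝ := Real.log (‖w - r * v‖ / (δ1 * r)) / Lg with hθ
      have hθ0 : 0 ≤ θ := by
        apply div_nonneg _ hLg0.le
        apply Real.log_nonneg
        rw [le_div_iff₀ hδr]
        linarith
      have hθ1 : (1 - θ) * Lg = Real.log (r * d / ‖w - r * v‖) := by
        rw [sub_mul, hθ, div_mul_cancel₀ _ hLg0.ne', one_mul, hLg, ← Real.log_div (by positivity)
          (by positivity)]
        congr 1
        field_simp
      have hθ2 : 1 - ‖w - r * v‖ / (r * d) ≤ Real.log (r * d / ‖w - r * v‖) := by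
        have := Real.one_sub_inv_le_log_of_pos (show 0 < r * d / ‖w - r * v‖ by positivity)
        rwa [inv_div] at this
      have hθ3 : 0 ≤ 1 - θ := by
        have h4 : 0 ≤ (1 - θ) * Lg := by
          rw [hθ1]
          apply Real.log_nonneg
          rw [le_div_iff₀ hw0]
          linarith
        exact nonneg_of_mul_nonneg_left h4 hLg0
      have h5 : κ * (r * d - ‖w - r * v‖) ≤ (1 - θ) * (ε0 / 2 * r) := by
        have h6 : r * d - ‖w - r * v‖ = (1 - ‖w - r * v‖ / (r * d)) * (r * d) := by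
          field_simp
        have h7 : (1 - θ) * (ε0 / 2 * r) = κ * (((1 - θ) * Lg) * (r * d)) := by
          rw [← hκd]
          ring
        rw [h6, h7, hθ1]
        gcongr
      have h8 : θ * (κ * s / 64 * r) ≤ κ * s / 64 * r := by
        have : θ ≤ 1 := by linarith
        nlinarith
      linarith
  -- the four point trick around `z1`
  have hfour := four_point hG (z := z1) (n := v - u) (ρ := s * r) (A := κ * s / 48 * r +
    κ * s / 64 * r) (B := -(κ * s / 4 * r) + κ * s / 64 * r) (by positivity)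
    (by
      intro ζ hζ
      have h1 : ‖z1 + ζ - r * u‖ ≤ 2 * s * r := by
        have h2 := norm_add_le (z1 - r * u) ζ
        have h3 : z1 + ζ - r * u = (z1 - r * u) + ζ := by ring
        rw [h3]
        have h4 : s' * r ≤ s / 4 * r := by gcongr
        have h5 : 0 ≤ s * r := by positivity
        linarith
      have h2 : ‖z1 + ζ‖ ≤ Λ * r := by
        have h3 := norm_add_le (z1 + ζ - r * u) (r * u)
        rw [sub_add_cancel, hnorm] at h3
        have h4 : 0 ≤ ‖v‖ * r := by positivity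
        have h5 : 0 ≤ d * r := by positivity
        have h6 : Λ * r = ‖u‖ * r + ‖v‖ * r + d * r + 2 * s * r := by rw [hΛ]; ring
        linarith
      have h3 : r * (m / 2) ≤ ‖z1 + ζ‖ := by
        have h4 := norm_sub_le (z1 + ζ) (z1 + ζ - r * u)
        rw [sub_sub_cancel, hnorm] at h4
        have h5 : r * m ≤ r * ‖u‖ := by gcongr
        have h6 : 2 * s * r ≤ m / 2 * r := by
          gcongr
          linarith
        linarith
      refine (hup _ h3 h2).trans (Real.exp_le_exp.2 ?_)
      have h4 : H (z1 + ζ) - (l * (z1 + ζ)).re ≤ κ / 96 * (2 * s * r) := by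
        set x : ℂ := (z1 + ζ) / r - u with hx
        have h5 : z1 + ζ = (r : ℂ) * (u + x) := by
          rw [hx]
          field_simp
          ring
        have h6 : ‖x‖ ≤ 2 * s := by
          have : x = (z1 + ζ - r * u) / r := by
            rw [hx]
            field_simp
          rw [this, norm_div, Complex.norm_real, Real.norm_of_nonneg hr0.le, div_le_iff₀ hr0]
          linarith
        have h7 := hδη' x (h6.trans hsa)
        have h8 : (l * (z1 + ζ)).re = r * (l * (u + x)).re := by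
          rw [h5, ← mul_assoc, mul_comm l, mul_assoc, Complex.re_ofReal_mul]
        rw [h8, h5, hH.smul r _ hr0.le, ← mul_sub]
        have h9 : κ / 96 * ‖x‖ ≤ κ / 96 * (2 * s) := by gcongr
        calc r * (H (u + x) - (l * (u + x)).re) ≤ r * (κ / 96 * (2 * s)) := by
              gcongr
              linarith
          _ = _ := by ring
      linarith)
    (by
      intro ζ hζ hζ'
      have hsq : ‖r * u + ζ - r * v‖ ≤ r * (d - s / 2) := by
        set n : ℂ := v - u with hn
        have h1 : ‖r * u + ζ - r * v‖ ^ 2 = (s * r) ^ 2 - 2 * r * (ζ * (starRingEnd ℂ) n).re +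
            r ^ 2 * d ^ 2 := by
          have h2 : r * u + ζ - r * v = ζ - r * n := by rw [hn]; ring
          rw [h2, ← Complex.normSq_eq_norm_sq, Complex.normSq_sub, Complex.normSq_eq_norm_sq,
            Complex.normSq_eq_norm_sq, hnorm, hζ]
          have h3 : (ζ * (starRingEnd ℂ) (r * n)).re = r * (ζ * (starRingEnd ℂ) n).re := by
            rw [map_mul, Complex.conj_ofReal, ← mul_assoc, mul_comm ζ, mul_assoc,
              Complex.re_ofReal_mul]
          rw [h3, mul_pow]
          ring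
        have hs2 : √2 * √2 = 2 := Real.mul_self_sqrt (by norm_num)
        have hs4 : √2 ≤ 3 / 2 := by
          rw [Real.sqrt_le_left (by norm_num)]
          norm_num
        have hs5 : 4 / 3 ≤ √2 := by
          apply Real.le_sqrt_of_sq_le
          norm_num
        have h4 : s * r * d * √2 ≤ 2 * (ζ * (starRingEnd ℂ) n).re := by
          have h5 : s * r * d * √2 ≤ (2 * (ζ * (starRingEnd ℂ) n).re * (√2 / 2)) * √2 := by
            gcongr
          calc s * r * d * √2 ≤ (2 * (ζ * (starRingEnd ℂ) n).re * (√2 / 2)) * √2 := h5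
            _ = (ζ * (starRingEnd ℂ) n).re * (√2 * √2) := by ring
            _ = _ := by rw [hs2]; ring
        have h6 : s * r * d * (4 / 3) ≤ 2 * (ζ * (starRingEnd ℂ) n).re := by
          refine le_trans ?_ h4
          gcongr
        have h7 : 0 ≤ r * (d - s / 2) := by
          apply mul_nonneg hr0.le
          linarith
        refine le_of_sq_le_sq ?_ h7
        rw [h1]
        have h8 : r * (s * r * d * (4 / 3)) ≤ r * (2 * (ζ * (starRingEnd ℂ) n).re) := by gcongr
        have h9 : r ^ 2 * (s * s) ≤ r ^ 2 * (s * (d / 3)) := by gcongr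
        nlinarith [mul_pos hr0 hs]
      have h1 : ‖z1 + ζ - r * v‖ ≤ r * (d - s / 4) := by
        have h2 : z1 + ζ - r * v = (z1 - r * u) + (r * u + ζ - r * v) := by ring
        rw [h2]
        have h3 := norm_add_le (z1 - r * u) (r * u + ζ - r * v)
        have h4 : s' * r ≤ s / 4 * r := by gcongr
        linarith
      have h2 : ‖z1 + ζ - r * v‖ ≤ r * d := by
        refine h1.trans ?_
        gcongr
        linarith
      refine (hdec _ h2).trans (Real.exp_le_exp.2 ?_)
      have h3 : κ * (r * (s / 4)) ≤ κ * (r * d - ‖z1 + ζ - r * v‖) := by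
        gcongr
        linarith
      linarith)
  have hG1 : Real.exp (-(3 * (κ * s / 128) * r)) < ‖G z1‖ := by
    rw [hGn]
    have h1 : (l * z1).re ≤ r * (l * u).re + ‖l‖ * (s' * r) := by
      rw [re_mul_scale l u z1 r]
      have := re_mul_le l (z1 - r * u)
      have h3 : ‖l‖ * ‖z1 - r * u‖ ≤ ‖l‖ * (s' * r) := by gcongr
      linarith
    calc Real.exp (-(3 * (κ * s / 128) * r))
        < Real.exp (-(l * z1).re + r * (H u - κ * s / 128)) := by
          apply Real.exp_lt_exp.2
          rw [hKu]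
          have h4 : ‖l‖ * s' * r ≤ κ * s / 128 * r := by gcongr
          have h5 : 0 < κ * s / 128 * r := by positivity
          linarith
      _ = Real.exp (-(l * z1).re) * Real.exp (r * (H u - κ * s / 128)) := by rw [← Real.exp_add]
      _ ≤ _ := by gcongr
  have h1 : Real.exp (-(3 * (κ * s / 128) * r)) ^ 4 < ‖G z1‖ ^ 4 := by gcongr
  have h2 := h1.trans_le hfour
  rw [← Real.exp_nat_mul, Real.exp_lt_exp] at h2
  have h5 : 0 < κ * s * r := by positivity
  push_cast at h2
  linarith

end Pool.Agent.Work.MP_8d04b0_an
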