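import Mathlib
import Pool.Agent.Work.MP_8d04b0_an.Cov
import Pool.Agent.Work.MP_8d04b0_an.Cartan
import Pool.Agent.Work.MP_8d04b0_an.Hopf

set_option autoImplicit false

open Metric Set Filter Topology

namespace Pool.Agent.Work.MP_8d04b0_an

lemma ball_lower {F : ℂ → ℂ} (hF : Differentiable ℂ F) {z1 : ℂ} {ρ U κ η : ℝ} (hρ : 0 < ρ)
    (hκ : 0 < κ) (hη : 0 < η) (hη1 : η ≤ 1)
    (hup : ∀ z, ‖z - z1‖ ≤ 6 * ρ → ‖F z‖ ≤ Real.exp U) (hlow : Real.exp (U - κ) ≤ ‖F z1‖) :
    Cov {z | ‖z - z1‖ ≤ 3 / 2 * ρ ∧ ‖F z‖ < Real.exp (U - κ * (15 + 2 * Real.log (1 / η)))}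
      (closedBall z1 (3 / 2 * ρ)) (η * ρ) := by
  obtain ⟨m, w, Q, hQ, hw, hFQ, hQne, hm, hQup, hQlow⟩ := factor_zeros hF hρ hup hlow
  have hh : 0 < η * ρ / 4 := by positivity
  refine (cartan m w hh (closedBall z1 (3 / 2 * ρ))).mono ?_ subset_rfl (le_of_eq (by ring))
  rintro z ⟨hz1, hz2⟩
  refine ⟨by rwa [mem_closedBall, dist_eq_norm], ?_⟩
  by_contra hcon
  push Not at hcon
  have h1 := zero_free_lower hQ hρ hκ
    (fun x hx => hQne x (by rw [mem_ball, dist_eq_norm] at hx; exact hx.le))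
    (fun x hx => hQup x (by
      rw [mem_ball, dist_eq_norm] at hx
      linarith)) hQlow hz1
  have h2 : Real.exp (U - κ * (15 + 2 * Real.log (1 / η))) ≤ ‖F z‖ := by
    rw [hFQ z, norm_mul, norm_prod]
    have h3 : (η * ρ / 4 / Real.exp 1) ^ m * Real.exp (U - m * Real.log (4 * ρ) - 7 * κ) ≤
        (∏ i, ‖z - w i‖) * ‖Q z‖ := by gcongr
    refine le_trans ?_ h3
    have h4 : (η * ρ / 4 / Real.exp 1) ^ m =
        Real.exp (m * (Real.log (4 * ρ) - Real.log 16 - 1 - Real.log (1 / η))) := by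
      rw [Real.exp_nat_mul]
      congr 1
      rw [Real.exp_sub, Real.exp_sub, Real.exp_sub, Real.exp_log (by positivity),
        Real.exp_log (by norm_num), Real.exp_log (by positivity)]
      field_simp
      ring
    rw [h4, ← Real.exp_add, Real.exp_le_exp]
    have hlog2 : 1 / 2 ≤ Real.log 2 := by
      have := Real.log_two_gt_d9
      linarith
    have hlog16 : Real.log 16 ≤ 3 := by
      have h5 : Real.log 16 = 4 * Real.log 2 := by
        rw [show (16 : ℝ) = 2 ^ 4 by norm_num, Real.log_pow]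
        push_cast
        ring
      have := Real.log_two_lt_d9
      rw [h5]
      linarith
    have hlogη : 0 ≤ Real.log (1 / η) := by
      apply Real.log_nonneg
      rw [le_div_iff₀ hη]
      linarith
    have hm0 : (0 : ℝ) ≤ m := Nat.cast_nonneg m
    have hm2 : (m : ℝ) ≤ 2 * κ := by nlinarith
    have h6 : (m : ℝ) * (Real.log 16 + 1 + Real.log (1 / η)) ≤
        2 * κ * (4 + Real.log (1 / η)) := by
      gcongr
      linarith
    linarith
  linarith

end Pool.Agent.Work.MP_8d04b0_an
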