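import Mathlib
import Pool.Agent.Work.MP_8d04b0_an.BallLower

set_option autoImplicit false

open Metric Set Filter Topology

namespace Pool.Agent.Work.MP_8d04b0_an

/-- Grid points. -/
noncomputable def gpt (K : ℕ) (i : ℤ × ℤ) : ℂ := ((i.1 / K : ℝ) : ℂ) + ((i.2 / K : ℝ) : ℂ) * Complex.I

lemma exists_gpt {K : ℕ} (hK : 0 < K) {z : ℂ} (hz : ‖z‖ ≤ 2) :
    ∃ i ∈ (Finset.Icc (-(2 * K : ℤ)) (2 * K)) ×ˢ (Finset.Icc (-(2 * K : ℤ)) (2 * K)),
      ‖z - gpt K i‖ ≤ 2 * (1 / K) := by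
  have hK' : (0 : ℝ) < K := by exact_mod_cast hK
  have key : ∀ x : ℝ, |x| ≤ 2 → ⌊x * K⌋ ∈ Finset.Icc (-(2 * K : ℤ)) (2 * K) ∧
      |x - (⌊x * K⌋ : ℤ) / K| ≤ 1 / K := by
    intro x hx
    rw [abs_le] at hx
    have h1 := Int.floor_le (x * K)
    have h2 := Int.lt_floor_add_one (x * K)
    refine ⟨Finset.mem_Icc.2 ⟨?_, ?_⟩, ?_⟩
    · apply Int.le_floor.2
      push_cast
      nlinarith
    · have h3 : ((⌊x * K⌋ : ℤ) : ℝ) ≤ (2 * K : ℤ) := by
        push_cast
        nlinarith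
      exact_mod_cast h3
    · have h3 : x - (⌊x * K⌋ : ℤ) / K = (x * K - ⌊x * K⌋) / K := by field_simp
      rw [h3, abs_div, abs_of_pos hK', abs_of_nonneg (by linarith)]
      gcongr
      linarith
  obtain ⟨m1, e1⟩ := key z.re ((Complex.abs_re_le_norm z).trans hz)
  obtain ⟨m2, e2⟩ := key z.im ((Complex.abs_im_le_norm z).trans hz)
  refine ⟨(⌊z.re * K⌋, ⌊z.im * K⌋), Finset.mem_product.2 ⟨m1, m2⟩, ?_⟩
  refine (Complex.norm_le_abs_re_add_abs_im _).trans ?_
  have h3 : (z - gpt K (⌊z.re * K⌋, ⌊z.im * K⌋)).re = z.re - (⌊z.re * K⌋ : ℤ) / K := by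
    simp [gpt]
  have h4 : (z - gpt K (⌊z.re * K⌋, ⌊z.im * K⌋)).im = z.im - (⌊z.im * K⌋ : ℤ) / K := by
    simp [gpt]
  rw [h3, h4]
  linarith

lemma norm_gpt_le {K : ℕ} (hK : 0 < K) {i : ℤ × ℤ}
    (hi : i ∈ (Finset.Icc (-(2 * K : ℤ)) (2 * K)) ×ˢ (Finset.Icc (-(2 * K : ℤ)) (2 * K))) :
    ‖gpt K i‖ ≤ 3 := by
  have hK' : (0 : ℝ) < K := by exact_mod_cast hK
  rw [Finset.mem_product, Finset.mem_Icc, Finset.mem_Icc] at hi
  have key : ∀ a : ℤ, -(2 * K : ℤ) ≤ a → a ≤ 2 * K → ((a : ℝ) / K) ^ 2 ≤ 4 := by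
    intro a h1 h2
    have h1' : -(2 * K : ℝ) ≤ a := by exact_mod_cast h1
    have h2' : (a : ℝ) ≤ 2 * K := by exact_mod_cast h2
    rw [div_pow, div_le_iff₀ (by positivity)]
    nlinarith
  have e1 := key i.1 hi.1.1 hi.1.2
  have e2 := key i.2 hi.2.1 hi.2.2
  refine le_of_sq_le_sq ?_ (by norm_num)
  rw [← Complex.normSq_eq_norm_sq, Complex.normSq_apply]
  simp only [gpt, Complex.add_re, Complex.ofReal_re, Complex.mul_re, Complex.I_re, mul_zero,
    Complex.ofReal_im, Complex.I_im, mul_one, sub_self, add_zero, Complex.add_im, Complex.mul_im,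
    zero_add]
  nlinarith

lemma card_grid (K : ℕ) :
    ((Finset.Icc (-(2 * K : ℤ)) (2 * K)) ×ˢ (Finset.Icc (-(2 * K : ℤ)) (2 * K))).card =
      (4 * K + 1) ^ 2 := by
  rw [Finset.card_product, Int.card_Icc]
  have : (2 * (K : ℤ) + 1 - -(2 * K)).toNat = 4 * K + 1 := by omega
  rw [this]
  ring

theorem annulus {F : ℂ → ℂ} {H : ℂ → ℝ} (hH : Subl H) (hF : Differentiable ℂ F) (hU : Upper F H)
    (hR : ∀ u : ℂ, u ≠ 0 → Reg F H u) {ε : ℝ} (hε : 0 < ε) :
    ∃ R0 : ℝ, 0 < R0 ∧ ∀ R : ℝ, R0 ≤ R →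
      Cov {z | R ≤ ‖z‖ ∧ ‖z‖ ≤ 2 * R ∧ ‖F z‖ < Real.exp (H z - ε * R)} {z | R / 4 ≤ ‖z‖}
        (ε * R) := by
  classical
  obtain ⟨L, hL, hb, hlip⟩ := hH.exists_lipschitz
  -- the mesh
  obtain ⟨N, hN⟩ := exists_nat_gt (max (max 60 (50 / ε)) ((2 * L + (13 * L + 5) * 23) / ε))
  have hN1 : (60 : ℝ) < N := ((le_max_left _ _).trans (le_max_left _ _)).trans_lt hN
  have hN2 : 50 / ε < N := ((le_max_right _ _).trans (le_max_left _ _)).trans_lt hN
  have hN3 : (2 * L + (13 * L + 5) * 23) / ε < N := (le_max_right _ _).trans_lt hN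
  rw [div_lt_iff₀ hε] at hN2 hN3
  have hN0 : (0 : ℝ) < N := by linarith
  set K : ℕ := N ^ 2 with hKdef
  have hKN : (K : ℝ) = (N : ℝ) ^ 2 := by rw [hKdef]; push_cast; ring
  have hK0 : (0 : ℝ) < K := by rw [hKN]; positivity
  have hKpos : 0 < K := by exact_mod_cast hK0
  set δ : ℝ := 1 / K with hδdef
  have hδ : 0 < δ := by positivity
  have hδK : δ * K = 1 := by rw [hδdef]; field_simp
  have hδN : δ * N ^ 2 = 1 := by rw [← hKN]; exact hδK
  have hδN' : δ * N = 1 / N := by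
    rw [eq_div_iff hN0.ne']
    linarith
  have hδ60 : δ ≤ 1 / 60 := by
    rw [hδdef]
    apply one_div_le_one_div_of_le (by norm_num)
    rw [hKN]
    nlinarith
  -- the smallness of the error
  have herr : δ * (2 * L) + δ * (13 * L + 5) * (15 + 2 * Real.log (1 / δ ^ 2)) ≤ ε := by
    have h1 : Real.log (1 / δ ^ 2) ≤ 4 * N := by
      have h2 : 1 / δ ^ 2 = (N : ℝ) ^ 4 := by
        rw [hδdef, hKN]
        field_simp
      rw [h2, Real.log_pow]
      have := Real.log_le_sub_one_of_pos hN0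
      push_cast
      linarith
    have h3 : δ * (2 * L) + δ * (13 * L + 5) * (15 + 2 * Real.log (1 / δ ^ 2)) ≤
        δ * (2 * L) + δ * (13 * L + 5) * (15 + 2 * (4 * N)) := by gcongr
    refine h3.trans ?_
    have h4 : δ * (2 * L) + δ * (13 * L + 5) * (15 + 2 * (4 * N)) ≤
        δ * N * (2 * L + (13 * L + 5) * 23) := by
      have h5 : 0 ≤ δ * L * (N - 1) := by
        have : 0 ≤ (N : ℝ) - 1 := by linarith
        positivity
      have h6 : 0 ≤ δ * (13 * L + 5) * (15 * (N - 1)) := by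
        have : 0 ≤ (N : ℝ) - 1 := by linarith
        positivity
      linarith
    refine h4.trans ?_
    rw [hδN', one_div, inv_mul_le_iff₀ hN0]
    linarith
  set S := ((Finset.Icc (-(2 * K : ℤ)) (2 * K)) ×ˢ (Finset.Icc (-(2 * K : ℤ)) (2 * K))).filter
    (fun i => 1 / 2 ≤ ‖gpt K i‖) with hS
  obtain ⟨RU, hRU, hRU'⟩ := hU δ hδ
  have hRp : ∀ i : ℤ × ℤ, ∃ R : ℝ, i ∈ S → ∀ r : ℝ, R ≤ r → ∃ z : ℂ,
      ‖z - r * gpt K i‖ ≤ δ * r ∧ Real.exp (r * (H (gpt K i) - δ)) ≤ ‖F z‖ := by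
    intro i
    by_cases hi : i ∈ S
    · have h1 : gpt K i ≠ 0 := by
        intro h0
        have := (Finset.mem_filter.1 hi).2
        rw [h0, norm_zero] at this
        norm_num at this
      obtain ⟨R, hR'⟩ := hR _ h1 δ hδ δ hδ
      exact ⟨R, fun _ => hR'⟩
    · exact ⟨0, fun h => absurd h hi⟩
  choose Rp hRp using hRp
  refine ⟨max (max 1 (4 * RU)) (∑ i ∈ S, |Rp i|), by positivity, fun R hRR => ?_⟩
  have hR1 : 1 ≤ R := (le_max_left _ _).trans ((le_max_left _ _).trans hRR)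
  have hR2 : 4 * RU ≤ R := (le_max_right _ _).trans ((le_max_left _ _).trans hRR)
  have hR3 : ∀ i ∈ S, Rp i ≤ R := by
    intro i hi
    have h1 := Finset.single_le_sum (f := fun i => |Rp i|) (fun j _ => abs_nonneg _) hi
    exact (le_abs_self _).trans (h1.trans ((le_max_right _ _).trans hRR))
  have hR0 : 0 < R := by linarith
  -- the cover
  have hcov : ∀ i ∈ S, Cov {z | ‖z - R * gpt K i‖ ≤ 2 * δ * R ∧
      ‖F z‖ < Real.exp (H z - ε * R)} {z | R / 4 ≤ ‖z‖} (2 * δ ^ 3 * R) := by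
    intro i hi
    have hi1 := (Finset.mem_filter.1 hi).2
    have hi2 := norm_gpt_le hKpos (Finset.mem_filter.1 hi).1
    obtain ⟨z1, hz1, hz1'⟩ := hRp i hi R (hR3 i hi)
    set p := gpt K i with hp
    have hRpn : ‖(R : ℂ) * p‖ = R * ‖p‖ := by
      rw [norm_mul, Complex.norm_real, Real.norm_of_nonneg hR0.le]
    have hδR : δ * R ≤ 1 / 60 * R := by gcongr
    have hδR0 : 0 < δ * R := by positivity
    have hHp : H (R * p) = R * H p := hH.smul R p hR0.le
    have hlow : ∀ z : ℂ, ‖z - R * p‖ ≤ 15 * δ * R → R / 4 ≤ ‖z‖ := by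
      intro z hz
      have h1 := norm_sub_norm_le (R * p) z
      rw [hRpn, norm_sub_rev] at h1
      have h2 : R * (1 / 2) ≤ R * ‖p‖ := by gcongr
      linarith
    have hup : ∀ z : ℂ, ‖z - z1‖ ≤ 6 * (2 * δ * R) →
        ‖F z‖ ≤ Real.exp (R * (H p + δ * (13 * L + 4))) := by
      intro z hz
      have h1 : ‖z - R * p‖ ≤ 13 * δ * R := by
        have := norm_sub_le_norm_sub_add_norm_sub z z1 (R * p)
        linarith
      have h2 : R / 4 ≤ ‖z‖ := hlow z (by linarith)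
      have h3 : ‖z‖ ≤ 4 * R := by
        have := norm_add_le (z - R * p) (R * p)
        rw [sub_add_cancel, hRpn] at this
        have h4 : R * ‖p‖ ≤ R * 3 := by gcongr
        linarith
      refine (hRU' z (by linarith)).trans (Real.exp_le_exp.2 ?_)
      have h4 := hlip z (R * p)
      rw [hHp] at h4
      have h5 : L * ‖z - R * p‖ ≤ L * (13 * δ * R) := by gcongr
      have h6 : δ * ‖z‖ ≤ δ * (4 * R) := by gcongr
      linarith
    have hlo : Real.exp (R * (H p + δ * (13 * L + 4)) - R * (δ * (13 * L + 5))) ≤ ‖F z1‖ := by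
      refine le_trans (le_of_eq ?_) hz1'
      congr 1
      ring
    have key := ball_lower hF (z1 := z1) (ρ := 2 * δ * R) (U := R * (H p + δ * (13 * L + 4)))
      (κ := R * (δ * (13 * L + 5))) (η := δ ^ 2) (by positivity) (by positivity) (by positivity)
      (by nlinarith) hup hlo
    refine key.mono ?_ ?_ (le_of_eq (by ring))
    · rintro z ⟨h1, h2⟩
      refine ⟨?_, h2.trans_le (Real.exp_le_exp.2 ?_)⟩
      · have := norm_sub_le_norm_sub_add_norm_sub z (R * p) z1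
        rw [norm_sub_rev z1] at hz1
        linarith
      · have h4 := hlip z (R * p)
        rw [hHp] at h4
        have h5 : L * ‖z - R * p‖ ≤ L * (2 * δ * R) := by gcongr
        have h6 : (δ * (2 * L) + δ * (13 * L + 5) * (15 + 2 * Real.log (1 / δ ^ 2))) * R ≤
            ε * R := by gcongr
        have h7 : 0 ≤ R * (δ * (13 * L + 4)) := by positivity
        linarith
    · intro z hz
      rw [mem_closedBall, dist_eq_norm] at hz
      apply hlow
      have := norm_sub_le_norm_sub_add_norm_sub z z1 (R * p)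
      linarith
  refine (Cov.biUnion S hcov).mono ?_ subset_rfl ?_
  · rintro z ⟨h1, h2, h3⟩
    have hRc : (R : ℂ) ≠ 0 := by exact_mod_cast hR0.ne'
    have hzR : ‖z / R‖ ≤ 2 := by
      rw [norm_div, Complex.norm_real, Real.norm_of_nonneg hR0.le, div_le_iff₀ hR0]
      exact h2
    obtain ⟨i, hi, hi'⟩ := exists_gpt hKpos hzR
    have h4 : ‖z - R * gpt K i‖ ≤ 2 * δ * R := by
      have h5 : z - R * gpt K i = (R : ℂ) * (z / R - gpt K i) := by field_simp
      rw [h5, norm_mul, Complex.norm_real, Real.norm_of_nonneg hR0.le, hδdef]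
      calc R * ‖z / R - gpt K i‖ ≤ R * (2 * (1 / K)) := by gcongr
        _ = _ := by ring
    rw [mem_iUnion₂]
    refine ⟨i, Finset.mem_filter.2 ⟨hi, ?_⟩, h4, h3⟩
    have h5 : 1 ≤ ‖z / R‖ := by
      rw [norm_div, Complex.norm_real, Real.norm_of_nonneg hR0.le, le_div_iff₀ hR0]
      linarith
    have h6 := norm_sub_norm_le (z / R) (gpt K i)
    linarith
  · have hcard : (S.card : ℝ) ≤ (5 * K) ^ 2 := by
      have h1 : S.card ≤ (4 * K + 1) ^ 2 := by
        rw [← card_grid]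
        exact Finset.card_filter_le _ _
      have h2 : (S.card : ℝ) ≤ ((4 * K + 1) ^ 2 : ℕ) := by exact_mod_cast h1
      refine h2.trans ?_
      push_cast
      have h3 : (1 : ℝ) ≤ K := by exact_mod_cast hKpos
      gcongr
      linarith
    calc (S.card : ℝ) * (2 * δ ^ 3 * R) ≤ (5 * K) ^ 2 * (2 * δ ^ 3 * R) := by gcongr
      _ = 50 * (δ * K) ^ 2 * δ * R := by ring
      _ = 50 * δ * R := by rw [hδK]; ring
      _ ≤ ε * R := by
          gcongr
          have h1 : δ ≤ δ * N := by nlinarith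
          rw [hδN'] at h1
          have h2 : 50 * δ ≤ 50 * (1 / N) := by gcongr
          refine h2.trans ?_
          rw [mul_one_div, div_le_iff₀ hN0]
          linarith

end Pool.Agent.Work.MP_8d04b0_an
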