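import Mathlib

set_option autoImplicit false

open Filter Topology

namespace Pool.Agent.Work.MP_8d04b0_an

/-- `f` is an entire function of exponential type. -/
def ExpType (f : ℂ → ℂ) : Prop :=
  Differentiable ℂ f ∧ ∃ A B : ℝ, ∀ z : ℂ, ‖f z‖ ≤ A * Real.exp (B * ‖z‖)

/-- The indicator `h_f(θ) = limsup_{r → ∞} (log |f (r e^{iθ})|) / r`, an extended real number. -/
noncomputable def indicator (f : ℂ → ℂ) (θ : ℝ) : EReal :=
  limsup (fun r : ℝ => ENNReal.log ‖f (r * Complex.exp (θ * Complex.I))‖ₑ / (r : EReal)) atTop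

/-- Completely regular growth (Levin, Pfluger; order one).  The exceptional set is
`⋃ j, {z | |z - c j| < ρ j}`. -/
def CRG (f : ℂ → ℂ) : Prop :=
  ExpType f ∧ (∃ z, f z ≠ 0) ∧ ∃ h : ℝ → ℝ, (∀ θ, indicator f θ = (h θ : EReal)) ∧
    ∃ (c : ℕ → ℂ) (ρ : ℕ → ℝ), (∀ j, 0 ≤ ρ j) ∧
      Tendsto (fun R : ℝ => (∑' j, if ‖c j‖ < R then ENNReal.ofReal (ρ j) else 0) /
        ENNReal.ofReal R) atTop (𝓝 0) ∧
      ∀ ε : ℝ, 0 < ε → ∃ R : ℝ, ∀ r θ : ℝ, R < r →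
        (∀ j, (r * Complex.exp (θ * Complex.I) : ℂ) ∉ Metric.ball (c j) (ρ j)) →
          f (r * Complex.exp (θ * Complex.I)) ≠ 0 ∧
            |Real.log ‖f (r * Complex.exp (θ * Complex.I))‖ / r - h θ| < ε

/-- The Borel transform `∑ n! aₙ w^{-n-1}` of `f = ∑ aₙ zⁿ`; here `n! aₙ = f⁽ⁿ⁾(0)`. -/
noncomputable def borel (f : ℂ → ℂ) (w : ℂ) : ℂ :=
  ∑' n : ℕ, iteratedDeriv n f 0 / w ^ (n + 1)

/-- The Borel transform continues analytically to the complement of `K`. -/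
def ContinuesOutside (f : ℂ → ℂ) (K : Set ℂ) : Prop :=
  ∃ g : ℂ → ℂ, DifferentiableOn ℂ g Kᶜ ∧ ∃ R : ℝ, ∀ w : ℂ, w ∉ K → R < ‖w‖ → g w = borel f w

/-- The conjugate diagram: the smallest closed convex set outside of which the Borel transform
continues analytically. -/
def conjDiagram (f : ℂ → ℂ) : Set ℂ :=
  ⋂₀ {K : Set ℂ | IsClosed K ∧ Convex ℝ K ∧ ContinuesOutside f K}

/-- A corner of a plane convex set `D`: a common endpoint of two non-collinear line segments lying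
on the boundary of `D`; if `D` itself is a non-degenerate segment, its two endpoints. -/
def IsCorner (D : Set ℂ) (l : ℂ) : Prop :=
  (∃ μ ν : ℂ, segment ℝ l μ ⊆ frontier D ∧ segment ℝ l ν ⊆ frontier D ∧
    ¬ Collinear ℝ ({l, μ, ν} : Set ℂ)) ∨ (∃ μ : ℂ, μ ≠ l ∧ D = segment ℝ l μ)

/-- The operator `φ(D) f = ∑ cₖ f⁽ᵏ⁾` for `φ = ∑ cₖ zᵏ`; here `cₖ = φ⁽ᵏ⁾(0) / k!`. -/
noncomputable def opD (φ f : ℂ → ℂ) (z : ℂ) : ℂ :=
  ∑' k : ℕ, iteratedDeriv k φ 0 / (k.factorial : ℂ) * iteratedDeriv k f z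

end Pool.Agent.Work.MP_8d04b0_an
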