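import Mathlib
import Pool.Agent.Work.MP_8d04b0_an.Conj
import Pool.Agent.Work.MP_8d04b0_an.Defs

set_option autoImplicit false

open Metric Set Filter Topology

namespace Pool.Agent.Work.MP_8d04b0_an

/-- Taylor data of `exp (-l z) f z` at the origin. -/
noncomputable def shB (a : ℕ → ℂ) (l : ℂ) (n : ℕ) : ℂ :=
  ∑ p ∈ Finset.HasAntidiagonal.antidiagonal n, (n.choose p.1 : ℂ) * (-l) ^ p.1 * a p.2

lemma shB_eq {f : ℂ → ℂ} (hf : Differentiable ℂ f) (l : ℂ) (n : ℕ) :
    iteratedDeriv n (fun w => Complex.exp (-(l * w)) * f w) 0 =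
      shB (fun k => iteratedDeriv k f 0) l n := by
  have h := iteratedDeriv_exp_mul hf (-l) 0 n
  simp only [neg_mul, mul_zero, Complex.exp_zero, one_mul] at h
  exact h

/-- Recentring the Borel series. -/
theorem borel_shift {a : ℕ → ℂ} {A τ : ℝ} (ha : GeomBdd a A τ) (l : ℂ) {x : ℂ}
    (hx : ‖l‖ + τ < ‖x‖) :
    HasSum (fun n : ℕ => shB a l n / x ^ (n + 1)) (∑' k : ℕ, a k / (x + l) ^ (k + 1)) := by
  obtain ⟨hA, hτ, hak⟩ := id ha
  have hl : 0 ≤ ‖l‖ := norm_nonneg l
  have hxn : 0 < ‖x‖ := by linarith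
  have hx0 : x ≠ 0 := norm_pos_iff.1 hxn
  have hr : ‖-l / x‖ < 1 := by
    rw [norm_div, norm_neg, div_lt_one hxn]
    linarith
  set r : ℂ := -l / x with hrdef
  let F : ℕ × ℕ → ℂ := fun p =>
    (((p.1 + p.2).choose p.1 : ℕ) : ℂ) * (-l) ^ p.1 * a p.2 / x ^ (p.1 + p.2 + 1)
  have hFeq : ∀ m k : ℕ, F (m, k) = ((((m + k).choose k : ℕ) : ℂ) * r ^ m) * (a k / x ^ (k + 1)) := by
    intro m k
    simp only [F]
    rw [Nat.choose_symm_add, hrdef, div_pow]
    field_simp
    ring
  have hnF : ∀ m k : ℕ, ‖F (m, k)‖ =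
      ((((m + k).choose k : ℕ) : ℝ) * ‖r‖ ^ m) * ‖a k / x ^ (k + 1)‖ := by
    intro m k
    rw [hFeq, norm_mul, norm_mul, Complex.norm_natCast, norm_pow]
  have hrn : ‖(‖r‖ : ℝ)‖ < 1 := by rwa [norm_norm]
  have hsumF : Summable F := by
    have h1 : Summable (fun p : ℕ × ℕ => ‖F (p.2, p.1)‖) := by
      rw [summable_prod_of_nonneg (fun _ => norm_nonneg _)]
      constructor
      · intro k
        simp only [hnF]
        exact (hasSum_choose_mul_geometric_of_norm_lt_one k hrn).summable.mul_right _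
      · have h2 : ∀ k : ℕ, ∑' m : ℕ, ‖F (m, k)‖ = 1 / (1 - ‖r‖) ^ (k + 1) * ‖a k / x ^ (k + 1)‖ := by
          intro k
          simp only [hnF]
          rw [tsum_mul_right, tsum_choose_mul_geometric_of_norm_lt_one k hrn]
        simp only [h2]
        have hd : ‖x‖ * (1 - ‖r‖) = ‖x‖ - ‖l‖ := by
          rw [hrdef, norm_div, norm_neg]
          field_simp
        have hpos : 0 < 1 - ‖r‖ := by linarith
        have hratio : τ / (‖x‖ - ‖l‖) < 1 := by
          rw [div_lt_one (by linarith)]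
          linarith
        refine Summable.of_nonneg_of_le (fun k => by positivity) (fun k => ?_)
          ((summable_geometric_of_lt_one (div_nonneg hτ.le (by linarith)) hratio).mul_left
            (A / (‖x‖ - ‖l‖)))
        rw [norm_div (a k), norm_pow]
        calc 1 / (1 - ‖r‖) ^ (k + 1) * (‖a k‖ / ‖x‖ ^ (k + 1))
            ≤ 1 / (1 - ‖r‖) ^ (k + 1) * (A * τ ^ k / ‖x‖ ^ (k + 1)) := by
              gcongr
              exact hak k
          _ = A * τ ^ k / (‖x‖ * (1 - ‖r‖)) ^ (k + 1) := by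
              rw [mul_pow]
              field_simp
          _ = A / (‖x‖ - ‖l‖) * (τ / (‖x‖ - ‖l‖)) ^ k := by
              rw [hd, div_pow, pow_succ]
              have : ‖x‖ - ‖l‖ ≠ 0 := by linarith
              field_simp
    have h2 : Summable (fun p : ℕ × ℕ => ‖F p‖) :=
      (Equiv.prodComm ℕ ℕ).summable_iff.1 h1
    exact h2.of_norm
  have hsum : HasSum (fun n : ℕ => ∑ p ∈ Finset.HasAntidiagonal.antidiagonal n, F p)
      (∑' p : ℕ × ℕ, F p) := by
    have h1 := hsumF.hasSum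
    rw [← Finset.HasAntidiagonal.sigmaAntidiagonalEquivProd.hasSum_iff] at h1
    have h2 := h1.sigma (fun n => hasSum_fintype _)
    have h3 : (fun n : ℕ => ∑ p ∈ Finset.HasAntidiagonal.antidiagonal n, F p) =
        fun n : ℕ => ∑ p : (Finset.HasAntidiagonal.antidiagonal n), F p := by
      funext n
      rw [Finset.sum_coe_sort (Finset.HasAntidiagonal.antidiagonal n) F]
    rw [h3]
    exact h2
  have hterm : ∀ n : ℕ, ∑ p ∈ Finset.HasAntidiagonal.antidiagonal n, F p =
      shB a l n / x ^ (n + 1) := by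
    intro n
    unfold shB
    rw [Finset.sum_div]
    refine Finset.sum_congr rfl fun p hp => ?_
    have hp' : p.1 + p.2 = n := Finset.HasAntidiagonal.mem_antidiagonal.1 hp
    simp only [F]
    rw [hp']
  simp_rw [hterm] at hsum
  have hval : ∑' p : ℕ × ℕ, F p = ∑' k : ℕ, a k / (x + l) ^ (k + 1) := by
    have h1 : ∑' p : ℕ × ℕ, F p = ∑' k : ℕ, ∑' m : ℕ, F (m, k) := by
      rw [hsumF.tsum_prod, Summable.tsum_comm]
      exact (Equiv.prodComm ℕ ℕ).summable_iff.2 hsumF
    rw [h1]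
    congr 1
    funext k
    simp only [hFeq]
    rw [tsum_mul_right, tsum_choose_mul_geometric_of_norm_lt_one k hr]
    have h2 : x * (1 - r) = x + l := by
      rw [hrdef]
      field_simp
      ring
    rw [← h2, mul_pow]
    have h3 : (1 - r) ≠ 0 := by
      intro h0
      rw [h0, mul_zero] at h2
      have h4 : ‖x‖ = ‖l‖ := by
        have : x = -l := by linear_combination -h2
        rw [this, norm_neg]
      linarith
    field_simp
  rw [← hval]
  exact hsum

/-- A rough upper bound for factorials. -/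
lemma factorial_le_pow {n : ℕ} (hn : 1 ≤ n) :
    (n.factorial : ℝ) ≤ Real.exp 1 * n * (n / Real.exp 1) ^ n := by
  obtain ⟨m, rfl⟩ : ∃ m, n = m + 1 := ⟨n - 1, by omega⟩
  have h1 := Stirling.stirlingSeq'_antitone (Nat.zero_le m)
  simp only [Function.comp] at h1
  rw [Nat.succ_eq_add_one, Nat.succ_eq_add_one, zero_add, Stirling.stirlingSeq_one,
    Stirling.stirlingSeq] at h1
  have hpos : 0 < √(2 * ((m + 1 : ℕ) : ℝ)) * (((m + 1 : ℕ) : ℝ) / Real.exp 1) ^ (m + 1) := by
    positivity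
  rw [div_le_iff₀ hpos] at h1
  refine h1.trans ?_
  have h2 : √(2 * ((m + 1 : ℕ) : ℝ)) = √2 * √((m + 1 : ℕ) : ℝ) := Real.sqrt_mul (by norm_num) _
  rw [h2]
  have h3 : √((m + 1 : ℕ) : ℝ) ≤ ((m + 1 : ℕ) : ℝ) := by
    rw [Real.sqrt_le_left (by positivity)]
    have : (1 : ℝ) ≤ ((m + 1 : ℕ) : ℝ) := by
      push_cast
      linarith [(Nat.cast_nonneg m : (0 : ℝ) ≤ m)]
    nlinarith
  have h4 : 0 < √2 := by positivity
  calc Real.exp 1 / √2 * (√2 * √((m + 1 : ℕ) : ℝ) * (((m + 1 : ℕ) : ℝ) / Real.exp 1) ^ (m + 1))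
      = Real.exp 1 * √((m + 1 : ℕ) : ℝ) * (((m + 1 : ℕ) : ℝ) / Real.exp 1) ^ (m + 1) := by
        field_simp
    _ ≤ _ := by gcongr

/-- Cauchy estimates at the origin for a function of exponential type. -/
lemma coef_bound {g : ℂ → ℂ} (hg : Differentiable ℂ g) {C σ : ℝ} (hC : 0 < C) (hσ : 0 < σ)
    (hb : ∀ z, ‖g z‖ ≤ C * Real.exp (σ * ‖z‖)) (n : ℕ) :
    ‖iteratedDeriv n g 0‖ ≤ 3 * C * (n + 1) * σ ^ n := by
  rcases Nat.eq_zero_or_pos n with rfl | hn
  · have := hb 0
    simp only [iteratedDeriv_zero, norm_zero, mul_zero, Real.exp_zero, mul_one] at this ⊢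
    simp only [Nat.cast_zero, zero_add, mul_one, pow_zero]
    linarith
  · have hn' : (0 : ℝ) < n := by exact_mod_cast hn
    have h1 := norm_iteratedDeriv_le (f := g) hg (z := 0) (R := n / σ)
      (M := C * Real.exp n) (by positivity) (fun w hw => by
        refine (hb w).trans ?_
        rw [mem_closedBall_zero_iff] at hw
        have : σ * ‖w‖ ≤ n := by
          rw [le_div_iff₀ hσ] at hw
          linarith
        gcongr) n
    refine h1.trans ?_
    have h2 := factorial_le_pow hn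
    have h3 : Real.exp n = Real.exp 1 ^ n := by rw [← Real.exp_nat_mul, mul_one]
    have he := Real.exp_one_lt_d9
    calc (n.factorial : ℝ) * (C * Real.exp n) / (n / σ) ^ n
        ≤ (Real.exp 1 * n * (n / Real.exp 1) ^ n) * (C * Real.exp n) / (n / σ) ^ n := by gcongr
      _ = Real.exp 1 * n * C * σ ^ n := by
          rw [h3, div_pow, div_pow]
          field_simp
      _ ≤ 3 * (n + 1) * C * σ ^ n := by
          gcongr
          · linarith
          · linarith
      _ = _ := by ring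

lemma summable_aux {q : ℝ} (hq0 : 0 ≤ q) (hq : q < 1) :
    Summable fun n : ℕ => ((n : ℝ) + 1) * q ^ n := by
  have h1 : Summable fun n : ℕ => (((n + 1).choose 1 : ℕ) : ℝ) * q ^ n :=
    (hasSum_choose_mul_geometric_of_norm_lt_one 1 (r := q) (by
      rw [Real.norm_of_nonneg hq0]; exact hq)).summable
  simpa using h1

/-- The recentred Borel series is analytic outside a disc. -/
lemma series_diff {b : ℕ → ℂ} {C σ T : ℝ} (hC : 0 < C) (hσ : 0 < σ) (hT : σ < T)
    (hb : ∀ n, ‖b n‖ ≤ C * (n + 1) * σ ^ n) (l : ℂ) :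
    DifferentiableOn ℂ (fun w : ℂ => ∑' n : ℕ, b n / (w - l) ^ (n + 1)) {w | T < ‖w - l‖} := by
  have hT0 : 0 < T := hσ.trans hT
  have hsum : Summable fun n : ℕ => C / T * (((n : ℝ) + 1) * (σ / T) ^ n) :=
    (summable_aux (by positivity) ((div_lt_one hT0).2 hT)).mul_left _
  refine Complex.differentiableOn_tsum_of_summable_norm hsum ?_
    (isOpen_lt continuous_const (by fun_prop)) ?_
  · intro n w hw
    simp only [mem_ofPred_eq] at hw
    have hne : w - l ≠ 0 := norm_pos_iff.1 (hT0.trans hw)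
    have : DifferentiableAt ℂ (fun w : ℂ => b n / (w - l) ^ (n + 1)) w :=
      DifferentiableAt.div (by fun_prop) (by fun_prop) (pow_ne_zero _ hne)
    exact this.differentiableWithinAt
  · intro n w hw
    simp only [mem_ofPred_eq] at hw
    rw [norm_div, norm_pow]
    calc ‖b n‖ / ‖w - l‖ ^ (n + 1) ≤ C * (n + 1) * σ ^ n / T ^ (n + 1) := by
          gcongr
          exact hb n
      _ = _ := by
          rw [div_pow, pow_succ]
          field_simp

end Pool.Agent.Work.MP_8d04b0_an
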