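import Mathlib
import Pool.Agent.Work.MP_8d04b0_an.Hopf

set_option autoImplicit false

open Metric Set Filter Topology

namespace Pool.Agent.Work.MP_8d04b0_an

/-- When `DD H` is a point, every nonzero function dominated by `H` is regular. -/
theorem reg_of_point {H : ℂ → ℝ} (hH : Subl H) {l : ℂ} (hpt : DD H = {l}) {F : ℂ → ℂ}
    (hF : Differentiable ℂ F) (hU : Upper F H) (hne : ∃ z, F z ≠ 0) {u : ℂ} (hu : u ≠ 0) :
    Reg F H u := by
  have hHl : ∀ z, H z = (l * z).re := by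
    intro z
    obtain ⟨w, hw, hws⟩ := hH.exists_support z
    rw [hpt, mem_singleton_iff] at hw
    rw [← hws, hw]
  obtain ⟨z0, hz0⟩ := hne
  have hun : 0 < ‖u‖ := norm_pos_iff.2 hu
  intro ε0 hε0 δ0 hδ0
  set G : ℂ → ℂ := fun w => Complex.exp (-(l * w)) * F w with hGdef
  have hG : Differentiable ℂ G := by rw [hGdef]; fun_prop
  have hGn : ∀ w, ‖G w‖ = Real.exp (-(l * w).re) * ‖F w‖ := fun w => norm_exp_neg_mul l w _
  have hG0 : 0 < ‖G z0‖ := by
    rw [hGn]
    have := norm_pos_iff.2 hz0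
    positivity
  obtain ⟨δ, hδ, hδa, hδb, hδc⟩ : ∃ δ : ℝ, 0 < δ ∧ δ ≤ δ0 ∧ δ ≤ ‖u‖ / 2 ∧ ‖l‖ * δ ≤ ε0 / 2 := by
    obtain ⟨x, hx, hx'⟩ := exists_small_mul (norm_nonneg l) (half_pos hε0)
    refine ⟨min (min δ0 x) (‖u‖ / 2), by positivity, (min_le_left _ _).trans (min_le_left _ _),
      min_le_right _ _, ?_⟩
    refine le_trans ?_ hx'
    gcongr
    exact (min_le_left _ _).trans (min_le_right _ _)
  have hq1 : 4 ≤ 2 * ‖u‖ / δ := by
    rw [le_div_iff₀ hδ]
    linarith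
  set a2 : ℝ := Real.log (2 * ‖u‖ / δ) with ha2
  set a3 : ℝ := Real.log (3 * ‖u‖ / δ) with ha3
  have ha2pos : 0 < a2 := Real.log_pos (by linarith)
  have ha23 : a2 < a3 := by
    apply Real.log_lt_log (by linarith)
    gcongr
    norm_num
  have ha3pos : 0 < a3 := ha2pos.trans ha23
  set θ0 : ℝ := a2 / a3 with hθ0
  have hθ01 : θ0 < 1 := by
    rw [hθ0, div_lt_one ha3pos]
    exact ha23
  have hθ0pos : 0 < θ0 := by positivity
  set ε1 : ℝ := (1 - θ0) * ε0 / (16 * ‖u‖) with hε1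
  have h1θ : 0 < 1 - θ0 := by linarith
  have hε1pos : 0 < ε1 := by positivity
  have hε1u : 4 * ‖u‖ * ε1 = (1 - θ0) * ε0 / 4 := by
    rw [hε1]
    field_simp
    ring
  obtain ⟨RU, hRU, hRU'⟩ := hU ε1 hε1pos
  obtain ⟨M, hM0, hM⟩ := exists_bound hG 0 RU
  -- `G` is bounded by `exp (ε1 |w| + logM)`
  have hGup : ∀ w : ℂ, ‖G w‖ ≤ Real.exp (ε1 * ‖w‖ + Real.log (M + 1)) := by
    intro w
    have hM1 : 0 < M + 1 := by linarith
    have hlog : 0 ≤ Real.log (M + 1) := Real.log_nonneg (by linarith)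
    rcases le_total RU ‖w‖ with h | h
    · rw [hGn]
      calc Real.exp (-(l * w).re) * ‖F w‖
          ≤ Real.exp (-(l * w).re) * Real.exp (H w + ε1 * ‖w‖) := by
            gcongr
            exact hRU' w h
        _ = Real.exp (ε1 * ‖w‖) := by
            rw [← Real.exp_add, hHl]
            congr 1
            ring
        _ ≤ _ := Real.exp_le_exp.2 (by linarith)
    · have h1 := hM w (by rwa [mem_closedBall_zero_iff])
      calc ‖G w‖ ≤ M + 1 := by linarith
        _ = Real.exp (Real.log (M + 1)) := (Real.exp_log hM1).symm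
        _ ≤ _ := Real.exp_le_exp.2 (by
          have : 0 ≤ ε1 * ‖w‖ := by positivity
          linarith)
  set lM : ℝ := Real.log (M + 1) with hlM
  have hlM0 : 0 ≤ lM := Real.log_nonneg (by linarith)
  set K : ℝ := |Real.log ‖G z0‖| + lM + 1 with hK
  have hK0 : 0 < K := by positivity
  refine ⟨max (max 1 (‖z0‖ / (‖u‖ / 2))) (4 * K / ((1 - θ0) * ε0)), ?_⟩
  intro r hr
  have hr1 : 1 ≤ r := (le_max_left _ _).trans ((le_max_left _ _).trans hr)
  have hr2 : ‖z0‖ ≤ r * (‖u‖ / 2) := by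
    have : ‖z0‖ / (‖u‖ / 2) ≤ r := (le_max_right _ _).trans ((le_max_left _ _).trans hr)
    rwa [div_le_iff₀ (by positivity)] at this
  have hr3 : 4 * K ≤ r * ((1 - θ0) * ε0) := by
    have : 4 * K / ((1 - θ0) * ε0) ≤ r := (le_max_right _ _).trans hr
    rwa [div_le_iff₀ (by positivity)] at this
  have hr0 : 0 < r := by linarith
  have hnorm : ‖(r : ℂ) * u‖ = r * ‖u‖ := by
    rw [norm_mul, Complex.norm_real, Real.norm_of_nonneg hr0.le]
  by_contra hcon
  push Not at hcon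
  have hsmall : ∀ w : ℂ, ‖w - r * u‖ = δ * r → ‖G w‖ ≤ Real.exp (-(ε0 / 2 * r)) := by
    intro w hw
    have h1 := hcon w (hw.le.trans (by gcongr))
    rw [hGn]
    have h2 : r * (l * u).re - ‖l‖ * (δ * r) ≤ (l * w).re := by
      rw [re_mul_scale l u w r]
      have := neg_le_re_mul l (w - r * u)
      rw [hw] at this
      linarith
    calc Real.exp (-(l * w).re) * ‖F w‖
        ≤ Real.exp (-(l * w).re) * Real.exp (r * (H u - ε0)) := by gcongr
      _ = Real.exp (-(l * w).re + r * (H u - ε0)) := by rw [← Real.exp_add]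
      _ ≤ _ := by
          apply Real.exp_le_exp.2
          rw [hHl]
          have : ‖l‖ * δ * r ≤ ε0 / 2 * r := by gcongr
          linarith
  have hbig : ∀ w : ℂ, ‖w - r * u‖ = 3 * ‖u‖ * r →
      ‖G w‖ ≤ Real.exp ((1 - θ0) * ε0 / 4 * r + lM) := by
    intro w hw
    refine (hGup w).trans (Real.exp_le_exp.2 ?_)
    have h1 : ‖w‖ ≤ 4 * ‖u‖ * r := by
      have := norm_add_le (w - r * u) (r * u)
      rw [sub_add_cancel, hnorm, hw] at this
      linarith
    have h2 : ε1 * ‖w‖ ≤ ε1 * (4 * ‖u‖ * r) := by gcongr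
    have h3 : ε1 * (4 * ‖u‖ * r) = (1 - θ0) * ε0 / 4 * r := by
      rw [← hε1u]; ring
    linarith
  have ht2 : ‖z0 - r * u‖ ≤ 2 * ‖u‖ * r := by
    have := norm_sub_le z0 (r * u)
    rw [hnorm] at this
    nlinarith
  have ht1 : δ * r ≤ ‖z0 - r * u‖ := by
    have := norm_sub_norm_le (r * u) z0
    rw [hnorm, norm_sub_rev] at this
    have h2 : δ * r ≤ ‖u‖ / 2 * r := by gcongr
    linarith
  have hδr : 0 < δ * r := by positivity
  have key := three_circles hG (c := r * u) (w := z0) (t₁ := δ * r) (t₂ := 3 * ‖u‖ * r) hδr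
    (by
      have h2 : δ * r ≤ ‖u‖ / 2 * r := by gcongr
      nlinarith [mul_pos hun hr0]) hsmall hbig ht1 (ht2.trans (by nlinarith [mul_pos hun hr0]))
  have e1 : 3 * ‖u‖ * r / (δ * r) = 3 * ‖u‖ / δ := by field_simp
  rw [e1, ← ha3] at key
  set θ : ℝ := Real.log (‖z0 - r * u‖ / (δ * r)) / a3 with hθ
  have hθle : θ ≤ θ0 := by
    rw [hθ, hθ0]
    gcongr
    apply Real.log_le_log
    · have : 0 < ‖z0 - r * u‖ := hδr.trans_le ht1
      positivity
    · rw [div_le_div_iff₀ hδr hδ]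
      calc ‖z0 - r * u‖ * δ ≤ (2 * ‖u‖ * r) * δ := by gcongr
        _ = 2 * ‖u‖ * (δ * r) := by ring
  have hθnn : 0 ≤ θ := by
    apply div_nonneg _ ha3pos.le
    apply Real.log_nonneg
    rw [le_div_iff₀ hδr]
    linarith
  have hlog := Real.log_le_log hG0 key
  rw [Real.log_exp] at hlog
  have hab := neg_abs_le (Real.log ‖G z0‖)
  have h1 : (1 - θ) * (ε0 / 2 * r) ≥ (1 - θ0) * (ε0 / 2 * r) := by gcongr
  have h2 : θ * ((1 - θ0) * ε0 / 4 * r + lM) ≤ 1 * ((1 - θ0) * ε0 / 4 * r + lM) := by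
    apply mul_le_mul_of_nonneg_right (by linarith)
    positivity
  nlinarith

end Pool.Agent.Work.MP_8d04b0_an
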