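import Mathlib
import Pool.Agent.Work.MP_8d04b0_an.Hopf

set_option autoImplicit false

open Metric Set Filter Topology

namespace Pool.Agent.Work.MP_8d04b0_an

variable {H : ℂ → ℝ} {F : ℂ → ℂ}

lemma isOpen_not_reg (hH : Subl H) (F : ℂ → ℂ) : IsOpen {u : ℂ | ¬ Reg F H u} := by
  rw [Metric.isOpen_iff]
  intro u hu
  simp only [mem_ofPred_eq, Reg] at hu
  push Not at hu
  obtain ⟨ε, hε, δ, hδ, hbad⟩ := hu
  obtain ⟨η, hη, hη'⟩ := Metric.continuousAt_iff.1 (hH.continuous.continuousAt (x := u))
    (ε / 2) (half_pos hε)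
  refine ⟨min η (δ / 2), by positivity, fun v hv hreg => ?_⟩
  rw [mem_ball] at hv
  obtain ⟨R, hR⟩ := hreg (ε / 2) (half_pos hε) (δ / 2) (half_pos hδ)
  obtain ⟨r, hr, hr'⟩ := hbad (max R 1)
  have hr0 : 0 < r := lt_of_lt_of_le one_pos ((le_max_right _ _).trans hr)
  obtain ⟨z, hz1, hz2⟩ := hR r ((le_max_left _ _).trans hr)
  have h1 := hr' z (by
    have h2 : z - r * u = (z - r * v) + r * (v - u) := by ring
    have h3 : ‖(r : ℂ) * (v - u)‖ ≤ r * (δ / 2) := by
      rw [norm_mul, Complex.norm_real, Real.norm_of_nonneg hr0.le, ← dist_eq_norm]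
      gcongr
      exact hv.le.trans (min_le_right _ _)
    rw [h2]
    refine (norm_add_le _ _).trans ?_
    linarith)
  have h4 := hη' (hv.trans_le (min_le_left _ _))
  rw [Real.dist_eq, abs_lt] at h4
  have h5 : Real.exp (r * (H u - ε)) ≤ Real.exp (r * (H v - ε / 2)) := by
    apply Real.exp_le_exp.2
    gcongr ?_ * ?_
    linarith [h4.1]
  linarith

lemma reg_smul (hH : Subl H) {u : ℂ} {t : ℝ} (ht : 0 < t) (h : Reg F H u) :
    Reg F H (t * u) := by
  intro ε hε δ hδ
  obtain ⟨R, hR⟩ := h (ε / t) (by positivity) (δ / t) (by positivity)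
  refine ⟨R / t, fun r hr => ?_⟩
  obtain ⟨z, hz1, hz2⟩ := hR (r * t) (by rwa [div_le_iff₀ ht] at hr)
  refine ⟨z, ?_, ?_⟩
  · push_cast at hz1
    rw [mul_assoc] at hz1
    refine hz1.trans (le_of_eq ?_)
    field_simp
  · refine le_trans (le_of_eq ?_) hz2
    rw [hH.smul t u ht.le]
    congr 1
    field_simp

/-- The set of directions supported by `l`. -/
def Nl (H : ℂ → ℝ) (l : ℂ) : Set ℂ := {u | (l * u).re = H u}

lemma isClosed_Nl (hH : Subl H) (l : ℂ) : IsClosed (Nl H l) :=
  isClosed_eq (by fun_prop) hH.continuous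

lemma Nl_comb (hH : Subl H) {l : ℂ} (hl : l ∈ DD H) {u v : ℂ} (hu : u ∈ Nl H l)
    (hv : v ∈ Nl H l) {a b : ℝ} (ha : 0 ≤ a) (hb : 0 ≤ b) : (a * u + b * v : ℂ) ∈ Nl H l := by
  have h1 := hH.add_le (a * u) (b * v)
  rw [hH.smul a u ha, hH.smul b v hb] at h1
  have h2 := hl (a * u + b * v)
  have h3 : (l * (a * u + b * v)).re = a * (l * u).re + b * (l * v).re := by
    rw [mul_add, Complex.add_re, re_mul_ofReal_mul, re_mul_ofReal_mul]
  have hu' : (l * u).re = H u := hu
  have hv' : (l * v).re = H v := hv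
  rw [hu', hv'] at h3
  exact le_antisymm h2 (by rw [h3]; exact h1)

lemma convex_Nl (hH : Subl H) {l : ℂ} (hl : l ∈ DD H) : Convex ℝ (Nl H l) := by
  intro u hu v hv a b ha hb _
  rw [Complex.real_smul, Complex.real_smul]
  exact Nl_comb hH hl hu hv ha hb

/-- Directions with a unique support point are dense. -/
lemma exists_unique_support (hH : Subl H) {U : Set ℂ} (hU : IsOpen U) (hne : U.Nonempty) :
    ∃ z ∈ U, ∀ w₁ ∈ DD H, ∀ w₂ ∈ DD H, (w₁ * z).re = H z → (w₂ * z).re = H z → w₁ = w₂ := by
  obtain ⟨L, hL, hb, hl⟩ := hH.exists_lipschitz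
  have hlip : LipschitzWith ⟨L, hL.le⟩ H := by
    refine LipschitzWith.of_dist_le_mul fun z w => ?_
    rw [Real.dist_eq, dist_eq_norm, abs_le]
    constructor
    · have := hl w z
      rw [norm_sub_rev] at this
      change -(L * ‖z - w‖) ≤ _
      linarith
    · exact hl z w
  have hae := hlip.ae_differentiableAt (μ := MeasureTheory.volume)
  have hdense : Dense {z : ℂ | DifferentiableAt ℝ H z} :=
    MeasureTheory.Measure.dense_of_ae hae
  obtain ⟨z, hz, hzU⟩ := hdense.inter_open_nonempty U hU hne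
  refine ⟨z, hz, fun w₁ h₁ w₂ h₂ e₁ e₂ => ?_⟩
  have hd : DifferentiableAt ℝ H z := hzU
  have key : ∀ w ∈ DD H, (w * z).re = H z → ∀ ζ : ℂ, fderiv ℝ H z ζ = (w * ζ).re := by
    intro w hw e ζ
    let Lw : ℂ →L[ℝ] ℝ := Complex.reCLM.comp ((ContinuousLinearMap.mul ℝ ℂ) w)
    have hLw : ∀ x, Lw x = (w * x).re := fun x => rfl
    have hmin : IsLocalMin (fun x => H x - Lw x) z := by
      refine Filter.Eventually.of_forall fun x => ?_
      simp only [hLw]
      have := hw x
      linarith
    have hder : HasFDerivAt (fun x => H x - Lw x) (fderiv ℝ H z - Lw) z :=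
      hd.hasFDerivAt.sub Lw.hasFDerivAt
    have h0 := hmin.hasFDerivAt_eq_zero hder
    have h1 : fderiv ℝ H z = Lw := sub_eq_zero.1 h0
    rw [h1, hLw]
  have h3 : ∀ ζ : ℂ, ((w₁ - w₂) * ζ).re = 0 := by
    intro ζ
    rw [sub_mul, Complex.sub_re, ← key w₁ h₁ e₁, ← key w₂ h₂ e₂, sub_self]
  have h4 := h3 ((starRingEnd ℂ) (w₁ - w₂))
  rw [Complex.mul_conj, Complex.ofReal_re, Complex.normSq_eq_zero] at h4
  exact sub_eq_zero.1 h4

lemma exists_last {N : Set ℂ} (hN : IsClosed N) {p : ℝ → ℂ} (hp : Continuous p) (h0 : p 0 ∈ N)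
    (h1 : p 1 ∉ N) : ∃ t : ℝ, 0 ≤ t ∧ t < 1 ∧ p t ∈ N ∧ p t ∈ closure Nᶜ := by
  set T : Set ℝ := Icc 0 1 ∩ p ⁻¹' N with hT
  have hTc : IsCompact T := isCompact_Icc.inter_right (hN.preimage hp)
  have hTn : T.Nonempty := ⟨0, ⟨le_rfl, zero_le_one⟩, h0⟩
  obtain ⟨t, ht, hmax⟩ := hTc.exists_isGreatest hTn
  have ht1 : t < 1 := lt_of_le_of_ne ht.1.2 (fun h => h1 (h ▸ ht.2))
  refine ⟨t, ht.1.1, ht1, ht.2, ?_⟩
  have hcl : t ∈ closure (Ioo t 1) := by
    rw [closure_Ioo ht1.ne]
    exact ⟨le_rfl, ht1.le⟩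
  have himg : p '' Ioo t 1 ⊆ Nᶜ := by
    rintro _ ⟨x, hx, rfl⟩ hxN
    have : x ≤ t := hmax ⟨⟨ht.1.1.trans hx.1.le, hx.2.le⟩, hxN⟩
    exact absurd this (not_le.2 hx.1)
  exact closure_mono himg (image_closure_subset_closure_image hp ⟨t, hcl, rfl⟩)

lemma end_lemma (hH : Subl H) (hF : Differentiable ℂ F) (hU : Upper F H) {S : Set ℂ}
    (hS : S ⊆ DD H) (hfin : S.Finite)
    (hcov : ∀ u : ℂ, u ≠ 0 → ¬ Reg F H u → ∃ l ∈ S, u ∈ Nl H l) {l : ℂ} (hl : l ∈ DD H)
    {u0 ub : ℂ} (h0 : ¬ Reg F H u0) (h0N : u0 ∈ interior (Nl H l)) (hub : ub ∈ Nl H l)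
    (hub' : ub ∈ closure (Nl H l)ᶜ) (him : (u0 / ub).im ≠ 0) :
    ∃ ν ∈ DD H, ν ≠ l ∧ ub ∈ Nl H ν := by
  by_contra hcon
  push Not at hcon
  have hub0 : ub ≠ 0 := by
    rintro rfl
    simp at him
  have huniq : ∀ w ∈ DD H, (w * ub).re = H ub → w = l := by
    intro w hw hws
    by_contra hne
    exact hcon w hw hne hws
  have hdiff := fun (η : ℝ) (hη : 0 < η) => hH.diff_of_unique hl huniq hη
  set p : ℝ → ℂ := fun t => (1 - t) * u0 + t * ub with hp
  have hpc : Continuous p := by rw [hp]; fun_prop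
  have hp0 : p 0 = u0 := by simp [hp]
  have hp1 : p 1 = ub := by simp [hp]
  have hopen := isOpen_not_reg hH F
  set T : Set ℝ := Icc 0 1 ∩ p ⁻¹' {u | Reg F H u} with hT
  have hclosed : IsClosed {u : ℂ | Reg F H u} := by
    rw [← isOpen_compl_iff]
    exact hopen
  have hTc : IsCompact T := isCompact_Icc.inter_right (hclosed.preimage hpc)
  rcases T.eq_empty_or_nonempty with hTe | hTn
  · -- the whole segment is irregular
    have hnr : ¬ Reg F H ub := by
      intro h
      have : (1 : ℝ) ∈ T := ⟨⟨zero_le_one, le_rfl⟩, by rw [mem_preimage, hp1]; exact h⟩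
      rw [hTe] at this
      exact this
    set C : Set ℂ := ⋃ m ∈ S \ {l}, Nl H m with hC
    have hCc : IsClosed C := (hfin.subset sdiff_subset).isClosed_biUnion
      (fun m _ => isClosed_Nl hH m)
    have hmem : ub ∈ closure C := by
      rw [_root_.mem_closure_iff]
      intro O hO hubO
      have hO' : IsOpen (O ∩ ({u : ℂ | ¬ Reg F H u} ∩ {0}ᶜ)) :=
        hO.inter (hopen.inter isOpen_compl_singleton)
      obtain ⟨x, hx, hxN⟩ := _root_.mem_closure_iff.1 hub' _ hO' ⟨hubO, hnr, hub0⟩
      obtain ⟨m, hm, hxm⟩ := hcov x hx.2.2 hx.2.1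
      refine ⟨x, hx.1, ?_⟩
      rw [hC, mem_iUnion₂]
      refine ⟨m, ⟨hm, ?_⟩, hxm⟩
      rintro rfl
      exact hxN hxm
    rw [hCc.closure_eq, hC, mem_iUnion₂] at hmem
    obtain ⟨m, hm, hum⟩ := hmem
    exact hcon m (hS hm.1) (fun h => hm.2 h) hum
  · obtain ⟨t2, ht2, hmin⟩ := hTc.exists_isLeast hTn
    have ht20 : 0 < t2 := by
      refine lt_of_le_of_ne ht2.1.1 ?_
      rintro rfl
      exact h0 (by have := ht2.2; rwa [mem_preimage, hp0] at this)
    have hlow : ∀ t : ℝ, 0 ≤ t → t < t2 → ¬ Reg F H (p t) := by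
      intro t h1 h2 h3
      have : t2 ≤ t := hmin ⟨⟨h1, h2.le.trans ht2.1.2⟩, h3⟩
      linarith
    have hreg2 : Reg F H (p t2) := ht2.2
    have hne : u0 ≠ ub := by
      rintro rfl
      rw [div_self hub0] at him
      simp at him
    rcases lt_or_eq_of_le ht2.1.2 with ht21 | ht21
    · -- interior point
      have hint : p t2 ∈ interior (Nl H l) := by
        have h1 := (convex_Nl hH hl).combo_interior_self_mem_interior h0N hub
          (show 0 < 1 - t2 by linarith) ht20.le (by ring)
        rw [Complex.real_smul, Complex.real_smul] at h1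
        simp only [hp]
        push_cast at h1
        exact h1
      obtain ⟨ρ, hρ, hball⟩ := Metric.isOpen_iff.1 isOpen_interior _ hint
      have hball' : ∀ w, ‖w - p t2‖ < ρ → H w = (l * w).re := by
        intro w hw
        have : w ∈ ball (p t2) ρ := by rwa [mem_ball, dist_eq_norm]
        exact (interior_subset (hball this)).symm
      have hpn : p t2 ≠ 0 := by
        intro h
        simp only [hp] at h
        have h2 : u0 / ub = -((t2 / (1 - t2) : ℝ) : ℂ) := by
          rw [div_eq_iff hub0]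
          have h3 : (1 - (t2 : ℂ)) ≠ 0 := by
            intro h4
            have : (1 - t2 : ℝ) = 0 := by exact_mod_cast h4
            linarith
          push_cast
          field_simp
          linear_combination h
        rw [h2, ← Complex.ofReal_neg, Complex.ofReal_im] at him
        exact him rfl
      have hd0 : 0 < ‖u0 - ub‖ := norm_pos_iff.2 (sub_ne_zero.2 hne)
      obtain ⟨ε, hε, hε1, hε2, hε3⟩ : ∃ ε : ℝ, 0 < ε ∧ ε < t2 ∧ ε * ‖u0 - ub‖ < ρ / 2 ∧
          2 * (ε * ‖u0 - ub‖) < ‖p t2‖ := by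
        have hpn' : 0 < ‖p t2‖ := norm_pos_iff.2 hpn
        refine ⟨min (t2 / 2) (min (ρ / (4 * ‖u0 - ub‖)) (‖p t2‖ / (4 * ‖u0 - ub‖))),
          by positivity, ?_, ?_, ?_⟩
        · refine (min_le_left _ _).trans_lt ?_
          linarith
        · have h1 : min (t2 / 2) (min (ρ / (4 * ‖u0 - ub‖)) (‖p t2‖ / (4 * ‖u0 - ub‖))) ≤
            ρ / (4 * ‖u0 - ub‖) := (min_le_right _ _).trans (min_le_left _ _)
          rw [le_div_iff₀ (by positivity)] at h1
          nlinarith
        · have h1 : min (t2 / 2) (min (ρ / (4 * ‖u0 - ub‖)) (‖p t2‖ / (4 * ‖u0 - ub‖))) ≤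
            ‖p t2‖ / (4 * ‖u0 - ub‖) := (min_le_right _ _).trans (min_le_right _ _)
          rw [le_div_iff₀ (by positivity)] at h1
          nlinarith
      have hdist : ‖p (t2 - ε) - p t2‖ = ε * ‖u0 - ub‖ := by
        have h1 : p (t2 - ε) - p t2 = (ε : ℂ) * (u0 - ub) := by
          simp only [hp]
          push_cast
          ring
        rw [h1, norm_mul, Complex.norm_real, Real.norm_of_nonneg hε.le]
      refine hlow (t2 - ε) (by linarith) (by linarith) ?_
      refine hopf hH hF hU (u := p t2) (v := p (t2 - ε)) (l := l) ?_ ?_ ?_ ?_ hreg2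
      · intro h
        rw [h, sub_self, norm_zero] at hdist
        have : 0 < ε * ‖u0 - ub‖ := by positivity
        linarith
      · rw [hdist]
        have h2 := norm_sub_le (p (t2 - ε)) (p (t2 - ε) - p t2)
        rw [sub_sub_cancel, hdist] at h2
        linarith
      · intro w hw
        apply hball'
        rw [hdist] at hw
        have h1 : ‖w - p t2‖ ≤ ‖w - p (t2 - ε)‖ + ‖p (t2 - ε) - p t2‖ :=
          norm_sub_le_norm_sub_add_norm_sub _ _ _
        rw [hdist] at h1
        linarith
      · intro η hη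
        refine ⟨ρ / 2, half_pos hρ, fun ζ hζ => ?_⟩
        rw [hball' (p t2 + ζ) (by rw [add_sub_cancel_left]; linarith), sub_self]
        positivity
    · -- the endpoint
      subst ht21
      rw [hp1] at hreg2
      set c : ℂ := u0 / ub with hc
      have hc0 : u0 = c * ub := by rw [hc, div_mul_cancel₀ _ hub0]
      have hcn : 0 ≤ ‖c‖ := norm_nonneg c
      have hubn : 0 < ‖ub‖ := norm_pos_iff.2 hub0
      set ε : ℝ := 1 / (16 * (1 + ‖c‖)) with hεdef
      have hε : 0 < ε := by positivity
      have hε1 : ε * (1 + ‖c‖) = 1 / 16 := by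
        rw [hεdef]
        field_simp
      have hε2 : ε ≤ 1 / 16 := by
        have : 0 ≤ ε * ‖c‖ := by positivity
        linarith
      have hεc : ε * ‖c‖ ≤ 1 / 16 := by linarith
      have hre := abs_le.1 (Complex.abs_re_le_norm c)
      have him' := abs_le.1 (Complex.abs_im_le_norm c)
      set X : ℝ := 1 - ε + ε * c.re with hX
      have hXh : 1 / 2 ≤ X := by nlinarith
      have hX0 : 0 < X := by linarith
      set τ : ℝ := ε * c.im / X with hτ
      have hτX : τ * X = ε * c.im := by rw [hτ]; field_simp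
      have hτ0 : τ ≠ 0 := by
        rw [hτ]
        exact div_ne_zero (mul_ne_zero hε.ne' him) hX0.ne'
      have hτabs : |τ| ≤ 1 / 8 := by
        rw [hτ, abs_div, abs_of_pos hX0, div_le_iff₀ hX0, abs_mul, abs_of_pos hε]
        have : ε * |c.im| ≤ ε * ‖c‖ := by
          gcongr
          exact Complex.abs_im_le_norm c
        linarith
      set v : ℂ := (1 + τ * Complex.I) * ub with hv
      have hXc : (X : ℂ) ≠ 0 := by exact_mod_cast hX0.ne'
      have hpv : p (1 - ε) = (X : ℂ) * v := by
        have h1 : (c : ℂ) = c.re + c.im * Complex.I := (Complex.re_add_im c).symm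
        have h2 : (X : ℂ) = 1 - ε + ε * c.re := by rw [hX]; push_cast; ring
        have h3 : (τ : ℂ) * X = ε * c.im := by exact_mod_cast congrArg (fun x : ℝ => (x : ℂ)) hτX
        simp only [hp, hv, hc0]
        push_cast
        calc (1 - (1 - (ε : ℂ))) * (c * ub) + (1 - ε) * ub
            = ((1 - ε) + ε * c) * ub := by ring
          _ = ((1 - ε) + ε * (c.re + c.im * Complex.I)) * ub := by rw [← h1]
          _ = ((1 - ε + ε * c.re) + (ε * c.im) * Complex.I) * ub := by ring
          _ = (X + (τ * X) * Complex.I) * ub := by rw [← h2, h3]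
          _ = X * ((1 + τ * Complex.I) * ub) := by ring
      have hnv : ¬ Reg F H v := by
        intro h
        refine hlow (1 - ε) (by linarith) (by linarith) ?_
        rw [hpv]
        exact reg_smul hH hX0 h
      have hvu : v - ub = (τ * Complex.I) * ub := by rw [hv]; ring
      have hdist : ‖v - ub‖ = |τ| * ‖ub‖ := by
        rw [hvu, norm_mul, norm_mul, Complex.norm_I, mul_one, Complex.norm_real, Real.norm_eq_abs]
      refine hnv (hopf hH hF hU (u := ub) (v := v) (l := l) ?_ ?_ ?_ hdiff hreg2)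
      · intro h
        rw [h, sub_self, norm_zero] at hdist
        have : 0 < |τ| * ‖ub‖ := by positivity
        linarith
      · rw [hdist]
        have h2 := norm_sub_le v (v - ub)
        rw [sub_sub_cancel, hdist] at h2
        have h3 : |τ| * ‖ub‖ ≤ 1 / 8 * ‖ub‖ := by gcongr
        linarith
      · intro w hw
        rw [hdist] at hw
        -- write `w = A ub + B u0`
        set q : ℂ := (w - v) / ub with hq
        have hqn : ‖q‖ ≤ |τ| := by
          rw [hq, norm_div, div_le_iff₀ hubn]
          exact hw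
        have hwq : w = (1 + τ * Complex.I + q) * ub := by
          rw [hq, add_mul, div_mul_cancel₀ _ hub0, ← hv]
          ring
        have hqre := abs_le.1 ((Complex.abs_re_le_norm q).trans hqn)
        have hqim := abs_le.1 ((Complex.abs_im_le_norm q).trans hqn)
        set B : ℝ := (τ + q.im) / c.im with hB
        have hBc : B * c.im = τ + q.im := by rw [hB]; field_simp
        set A : ℝ := 1 + q.re - B * c.re with hA
        have hsign : (τ + q.im) * c.im ≥ 0 := by
          rcases lt_or_gt_of_ne him with hneg | hpos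
          · have hτneg : τ ≤ 0 := by
              rw [hτ]
              exact div_nonpos_of_nonpos_of_nonneg (mul_nonpos_of_nonneg_of_nonpos hε.le hneg.le)
                hX0.le
            rw [abs_of_nonpos hτneg] at hqim
            nlinarith [hqim.2]
          · have hτpos : 0 ≤ τ := by
              rw [hτ]
              positivity
            rw [abs_of_nonneg hτpos] at hqim
            nlinarith [hqim.1]
        have hB0 : 0 ≤ B := by
          have : B * c.im ^ 2 = (τ + q.im) * c.im := by rw [pow_two, ← mul_assoc, hBc]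
          have h2 : 0 < c.im ^ 2 := by positivity
          by_contra hneg
          push Not at hneg
          nlinarith
        have hB1 : B ≤ 4 * ε := by
          have h1 : B * |c.im| ≤ 2 * |τ| := by
            have : B * |c.im| = |τ + q.im| := by
              rw [← hBc, abs_mul, abs_of_nonneg hB0]
            rw [this]
            have := abs_add_le τ q.im
            have h3 := (Complex.abs_im_le_norm q).trans hqn
            linarith
          have h2 : |τ| ≤ 2 * ε * |c.im| := by
            rw [hτ, abs_div, abs_of_pos hX0, div_le_iff₀ hX0, abs_mul, abs_of_pos hε]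
            have : 0 ≤ ε * |c.im| := by positivity
            nlinarith
          have h3 : 0 < |c.im| := abs_pos.2 him
          have h4 : B * |c.im| ≤ 4 * ε * |c.im| := by linarith
          exact le_of_mul_le_mul_right h4 h3
        have hA0 : 0 ≤ A := by
          have h1 : B * c.re ≤ 4 * ε * ‖c‖ := by
            have : B * c.re ≤ B * ‖c‖ := by gcongr; exact hre.2
            have h2 : B * ‖c‖ ≤ 4 * ε * ‖c‖ := by gcongr
            linarith
          have h2 := hqre.1
          rw [hA]
          linarith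
        have hwAB : w = (A : ℂ) * ub + (B : ℂ) * u0 := by
          have h1 : (c : ℂ) = c.re + c.im * Complex.I := (Complex.re_add_im c).symm
          have h2 : (q : ℂ) = q.re + q.im * Complex.I := (Complex.re_add_im q).symm
          have h3 : (B : ℂ) * c.im = τ + q.im := by
            exact_mod_cast congrArg (fun x : ℝ => (x : ℂ)) hBc
          have h4 : (A : ℂ) = 1 + q.re - B * c.re := by rw [hA]; push_cast; ring
          rw [hwq, hc0]
          calc (1 + τ * Complex.I + q) * ub
              = (1 + τ * Complex.I + (q.re + q.im * Complex.I)) * ub := by rw [← h2]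
            _ = ((1 + q.re - B * c.re) + B * c.re + (τ + q.im) * Complex.I) * ub := by ring
            _ = (A + B * c.re + (B * c.im) * Complex.I) * ub := by rw [← h4, h3]
            _ = (A + B * (c.re + c.im * Complex.I)) * ub := by ring
            _ = A * ub + B * (c * ub) := by rw [← h1]; ring
        have hmem : w ∈ Nl H l := by
          rw [hwAB]
          exact Nl_comb hH hl hub (interior_subset h0N) hA0 hB0
        exact Eq.symm hmem

end Pool.Agent.Work.MP_8d04b0_an
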