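import Mathlib
import Pool.Agent.Work.MP_8d04b0_an.Defs

set_option autoImplicit false

open Metric Set Filter Topology

namespace Pool.Agent.Work.MP_8d04b0_an

lemma enorm_log_div {w : ℂ} (hw : w ≠ 0) (r : ℝ) :
    ENNReal.log ‖w‖ₑ / (r : EReal) = ((Real.log ‖w‖ / r : ℝ) : EReal) := by
  rw [← ofReal_norm, ENNReal.log_ofReal_of_pos (norm_pos_iff.2 hw), EReal.coe_div]

lemma log_div_le_iff {w : ℂ} {r : ℝ} (hr : 0 < r) (c : ℝ) :
    ENNReal.log ‖w‖ₑ / (r : EReal) ≤ (c : EReal) ↔ ‖w‖ ≤ Real.exp (r * c) := by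
  rcases eq_or_ne w 0 with rfl | hw
  · simp only [enorm_zero, ENNReal.log_zero, norm_zero]
    constructor
    · intro _
      exact (Real.exp_pos _).le
    · intro _
      rw [EReal.bot_div_of_pos_ne_top (by exact_mod_cast hr) (EReal.coe_ne_top _)]
      exact bot_le
  · rw [enorm_log_div hw, EReal.coe_le_coe_iff, div_le_iff₀ hr, mul_comm c r,
      Real.log_le_iff_le_exp (norm_pos_iff.2 hw)]

lemma le_log_div_iff {w : ℂ} {r : ℝ} (hr : 0 < r) (c : ℝ) :
    (c : EReal) ≤ ENNReal.log ‖w‖ₑ / (r : EReal) ↔ Real.exp (r * c) ≤ ‖w‖ := by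
  rcases eq_or_ne w 0 with rfl | hw
  · simp only [enorm_zero, ENNReal.log_zero, norm_zero]
    rw [EReal.bot_div_of_pos_ne_top (by exact_mod_cast hr) (EReal.coe_ne_top _)]
    constructor
    · intro h
      simp at h
    · intro h
      exact absurd h (not_le.2 (Real.exp_pos _))
  · rw [enorm_log_div hw, EReal.coe_le_coe_iff, le_div_iff₀ hr, mul_comm c r,
      Real.le_log_iff_exp_le (norm_pos_iff.2 hw)]

lemma indicator_le {f : ℂ → ℂ} {θ c : ℝ}
    (h : ∀ᶠ r : ℝ in atTop, ‖f (r * Complex.exp (θ * Complex.I))‖ ≤ Real.exp (r * c)) :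
    indicator f θ ≤ c := by
  refine limsup_le_of_le ?_ ?_
  · isBoundedDefault
  · filter_upwards [h, eventually_gt_atTop 0] with r h1 h2
    exact (log_div_le_iff h2 c).2 h1

lemma le_indicator {f : ℂ → ℂ} {θ c : ℝ}
    (h : ∃ᶠ r : ℝ in atTop, Real.exp (r * c) ≤ ‖f (r * Complex.exp (θ * Complex.I))‖) :
    (c : EReal) ≤ indicator f θ := by
  refine le_limsup_of_frequently_le ?_ ?_
  · refine (h.and_eventually (eventually_gt_atTop 0)).mono ?_
    rintro r ⟨h1, h2⟩
    exact (le_log_div_iff h2 c).2 h1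
  · isBoundedDefault

lemma eventually_le_of_indicator {f : ℂ → ℂ} {θ h : ℝ} (hi : indicator f θ = (h : EReal)) {ε : ℝ}
    (hε : 0 < ε) :
    ∀ᶠ r : ℝ in atTop, ‖f (r * Complex.exp (θ * Complex.I))‖ ≤ Real.exp (r * (h + ε)) := by
  have h1 : limsup (fun r : ℝ => ENNReal.log ‖f (r * Complex.exp (θ * Complex.I))‖ₑ /
      (r : EReal)) atTop < ((h + ε : ℝ) : EReal) := by
    have h2 : indicator f θ < ((h + ε : ℝ) : EReal) := by
      rw [hi, EReal.coe_lt_coe_iff]
      linarith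
    exact h2
  have h3 := eventually_lt_of_limsup_lt h1 (by isBoundedDefault)
  filter_upwards [h3, eventually_gt_atTop 0] with r h4 h5
  exact (log_div_le_iff h5 _).1 h4.le

end Pool.Agent.Work.MP_8d04b0_an
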