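import Mathlib
import Pool.Agent.Work.MP_8d04b0_an.Ind
import Pool.Agent.Work.MP_8d04b0_an.Subl
import Pool.Agent.Work.MP_8d04b0_an.Op

set_option autoImplicit false

open Metric Set Filter Topology

namespace Pool.Agent.Work.MP_8d04b0_an

lemma arg_one_add {q : ℂ} (hq : 0 < q.im) :
    0 ≤ (1 + q).arg ∧ (1 + q).arg ≤ q.arg ∧ 0 < q.arg ∧ q.arg < Real.pi := by
  have hq0 : q ≠ 0 := by
    rintro rfl
    simp at hq
  set w : ℂ := 1 + q with hw
  have hwim : w.im = q.im := by simp [hw]
  have hw0 : w ≠ 0 := by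
    intro h
    rw [h] at hwim
    simp at hwim
    linarith
  have hargpos : ∀ x : ℂ, 0 < x.im → 0 < x.arg ∧ x.arg < Real.pi := by
    intro x hx
    constructor
    · refine lt_of_le_of_ne (Complex.arg_nonneg_iff.2 hx.le) ?_
      intro h
      have := Complex.arg_eq_zero_iff.1 h.symm
      linarith [this.2]
    · exact Complex.arg_lt_pi_iff.2 (Or.inr hx.ne')
  have h1 := hargpos q hq
  have h2 := hargpos w (by rw [hwim]; exact hq)
  have h3 : 0 < (q / w).im := by
    have h4 : q / w = 1 - w⁻¹ := by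
      field_simp
      rw [hw]
      ring
    rw [h4, Complex.sub_im, Complex.one_im, zero_sub, Complex.inv_im, neg_div, neg_neg, hwim]
    exact div_pos hq (Complex.normSq_pos.2 hw0)
  have h4 := hargpos _ h3
  have h5 : ((q.arg : ℝ) : Real.Angle) = ((w.arg + (q / w).arg : ℝ) : Real.Angle) := by
    have h6 : q = w * (q / w) := by field_simp
    conv_lhs => rw [h6]
    rw [Complex.arg_mul_coe_angle hw0 (div_ne_zero hq0 hw0)]
    rfl
  rw [Real.Angle.angle_eq_iff_two_pi_dvd_sub] at h5
  obtain ⟨k, hk⟩ := h5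
  have hpi := Real.pi_pos
  have hk0 : k = 0 := by
    have hk1 : (k : ℝ) < 1 := by
      by_contra hcon
      push Not at hcon
      nlinarith
    have hk2 : (-1 : ℝ) < k := by
      by_contra hcon
      push Not at hcon
      nlinarith
    have hk1' : k < 1 := by exact_mod_cast hk1
    have hk2' : -1 < k := by exact_mod_cast hk2
    omega
  rw [hk0] at hk
  simp only [Int.cast_zero, mul_zero] at hk
  exact ⟨h2.1.le, by linarith [h4.1], h1.1, h1.2⟩

/-- Phragmén–Lindelöf in a sector of opening less than `π`. -/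
lemma pl_sector {g : ℂ → ℂ} (hg : ExpType g) {z1 q : ℂ} (hq : 0 < q.im) {C : ℝ}
    (h1 : ∀ r : ℝ, 0 ≤ r → ‖g (r * z1)‖ ≤ C) (h2 : ∀ r : ℝ, 0 ≤ r → ‖g (r * (z1 * q))‖ ≤ C)
    {r : ℝ} (hr : 0 ≤ r) : ‖g (r * (z1 * (1 + q)))‖ ≤ C := by
  rcases eq_or_lt_of_le hr with rfl | hr
  · simpa using h1 0 le_rfl
  obtain ⟨hd, A, B, hAB⟩ := hg
  obtain ⟨a1, a2, a3, a4⟩ := arg_one_add hq
  have hq0 : q ≠ 0 := by
    rintro rfl
    simp at hq
  have hw0 : (r : ℂ) * (1 + q) ≠ 0 := by
    apply mul_ne_zero (by exact_mod_cast hr.ne')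
    intro h
    have := congrArg Complex.im h
    simp at this
    linarith
  have harg : ((r : ℂ) * (1 + q)).arg = (1 + q).arg := Complex.arg_real_mul _ hr
  have key := PhragmenLindelof.horizontal_strip (f := fun ζ => g (z1 * Complex.exp ζ)) (C := C)
    (a := 0) (b := q.arg) (z := Complex.log (r * (1 + q)))
    (by
      apply Differentiable.diffContOnCl
      fun_prop)
    (by
      refine ⟨1, ?_, |B| * ‖z1‖, ?_⟩
      · rw [sub_zero, lt_div_iff₀ a3]
        linarith
      · refine Asymptotics.IsBigO.of_bound |A| (Eventually.of_forall fun ζ => ?_)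
        rw [Real.norm_eq_abs (Real.exp _), abs_of_pos (Real.exp_pos _), one_mul]
        refine (hAB _).trans ?_
        rw [norm_mul, Complex.norm_exp]
        have e1 : Real.exp ζ.re ≤ Real.exp |ζ.re| := Real.exp_le_exp.2 (le_abs_self _)
        calc A * Real.exp (B * (‖z1‖ * Real.exp ζ.re))
            ≤ |A| * Real.exp (|B| * (‖z1‖ * Real.exp |ζ.re|)) := by
              apply mul_le_mul (le_abs_self A) _ (Real.exp_pos _).le (abs_nonneg A)
              apply Real.exp_le_exp.2
              apply mul_le_mul (le_abs_self B) _ (by positivity) (abs_nonneg B)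
              gcongr
          _ = _ := by rw [mul_assoc])
    (by
      intro ζ hζ
      have e1 : Complex.exp ζ = (Real.exp ζ.re : ℂ) := by
        have : ζ = (ζ.re : ℂ) := by
          apply Complex.ext <;> simp [hζ]
        rw [this]
        simp
      rw [e1, mul_comm]
      exact h1 _ (Real.exp_pos _).le)
    (by
      intro ζ hζ
      have e1 : Complex.exp ζ = ((Real.exp ζ.re / ‖q‖ : ℝ) : ℂ) * q := by
        have e2 : ζ = (ζ.re : ℂ) + q.arg * Complex.I := by
          rw [← hζ, Complex.re_add_im]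
        have e3 := Complex.norm_mul_exp_arg_mul_I q
        have hqn : (‖q‖ : ℂ) ≠ 0 := by exact_mod_cast (norm_pos_iff.2 hq0).ne'
        have e4 : Complex.exp (q.arg * Complex.I) = q / ‖q‖ := by
          rw [eq_div_iff hqn, mul_comm]
          exact e3
        conv_lhs => rw [e2, Complex.exp_add]
        rw [e4]
        push_cast
        field_simp
      rw [e1, mul_left_comm]
      exact h2 _ (by positivity))
    (by rw [Complex.log_im, harg]; exact a1)
    (by rw [Complex.log_im, harg]; exact a2)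
  simp only [Complex.exp_log hw0] at key
  rwa [mul_left_comm] at key

/-- The homogeneous extension of the indicator. -/
noncomputable def HH (h : ℝ → ℝ) (z : ℂ) : ℝ := ‖z‖ * h z.arg

section

variable {f : ℂ → ℂ} {h : ℝ → ℝ} (hf : ExpType f) (hi : ∀ θ, indicator f θ = (h θ : EReal))

include hi

lemma h_eq {θ θ' : ℝ} (he : Complex.exp (θ * Complex.I) = Complex.exp (θ' * Complex.I)) :
    h θ = h θ' := by
  have h1 : indicator f θ = indicator f θ' := by
    unfold indicator
    rw [he]
  rw [hi, hi] at h1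
  exact_mod_cast h1

omit hi in
lemma HH_zero : HH h 0 = 0 := by simp [HH]

omit hi in
lemma HH_smul (t : ℝ) (z : ℂ) (ht : 0 ≤ t) : HH h (t * z) = t * HH h z := by
  rcases eq_or_lt_of_le ht with rfl | ht
  · simp [HH]
  · unfold HH
    rw [Complex.arg_real_mul z ht, norm_mul, Complex.norm_real, Real.norm_of_nonneg ht.le]
    ring

lemma HH_exp (θ : ℝ) : HH h (Complex.exp (θ * Complex.I)) = h θ := by
  unfold HH
  rw [Complex.norm_exp_ofReal_mul_I, one_mul]
  apply h_eq hi
  have h1 := Complex.norm_mul_exp_arg_mul_I (Complex.exp (θ * Complex.I))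
  rwa [Complex.norm_exp_ofReal_mul_I, Complex.ofReal_one, one_mul] at h1

lemma HH_upper {z : ℂ} (hz : z ≠ 0) {ε : ℝ} (hε : 0 < ε) :
    ∀ᶠ r : ℝ in atTop, ‖f (r * z)‖ ≤ Real.exp (r * (HH h z + ε)) := by
  have hz0 : 0 < ‖z‖ := norm_pos_iff.2 hz
  have h1 := eventually_le_of_indicator (hi z.arg) (show 0 < ε / ‖z‖ by positivity)
  have h2 : Tendsto (fun r : ℝ => r * ‖z‖) atTop atTop := tendsto_id.atTop_mul_const hz0
  filter_upwards [h2.eventually h1] with r hr
  have e1 : (((r * ‖z‖ : ℝ) : ℂ) * Complex.exp (z.arg * Complex.I)) = r * z := by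
    push_cast
    rw [mul_assoc, Complex.norm_mul_exp_arg_mul_I]
  rw [e1] at hr
  refine hr.trans (Real.exp_le_exp.2 (le_of_eq ?_))
  unfold HH
  field_simp

lemma HH_le {z : ℂ} (hz : z ≠ 0) {c : ℝ}
    (hc : ∀ᶠ r : ℝ in atTop, ‖f (r * z)‖ ≤ Real.exp (r * c)) : HH h z ≤ c := by
  have hz0 : 0 < ‖z‖ := norm_pos_iff.2 hz
  have h1 : indicator f z.arg ≤ ((c / ‖z‖ : ℝ) : EReal) := by
    apply indicator_le
    have h2 : Tendsto (fun r : ℝ => r / ‖z‖) atTop atTop := tendsto_id.atTop_div_const hz0
    filter_upwards [h2.eventually hc] with r hr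
    have e1 : ((r / ‖z‖ : ℝ) : ℂ) * z = r * Complex.exp (z.arg * Complex.I) := by
      have hz1 : (‖z‖ : ℂ) ≠ 0 := by exact_mod_cast hz0.ne'
      have e4 : Complex.exp (z.arg * Complex.I) = z / ‖z‖ := by
        rw [eq_div_iff hz1, mul_comm]
        exact Complex.norm_mul_exp_arg_mul_I z
      rw [e4]
      push_cast
      field_simp
    rw [e1] at hr
    refine hr.trans (Real.exp_le_exp.2 (le_of_eq ?_))
    field_simp
  rw [hi, EReal.coe_le_coe_iff, le_div_iff₀ hz0] at h1
  unfold HH
  linarith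

include hf

/-- Subadditivity for independent directions. -/
lemma HH_add_of_im_pos {z1 q : ℂ} (hz1 : z1 ≠ 0) (hq : 0 < q.im) :
    HH h (z1 * (1 + q)) ≤ HH h z1 + HH h (z1 * q) := by
  have hq0 : q ≠ 0 := by
    rintro rfl
    simp at hq
  have hq1 : 1 + q ≠ 0 := by
    intro h'
    have := congrArg Complex.im h'
    simp at this
    linarith
  apply le_of_forall_pos_le_add
  intro ε hε
  -- the exponential
  obtain ⟨l, hl1, hl2⟩ : ∃ l : ℂ, (l * z1).re = HH h z1 + ε / 3 ∧
      (l * (z1 * q)).re = HH h (z1 * q) + ε / 3 := by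
    set A := HH h z1 + ε / 3
    set B := HH h (z1 * q) + ε / 3
    refine ⟨((A : ℂ) + (A * q.re - B) / q.im * Complex.I) / z1, ?_, ?_⟩
    · rw [div_mul_cancel₀ _ hz1]
      have : ((A : ℂ) + (A * q.re - B) / q.im * Complex.I) =
          ((A : ℝ) : ℂ) + (((A * q.re - B) / q.im : ℝ) : ℂ) * Complex.I := by push_cast; ring
      rw [this]
      simp
    · rw [← mul_assoc, div_mul_cancel₀ _ hz1]
      have : ((A : ℂ) + (A * q.re - B) / q.im * Complex.I) =
          ((A : ℝ) : ℂ) + (((A * q.re - B) / q.im : ℝ) : ℂ) * Complex.I := by push_cast; ring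
      rw [this, Complex.mul_re]
      simp only [Complex.add_re, Complex.ofReal_re, Complex.mul_re, Complex.I_re, mul_zero,
        Complex.ofReal_im, Complex.I_im, mul_one, sub_self, add_zero, Complex.add_im,
        Complex.mul_im, zero_add]
      field_simp
      ring
  set g : ℂ → ℂ := fun z => Complex.exp (-(l * z)) * f z with hg
  obtain ⟨hd, A, B, hAB⟩ := id hf
  have hgE : ExpType g := by
    refine ⟨by rw [hg]; fun_prop, A, B + ‖l‖, fun z => ?_⟩
    rw [hg]
    simp only
    rw [norm_mul, Complex.norm_exp, Complex.neg_re]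
    have h1 : -(l * z).re ≤ ‖l‖ * ‖z‖ := by
      have := Complex.abs_re_le_norm (l * z)
      rw [norm_mul] at this
      linarith [neg_abs_le (l * z).re]
    calc Real.exp (-(l * z).re) * ‖f z‖
        ≤ Real.exp (‖l‖ * ‖z‖) * (A * Real.exp (B * ‖z‖)) := by
          apply mul_le_mul (Real.exp_le_exp.2 h1) (hAB z) (norm_nonneg _) (Real.exp_pos _).le
      _ = A * Real.exp ((B + ‖l‖) * ‖z‖) := by
          rw [mul_left_comm, ← Real.exp_add]
          congr 2
          ring
  -- boundedness on rays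
  have hray : ∀ z : ℂ, z ≠ 0 → (l * z).re = HH h z + ε / 3 →
      ∃ C : ℝ, ∀ r : ℝ, 0 ≤ r → ‖g (r * z)‖ ≤ C := by
    intro z hz hlz
    have h1 := HH_upper hi hz (show 0 < ε / 3 by positivity)
    obtain ⟨R, hR⟩ := h1.exists_forall_of_atTop
    obtain ⟨M, hM0, hM⟩ := exists_bound hgE.1 0 (|R| * ‖z‖)
    refine ⟨max M 1, fun r hr => ?_⟩
    rcases le_total R r with h2 | h2
    · refine le_max_of_le_right ?_
      have h3 := hR r h2
      rw [hg]
      simp only
      rw [norm_mul, Complex.norm_exp, Complex.neg_re]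
      have h4 : (l * (r * z)).re = r * (HH h z + ε / 3) := by
        rw [← hlz, mul_left_comm, Complex.re_ofReal_mul]
      rw [h4]
      calc Real.exp (-(r * (HH h z + ε / 3))) * ‖f (r * z)‖
          ≤ Real.exp (-(r * (HH h z + ε / 3))) * Real.exp (r * (HH h z + ε / 3)) := by gcongr
        _ = 1 := by rw [← Real.exp_add, neg_add_cancel, Real.exp_zero]
    · refine le_max_of_le_left (hM _ ?_)
      rw [mem_closedBall_zero_iff, norm_mul, Complex.norm_real, Real.norm_of_nonneg hr]
      gcongr
      exact h2.trans (le_abs_self R)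
  obtain ⟨C1, hC1⟩ := hray z1 hz1 hl1
  obtain ⟨C2, hC2⟩ := hray (z1 * q) (mul_ne_zero hz1 hq0) hl2
  apply HH_le hi (mul_ne_zero hz1 hq1)
  set C := max (max C1 C2) 1 with hC
  have hCpos : 0 < C := lt_of_lt_of_le one_pos (le_max_right _ _)
  filter_upwards [eventually_ge_atTop 0, eventually_ge_atTop (Real.log C / (ε / 3))] with r hr hr'
  have key := pl_sector hgE hq (C := C)
    (fun r hr => (hC1 r hr).trans ((le_max_left _ _).trans (le_max_left _ _)))
    (fun r hr => (hC2 r hr).trans ((le_max_right _ _).trans (le_max_left _ _))) hr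
  rw [hg] at key
  simp only at key
  rw [norm_mul, Complex.norm_exp, Complex.neg_re] at key
  have h4 : (l * (r * (z1 * (1 + q)))).re = r * (HH h z1 + HH h (z1 * q) + 2 * ε / 3) := by
    have h5 : l * (r * (z1 * (1 + q))) = r * (l * z1 + l * (z1 * q)) := by ring
    rw [h5, Complex.re_ofReal_mul, Complex.add_re, hl1, hl2]
    ring
  rw [h4, Real.exp_neg, inv_mul_le_iff₀ (Real.exp_pos _)] at key
  refine key.trans ?_
  have h6 : C ≤ Real.exp (r * (ε / 3)) := by
    rw [← Real.log_le_iff_le_exp hCpos]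
    rwa [div_le_iff₀ (by positivity)] at hr'
  calc Real.exp (r * (HH h z1 + HH h (z1 * q) + 2 * ε / 3)) * C
      ≤ Real.exp (r * (HH h z1 + HH h (z1 * q) + 2 * ε / 3)) * Real.exp (r * (ε / 3)) := by gcongr
    _ = _ := by
        rw [← Real.exp_add]
        congr 1
        ring

lemma HH_add_of_im_ne {z1 z2 : ℂ} (hz1 : z1 ≠ 0) (hz : (z2 / z1).im ≠ 0) :
    HH h (z1 + z2) ≤ HH h z1 + HH h z2 := by
  have hz2 : z2 ≠ 0 := by
    rintro rfl
    simp at hz
  rcases lt_or_gt_of_ne hz with hneg | hpos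
  · have h1 : 0 < (z1 / z2).im := by
      have h2 : z1 / z2 = (z2 / z1)⁻¹ := by rw [inv_div]
      rw [h2, Complex.inv_im]
      exact div_pos (by linarith) (Complex.normSq_pos.2 (div_ne_zero hz2 hz1))
    have h3 := HH_add_of_im_pos hf hi hz2 h1
    have e1 : z2 * (1 + z1 / z2) = z1 + z2 := by field_simp; ring
    have e2 : z2 * (z1 / z2) = z1 := by field_simp
    rw [e1, e2] at h3
    linarith
  · have h3 := HH_add_of_im_pos hf hi hz1 hpos
    have e1 : z1 * (1 + z2 / z1) = z1 + z2 := by field_simp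
    have e2 : z1 * (z2 / z1) = z2 := by field_simp
    rwa [e1, e2] at h3

/-- Subadditivity for directions which are not opposite. -/
lemma HH_add_of_not_opp {z1 z2 w : ℂ} (h1 : 0 < (z1 * w).re) (h2 : 0 < (z2 * w).re) :
    HH h (z1 + z2) ≤ HH h z1 + HH h z2 := by
  have hz1 : z1 ≠ 0 := by
    rintro rfl
    simp at h1
  by_cases him : (z2 / z1).im = 0
  · set t : ℝ := (z2 / z1).re with ht
    have e1 : z2 = t * z1 := by
      have e2 : z2 / z1 = t := by
        apply Complex.ext <;> simp [ht, him]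
      rw [← e2, div_mul_cancel₀ _ hz1]
    have ht0 : 0 < t := by
      rw [e1, mul_assoc, Complex.re_ofReal_mul] at h2
      by_contra hcon
      push Not at hcon
      have := mul_nonpos_of_nonpos_of_nonneg hcon h1.le
      linarith
    have e3 : z1 + z2 = ((1 + t : ℝ) : ℂ) * z1 := by
      rw [e1]; push_cast; ring
    rw [e3, HH_smul _ _ (by linarith), e1, HH_smul _ _ ht0.le]
    linarith
  · exact HH_add_of_im_ne hf hi hz1 him

lemma HH_continuousAt {z : ℂ} (hz : z ≠ 0) : ContinuousAt (HH h) z := by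
  set w : ℂ := (starRingEnd ℂ) z with hw
  have hopen : IsOpen {x : ℂ | 0 < (x * w).re} := isOpen_lt continuous_const (by fun_prop)
  have hconv : ConvexOn ℝ {x : ℂ | 0 < (x * w).re} (HH h) := by
    constructor
    · intro x hx y hy a b ha hb hab
      simp only [mem_ofPred_eq] at hx hy ⊢
      rw [add_mul, Complex.add_re, smul_mul_assoc, smul_mul_assoc, Complex.smul_re,
        Complex.smul_re, smul_eq_mul, smul_eq_mul]
      rcases eq_or_lt_of_le ha with rfl | ha
      · have : b = 1 := by linarith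
        rw [this]
        linarith
      · have := mul_pos ha hx
        have := mul_nonneg hb hy.le
        linarith
    · intro x hx y hy a b ha hb hab
      simp only [mem_ofPred_eq] at hx hy
      rw [Complex.real_smul, Complex.real_smul, smul_eq_mul, smul_eq_mul]
      rcases eq_or_lt_of_le ha with rfl | ha
      · have : b = 1 := by linarith
        rw [this]
        simp
      rcases eq_or_lt_of_le hb with rfl | hb
      · have : a = 1 := by linarith
        rw [this]
        simp
      have h3 := HH_add_of_not_opp hf hi (z1 := a * x) (z2 := b * y) (w := w)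
        (by rw [mul_assoc, Complex.re_ofReal_mul]; positivity)
        (by rw [mul_assoc, Complex.re_ofReal_mul]; positivity)
      rw [HH_smul _ _ ha.le, HH_smul _ _ hb.le] at h3
      exact h3
  refine (hconv.continuousOn hopen).continuousAt (hopen.mem_nhds ?_)
  simp only [mem_ofPred_eq, hw]
  rw [Complex.mul_conj, Complex.ofReal_re]
  exact Complex.normSq_pos.2 hz

lemma HH_bound : ∃ B : ℝ, ∀ z : ℂ, |HH h z| ≤ B * ‖z‖ := by
  obtain ⟨B, hB⟩ := (isCompact_sphere (0 : ℂ) 1).exists_bound_of_continuousOn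
    (f := HH h) (fun z hz => (HH_continuousAt hf hi (by
      rintro rfl
      simp at hz)).continuousWithinAt)
  refine ⟨B, fun z => ?_⟩
  rcases eq_or_ne z 0 with rfl | hz
  · simp [HH_zero]
  · have hz0 : 0 < ‖z‖ := norm_pos_iff.2 hz
    have hz1 : (‖z‖ : ℂ) ≠ 0 := by exact_mod_cast hz0.ne'
    have h1 := hB (z / ‖z‖) (by
      rw [mem_sphere_zero_iff_norm, norm_div, Complex.norm_real, norm_norm, div_self hz0.ne'])
    have h2 : HH h z = ‖z‖ * HH h (z / ‖z‖) := by
      rw [← HH_smul _ _ hz0.le]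
      congr 1
      field_simp
    rw [h2, abs_mul, abs_of_pos hz0, mul_comm]
    gcongr
    exact h1

lemma HH_opp {w : ℂ} (hw : w ≠ 0) : 0 ≤ HH h w + HH h (-w) := by
  obtain ⟨B, hB⟩ := HH_bound hf hi
  -- rotate `w` slightly
  have h1 : ∀ᶠ t : ℝ in 𝓝[>] 0, -(B * (|t| * ‖w‖)) ≤
      HH h (w * (1 + t * Complex.I)) + HH h (-w) := by
    filter_upwards [self_mem_nhdsWithin] with t ht
    have ht0 : (0 : ℝ) < t := ht
    have h2 := HH_add_of_im_ne hf hi (z1 := -w) (z2 := w * (1 + t * Complex.I))
      (neg_ne_zero.2 hw) (by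
        have : w * (1 + t * Complex.I) / -w = -(1 + t * Complex.I) := by field_simp
        rw [this]
        simp
        exact ht0.ne')
    have h3 := hB (-w + w * (1 + t * Complex.I))
    have h4 : -w + w * (1 + t * Complex.I) = t * (w * Complex.I) := by ring
    rw [h4] at h2 h3
    rw [norm_mul, norm_mul, Complex.norm_I, mul_one, Complex.norm_real, Real.norm_eq_abs] at h3
    have h5 := neg_abs_le (HH h (t * (w * Complex.I)))
    linarith
  have h2 : Tendsto (fun t : ℝ => HH h (w * (1 + t * Complex.I)) + HH h (-w)) (𝓝[>] 0)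
      (𝓝 (HH h w + HH h (-w))) := by
    have h3 : ContinuousAt (fun t : ℝ => HH h (w * (1 + t * Complex.I))) 0 := by
      have h4 : ContinuousAt (HH h) ((fun t : ℝ => w * (1 + t * Complex.I)) 0) := by
        apply HH_continuousAt hf hi
        simpa using hw
      have h5 : ContinuousAt (fun t : ℝ => w * (1 + t * Complex.I)) 0 := by fun_prop
      exact ContinuousAt.comp (f := fun t : ℝ => w * (1 + t * Complex.I)) h4 h5
    have h6 := h3.tendsto
    simp only [Complex.ofReal_zero, zero_mul, add_zero, mul_one] at h6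
    exact (h6.mono_left nhdsWithin_le_nhds).add_const _
  have h3 : Tendsto (fun t : ℝ => -(B * (|t| * ‖w‖))) (𝓝[>] 0) (𝓝 0) := by
    have h4 : Continuous (fun t : ℝ => -(B * (|t| * ‖w‖))) := by fun_prop
    have h5 := (h4.tendsto 0).mono_left (nhdsWithin_le_nhds (s := Ioi 0))
    simpa using h5
  exact le_of_tendsto_of_tendsto h3 h2 h1

theorem HH_subl : Subl (HH h) := by
  refine ⟨fun z w => ?_, fun t z ht => HH_smul t z ht⟩
  rcases eq_or_ne z 0 with rfl | hz
  · rw [zero_add, HH_zero, zero_add]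
  rcases eq_or_ne w 0 with rfl | hw
  · rw [add_zero, HH_zero, add_zero]
  by_cases him : (w / z).im = 0
  · set t : ℝ := (w / z).re with ht
    have e1 : w = t * z := by
      have e2 : w / z = t := by
        apply Complex.ext <;> simp [ht, him]
      rw [← e2, div_mul_cancel₀ _ hz]
    rcases le_total 0 t with h0 | h0
    · have e3 : z + w = ((1 + t : ℝ) : ℂ) * z := by
        rw [e1]; push_cast; ring
      rw [e3, HH_smul _ _ (by linarith), e1, HH_smul _ _ h0]
      linarith
    · have hopp := HH_opp hf hi hz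
      have e4 : w = ((-t : ℝ) : ℂ) * (-z) := by rw [e1]; push_cast; ring
      have e5 : HH h w = (-t) * HH h (-z) := by
        rw [e4, HH_smul _ _ (by linarith)]
      rcases le_total 0 (1 + t) with h2 | h2
      · have e3 : z + w = ((1 + t : ℝ) : ℂ) * z := by
          rw [e1]; push_cast; ring
        rw [e3, HH_smul _ _ h2, e5]
        nlinarith
      · have e3 : z + w = ((-(1 + t) : ℝ) : ℂ) * (-z) := by
          rw [e1]; push_cast; ring
        rw [e3, HH_smul _ _ (by linarith), e5]
        nlinarith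
  · exact HH_add_of_im_ne hf hi hz him

end

end Pool.Agent.Work.MP_8d04b0_an
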