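import Mathlib
import Pool.Agent.Work.MP_8d04b0_an.Sector
import Pool.Agent.Work.MP_8d04b0_an.GoodDir
import Pool.Agent.Work.MP_8d04b0_an.Hopf

set_option autoImplicit false

open Metric Set Filter Topology MeasureTheory

namespace Pool.Agent.Work.MP_8d04b0_an

lemma avoid_seq (x s : ℕ → ℝ) (hs : ∀ j, 0 ≤ s j) (J : ℕ → Prop) [DecidablePred J] {a b σ : ℝ}
    (hσ : (∑' j, if J j then ENNReal.ofReal (s j) else 0) ≤ ENNReal.ofReal σ)
    (hab : 2 * σ < b - a) (hab' : a < b) : ∃ t ∈ Icc a b, ∀ j, J j → s j ≤ |t - x j| := by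
  by_contra hcon
  push Not at hcon
  have h1 : Icc a b ⊆ ⋃ j : ℕ, (if J j then Ioo (x j - s j) (x j + s j) else ∅) := by
    intro t ht
    obtain ⟨j, hj, hj'⟩ := hcon t ht
    rw [mem_iUnion]
    refine ⟨j, ?_⟩
    rw [if_pos hj]
    rw [abs_lt] at hj'
    exact ⟨by linarith, by linarith⟩
  have h2 := (measure_mono (μ := volume) h1).trans (measure_iUnion_le _)
  have h3 : ∀ j, volume (if J j then Ioo (x j - s j) (x j + s j) else ∅) =
      2 * (if J j then ENNReal.ofReal (s j) else 0) := by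
    intro j
    split_ifs
    · rw [Real.volume_Ioo, show x j + s j - (x j - s j) = 2 * s j by ring,
        ENNReal.ofReal_mul (by norm_num)]
      norm_num
    · simp
  simp_rw [h3] at h2
  rw [ENNReal.tsum_mul_left, Real.volume_Icc] at h2
  have h4 : ENNReal.ofReal (b - a) ≤ ENNReal.ofReal (2 * σ) := by
    refine h2.trans ?_
    rw [ENNReal.ofReal_mul (by norm_num)]
    refine (mul_le_mul_right hσ 2).trans (le_of_eq ?_)
    norm_num
  rcases le_total 0 σ with h0 | h0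
  · rw [ENNReal.ofReal_le_ofReal_iff (by linarith)] at h4
    linarith
  · rw [ENNReal.ofReal_of_nonpos (by linarith : 2 * σ ≤ 0)] at h4
    rw [nonpos_iff_eq_zero, ENNReal.ofReal_eq_zero] at h4
    linarith

section

variable {c : ℕ → ℂ} {ρ : ℕ → ℝ}

/-- Quantitative form of the zero density of the exceptional set. -/
lemma density_small (hd : Tendsto (fun R : ℝ => (∑' j, if ‖c j‖ < R then ENNReal.ofReal (ρ j) else 0) /
        ENNReal.ofReal R) atTop (𝓝 0)) {η : ℝ} (hη : 0 < η) :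
    ∃ R0 : ℝ, 0 < R0 ∧ ∀ R : ℝ, R0 ≤ R →
      (∑' j, if ‖c j‖ < R then ENNReal.ofReal (ρ j) else 0) ≤ ENNReal.ofReal (η * R) := by
  rw [ENNReal.tendsto_nhds_zero] at hd
  obtain ⟨R0, hR0⟩ := (hd (ENNReal.ofReal η) (by simpa using hη)).exists_forall_of_atTop
  refine ⟨max R0 1, by positivity, fun R hR => ?_⟩
  have hR1 : 0 < R := lt_of_lt_of_le one_pos ((le_max_right _ _).trans hR)
  have h1 := hR0 R ((le_max_left _ _).trans hR)
  rw [ENNReal.div_le_iff (by simpa using hR1) ENNReal.ofReal_ne_top] at h1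
  rwa [ENNReal.ofReal_mul hη.le]

/-- Points of norm at most `2 R` avoid the exceptional discs centred far away. -/
lemma far_discs (hd : Tendsto (fun R : ℝ => (∑' j, if ‖c j‖ < R then ENNReal.ofReal (ρ j) else 0) /
        ENNReal.ofReal R) atTop (𝓝 0)) :
    ∃ R0 : ℝ, 0 < R0 ∧ ∀ R : ℝ, R0 ≤ R → ∀ j, 4 * R ≤ ‖c j‖ → ∀ z : ℂ, ‖z‖ ≤ 2 * R →
      z ∉ ball (c j) (ρ j) := by
  obtain ⟨R0, hR0, h⟩ := density_small hd (show (0 : ℝ) < 1 / 4 by norm_num)
  refine ⟨R0, hR0, fun R hR j hj z hz hmem => ?_⟩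
  have h1 := h (2 * ‖c j‖) (by linarith)
  have h2 : ENNReal.ofReal (ρ j) ≤ ENNReal.ofReal (1 / 4 * (2 * ‖c j‖)) := by
    refine le_trans ?_ h1
    have h3 := ENNReal.le_tsum (f := fun j' => if ‖c j'‖ < 2 * ‖c j‖ then
      ENNReal.ofReal (ρ j') else 0) j
    rwa [if_pos (by linarith)] at h3
  rw [ENNReal.ofReal_le_ofReal_iff (by positivity)] at h2
  rw [mem_ball, dist_eq_norm] at hmem
  have h3 := norm_sub_norm_le (c j) z
  rw [norm_sub_rev] at h3
  linarith

variable {f : ℂ → ℂ} {h : ℝ → ℝ}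

lemma upper_of_crg (hf : ExpType f) (hi : ∀ θ, indicator f θ = (h θ : EReal))
    (hρ : ∀ j, 0 ≤ ρ j)
    (hd : Tendsto (fun R : ℝ => (∑' j, if ‖c j‖ < R then ENNReal.ofReal (ρ j) else 0) /
        ENNReal.ofReal R) atTop (𝓝 0))
    (hc : ∀ ε : ℝ, 0 < ε → ∃ R : ℝ, ∀ r θ : ℝ, R < r →
        (∀ j, (r * Complex.exp (θ * Complex.I) : ℂ) ∉ Metric.ball (c j) (ρ j)) →
          f (r * Complex.exp (θ * Complex.I)) ≠ 0 ∧
            |Real.log ‖f (r * Complex.exp (θ * Complex.I))‖ / r - h θ| < ε) :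
    Upper f (HH h) := by
  have hH : Subl (HH h) := HH_subl hf hi
  obtain ⟨L, hL, hb, hlip⟩ := hH.exists_lipschitz
  intro ε hε
  obtain ⟨x, hx, hx'⟩ := exists_small_mul hL.le (half_pos hε)
  set δ : ℝ := min x (1 / 2) with hδ
  have hδ0 : 0 < δ := by positivity
  have hδ1 : δ ≤ 1 / 2 := min_le_right _ _
  have hδ2 : L * δ ≤ ε / 2 := by
    refine le_trans ?_ hx'
    gcongr
    exact min_le_left _ _
  obtain ⟨R1, hR1⟩ := hc (ε / 4) (by positivity)
  obtain ⟨R2, hR2, hR2'⟩ := density_small hd (show 0 < δ / 16 by positivity)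
  obtain ⟨R3, hR3, hR3'⟩ := far_discs hd
  refine ⟨max (max 1 (2 * R1 + 1)) (max R2 R3), by positivity, fun z hz => ?_⟩
  set R := ‖z‖ with hR
  have g1 : 1 ≤ R := (le_max_left _ _).trans ((le_max_left _ _).trans hz)
  have g2 : 2 * R1 + 1 ≤ R := (le_max_right _ _).trans ((le_max_left _ _).trans hz)
  have g3 : R2 ≤ R := (le_max_left _ _).trans ((le_max_right _ _).trans hz)
  have g4 : R3 ≤ R := (le_max_right _ _).trans ((le_max_right _ _).trans hz)
  have hRpos : 0 < R := by linarith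
  have hδR : 0 < δ * R := by positivity
  classical
  obtain ⟨t, ht, ht'⟩ := avoid_seq (fun j => ‖c j - z‖) ρ hρ (fun j => ‖c j‖ < 4 * R)
    (a := 0) (b := δ * R) (σ := δ / 16 * (4 * R)) (hR2' (4 * R) (by linarith)) (by linarith) hδR
  have hcirc : ∀ w : ℂ, ‖w - z‖ = t → ‖f w‖ ≤ Real.exp (HH h z + ε * R) := by
    intro w hw
    have hw1 : ‖w‖ ≤ (1 + δ) * R := by
      have := norm_add_le (w - z) z
      rw [sub_add_cancel, hw] at this
      linarith [ht.2]
    have hw2 : (1 - δ) * R ≤ ‖w‖ := by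
      have := norm_sub_norm_le z w
      rw [norm_sub_rev, hw] at this
      linarith [ht.2]
    have hw3 : R / 2 ≤ ‖w‖ := by nlinarith
    have hw4 : ‖w‖ ≤ 2 * R := by nlinarith
    have hav : ∀ j, w ∉ ball (c j) (ρ j) := by
      intro j hmem
      rcases lt_or_ge ‖c j‖ (4 * R) with hj | hj
      · have h1 := ht' j hj
        rw [mem_ball, dist_eq_norm] at hmem
        have h2 : |t - ‖c j - z‖| ≤ ‖w - c j‖ := by
          have h3 := abs_norm_sub_norm_le (w - z) (c j - z)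
          rw [hw, sub_sub_sub_cancel_right] at h3
          exact h3
        linarith
      · exact hR3' R g4 j hj w hw4 hmem
    have hwne : w ≠ 0 := by
      rintro rfl
      rw [norm_zero] at hw3
      linarith
    have h4 := hR1 ‖w‖ w.arg (by linarith) (by rw [Complex.norm_mul_exp_arg_mul_I]; exact hav)
    rw [Complex.norm_mul_exp_arg_mul_I] at h4
    obtain ⟨hne, hlog⟩ := h4
    have hwn : 0 < ‖w‖ := norm_pos_iff.2 hwne
    have hfw : 0 < ‖f w‖ := norm_pos_iff.2 hne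
    rw [abs_lt] at hlog
    have h5 : Real.log ‖f w‖ ≤ HH h w + ε / 4 * ‖w‖ := by
      have h6 := hlog.2
      have h7 : Real.log ‖f w‖ / ‖w‖ < h w.arg + ε / 4 := by linarith
      rw [div_lt_iff₀ hwn] at h7
      unfold HH
      linarith
    rw [Real.log_le_iff_le_exp hfw] at h5
    refine h5.trans (Real.exp_le_exp.2 ?_)
    have h6 := hlip w z
    rw [hw] at h6
    have h7 : L * t ≤ L * (δ * R) := by
      gcongr
      exact ht.2
    have h8 : L * δ * R ≤ ε / 2 * R := by gcongr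
    have h9 : ε / 4 * ‖w‖ ≤ ε / 4 * (2 * R) := by gcongr
    linarith
  rcases eq_or_lt_of_le ht.1 with h0 | h0
  · exact hcirc z (by rw [sub_self, norm_zero, h0])
  · refine Complex.norm_le_of_forall_mem_frontier_norm_le (U := ball z t) isBounded_ball
      hf.1.diffContOnCl (fun w hw => ?_) (subset_closure (mem_ball_self h0))
    rw [frontier_ball _ h0.ne', mem_sphere, dist_eq_norm] at hw
    exact hcirc w hw

lemma reg_of_crg (hf : ExpType f) (hi : ∀ θ, indicator f θ = (h θ : EReal))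
    (hρ : ∀ j, 0 ≤ ρ j)
    (hd : Tendsto (fun R : ℝ => (∑' j, if ‖c j‖ < R then ENNReal.ofReal (ρ j) else 0) /
        ENNReal.ofReal R) atTop (𝓝 0))
    (hc : ∀ ε : ℝ, 0 < ε → ∃ R : ℝ, ∀ r θ : ℝ, R < r →
        (∀ j, (r * Complex.exp (θ * Complex.I) : ℂ) ∉ Metric.ball (c j) (ρ j)) →
          f (r * Complex.exp (θ * Complex.I)) ≠ 0 ∧
            |Real.log ‖f (r * Complex.exp (θ * Complex.I))‖ / r - h θ| < ε)
    {u : ℂ} (hu : u ≠ 0) : Reg f (HH h) u := by
  have hH : Subl (HH h) := HH_subl hf hi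
  obtain ⟨L, hL, hb, hlip⟩ := hH.exists_lipschitz
  have hun : 0 < ‖u‖ := norm_pos_iff.2 hu
  have hunc : (‖u‖ : ℂ) ≠ 0 := by exact_mod_cast hun.ne'
  intro ε hε δ0 hδ0
  obtain ⟨x, hx, hx'⟩ := exists_small_mul hL.le (half_pos hε)
  set δ : ℝ := min (min x δ0) ‖u‖ with hδ
  have hδ0' : 0 < δ := by positivity
  have hδ1 : δ ≤ ‖u‖ := min_le_right _ _
  have hδ3 : δ ≤ δ0 := (min_le_left _ _).trans (min_le_right _ _)
  have hδ2 : L * δ ≤ ε / 2 := by
    refine le_trans ?_ hx'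
    gcongr
    exact (min_le_left _ _).trans (min_le_left _ _)
  obtain ⟨R1, hR1⟩ := hc (ε / (4 * ‖u‖)) (by positivity)
  obtain ⟨R2, hR2, hR2'⟩ := density_small hd (show 0 < δ / (16 * ‖u‖) by positivity)
  obtain ⟨R3, hR3, hR3'⟩ := far_discs hd
  refine ⟨max 1 (max (|R1| + 1) (max R2 R3) / ‖u‖), fun r hr => ?_⟩
  have g1 : 1 ≤ r := (le_max_left _ _).trans hr
  have g0 : max (|R1| + 1) (max R2 R3) ≤ r * ‖u‖ := by
    have := (le_max_right _ _).trans hr
    rwa [div_le_iff₀ hun] at this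
  set R := r * ‖u‖ with hR
  have g2 : |R1| + 1 ≤ R := (le_max_left _ _).trans g0
  have g3 : R2 ≤ R := (le_max_left _ _).trans ((le_max_right _ _).trans g0)
  have g4 : R3 ≤ R := (le_max_right _ _).trans ((le_max_right _ _).trans g0)
  have hr0 : 0 < r := by linarith
  have hRpos : 0 < R := by positivity
  have hδr : 0 < δ * r := by positivity
  set e : ℂ := u / ‖u‖ with he
  have hen : ‖e‖ = 1 := by
    rw [he, norm_div, Complex.norm_real, norm_norm, div_self hun.ne']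
  classical
  obtain ⟨t, ht, ht'⟩ := avoid_seq (fun j => (c j * (starRingEnd ℂ) e).re) ρ hρ
    (fun j => ‖c j‖ < 4 * R) (a := R) (b := R + δ * r) (σ := δ / (16 * ‖u‖) * (4 * R))
    (hR2' (4 * R) (by linarith))
    (by
      have : 2 * (δ / (16 * ‖u‖) * (4 * R)) = δ * r / 2 := by
        rw [hR]
        field_simp
        ring
      rw [this]
      linarith) (by linarith)
  have ht0 : 0 < t := hRpos.trans_le ht.1
  set z : ℂ := t * e with hz
  have hzn : ‖z‖ = t := by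
    rw [hz, norm_mul, hen, mul_one, Complex.norm_real, Real.norm_of_nonneg ht0.le]
  have hz2R : ‖z‖ ≤ 2 * R := by
    rw [hzn]
    have : δ * r ≤ ‖u‖ * r := by gcongr
    linarith [ht.2]
  have hzru : ‖z - r * u‖ ≤ δ * r := by
    have h1 : z - r * u = ((t - R : ℝ) : ℂ) * e := by
      rw [hz, he, hR]
      push_cast
      field_simp
    rw [h1, norm_mul, hen, mul_one, Complex.norm_real, Real.norm_of_nonneg (by linarith [ht.1])]
    linarith [ht.2]
  have hav : ∀ j, z ∉ ball (c j) (ρ j) := by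
    intro j hmem
    rcases lt_or_ge ‖c j‖ (4 * R) with hj | hj
    · have h1 := ht' j hj
      rw [mem_ball, dist_eq_norm] at hmem
      have h4 : ((z - c j) * (starRingEnd ℂ) e).re = t - (c j * (starRingEnd ℂ) e).re := by
        rw [sub_mul, Complex.sub_re, hz, mul_assoc, Complex.mul_conj, Complex.normSq_eq_norm_sq,
          hen]
        simp
      have h5 := Complex.abs_re_le_norm ((z - c j) * (starRingEnd ℂ) e)
      rw [h4, norm_mul, RCLike.norm_conj, hen, mul_one] at h5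
      linarith
    · exact hR3' R g4 j hj z hz2R hmem
  refine ⟨z, hzru.trans (by gcongr), ?_⟩
  have h4 := hR1 ‖z‖ z.arg (by rw [hzn]; linarith [ht.1, le_abs_self R1])
    (by rw [Complex.norm_mul_exp_arg_mul_I]; exact hav)
  rw [Complex.norm_mul_exp_arg_mul_I] at h4
  obtain ⟨hne, hlog⟩ := h4
  have hzpos : 0 < ‖z‖ := by rw [hzn]; exact ht0
  have hfw : 0 < ‖f z‖ := norm_pos_iff.2 hne
  rw [abs_lt] at hlog
  have h5 : HH h z - ε / (4 * ‖u‖) * ‖z‖ ≤ Real.log ‖f z‖ := by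
    have h7 : h z.arg - ε / (4 * ‖u‖) < Real.log ‖f z‖ / ‖z‖ := by linarith [hlog.1]
    rw [lt_div_iff₀ hzpos] at h7
    unfold HH
    linarith
  rw [Real.le_log_iff_exp_le hfw] at h5
  refine le_trans (Real.exp_le_exp.2 ?_) h5
  have h6 := hlip (r * u) z
  rw [hH.smul r u hr0.le, norm_sub_rev] at h6
  have h7 : L * ‖z - r * u‖ ≤ L * (δ * r) := by gcongr
  have h8 : L * δ * r ≤ ε / 2 * r := by gcongr
  have h9 : ε / (4 * ‖u‖) * ‖z‖ ≤ ε / (4 * ‖u‖) * (2 * R) := by gcongr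
  have h10 : ε / (4 * ‖u‖) * (2 * R) = ε / 2 * r := by
    rw [hR]
    field_simp
    ring
  linarith

end

end Pool.Agent.Work.MP_8d04b0_an
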