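import Mathlib
import Pool.Agent.Work.MP_8d04b0_an.Borel
import Pool.Agent.Work.MP_8d04b0_an.FromCRG

set_option autoImplicit false

open Metric Set Filter Topology

namespace Pool.Agent.Work.MP_8d04b0_an

/-- Taylor coefficients of a function of exponential type grow geometrically. -/
lemma geomBdd_of_expType {f : ℂ → ℂ} (hf : ExpType f) :
    ∃ A τ : ℝ, GeomBdd (fun k => iteratedDeriv k f 0) A τ := by
  obtain ⟨hd, A, B, hAB⟩ := hf
  have hb : ∀ z, ‖f z‖ ≤ (|A| + 1) * Real.exp ((|B| + 1) * ‖z‖) := by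
    intro z
    refine (hAB z).trans ?_
    have h1 : A ≤ |A| + 1 := by linarith [le_abs_self A]
    have h2 : B * ‖z‖ ≤ (|B| + 1) * ‖z‖ := by
      apply mul_le_mul_of_nonneg_right _ (norm_nonneg z)
      linarith [le_abs_self B]
    apply mul_le_mul h1 (Real.exp_le_exp.2 h2) (Real.exp_pos _).le (by positivity)
  refine ⟨3 * (|A| + 1), 2 * (|B| + 1), by positivity, by positivity, fun n => ?_⟩
  refine (coef_bound hd (by positivity) (by positivity) hb n).trans ?_
  have h3 : (n : ℝ) + 1 ≤ 2 ^ n := by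
    have : n + 1 ≤ 2 ^ n := Nat.lt_two_pow_self
    exact_mod_cast this
  calc 3 * (|A| + 1) * ((n : ℝ) + 1) * (|B| + 1) ^ n ≤ 3 * (|A| + 1) * 2 ^ n * (|B| + 1) ^ n := by
        gcongr
    _ = 3 * (|A| + 1) * (2 * (|B| + 1)) ^ n := by
        rw [mul_pow]
        ring

/-- A large disc separating `w0` from a bounded subset of a half plane. -/
lemma disc_sep {w0 u : ℂ} (hu : u ≠ 0) {g : ℝ} (hg : 0 < g) (M : ℝ) :
    ∃ (l : ℂ) (S : ℝ), g < S ∧ ‖w0 - l‖ = S ∧ ∀ w : ℂ, ‖w - w0‖ ≤ M →
      ((w - w0) * u).re ≤ -(g * ‖u‖) → ‖w - l‖ ≤ S - g / 2 := by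
  have hun : 0 < ‖u‖ := norm_pos_iff.2 hu
  have hunc : (‖u‖ : ℂ) ≠ 0 := by exact_mod_cast hun.ne'
  set n : ℂ := (starRingEnd ℂ) u / ‖u‖ with hn
  have hnn : ‖n‖ = 1 := by
    rw [hn, norm_div, RCLike.norm_conj, Complex.norm_real, norm_norm, div_self hun.ne']
  set S : ℝ := M ^ 2 / g + 2 * g with hS
  have hS0 : 0 < S := by positivity
  have hSg : g < S := by
    have : 0 ≤ M ^ 2 / g := by positivity
    linarith
  refine ⟨w0 - S * n, S, hSg, ?_, ?_⟩
  · rw [sub_sub_cancel, norm_mul, hnn, mul_one, Complex.norm_real, Real.norm_of_nonneg hS0.le]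
  · intro w hw hre
    have h1 : ‖w - (w0 - S * n)‖ ^ 2 = ‖w - w0‖ ^ 2 + 2 * (S * ((w - w0) * u).re / ‖u‖) + S ^ 2 := by
      have h2 : w - (w0 - S * n) = (w - w0) + S * n := by ring
      rw [h2, ← Complex.normSq_eq_norm_sq, Complex.normSq_add, Complex.normSq_eq_norm_sq,
        Complex.normSq_eq_norm_sq, norm_mul, hnn, Complex.norm_real, Real.norm_of_nonneg hS0.le]
      have h3 : ((w - w0) * (starRingEnd ℂ) (S * n)).re = S * ((w - w0) * u).re / ‖u‖ := by
        have h4 : (w - w0) * (starRingEnd ℂ) (S * n) = ((S / ‖u‖ : ℝ) : ℂ) * ((w - w0) * u) := by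
          rw [hn, map_mul, map_div₀, Complex.conj_conj, Complex.conj_ofReal, Complex.conj_ofReal]
          push_cast
          field_simp
        rw [h4, Complex.re_ofReal_mul]
        ring
      rw [h3]
      ring
    have h5 : S * ((w - w0) * u).re / ‖u‖ ≤ -(S * g) := by
      rw [div_le_iff₀ hun]
      nlinarith
    have h6 : ‖w - w0‖ ^ 2 ≤ M ^ 2 := by
      have := norm_nonneg (w - w0)
      nlinarith
    have h7 : M ^ 2 ≤ S * g := by
      rw [hS, add_mul, div_mul_cancel₀ _ hg.ne']
      nlinarith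
    refine le_of_sq_le_sq ?_ (by linarith)
    rw [h1]
    nlinarith

/-- Pólya, easy inclusion: the Borel transform continues outside a disc missing a given point
outside of `DD H`. -/
theorem conjDiagram_subset {f : ℂ → ℂ} {H : ℂ → ℝ} (hH : Subl H) (hf : ExpType f)
    (hU : Upper f H) : conjDiagram f ⊆ DD H := by
  intro w0 hw0
  by_contra hcon
  simp only [DD, mem_ofPred_eq, not_forall, not_le] at hcon
  obtain ⟨u, hu⟩ := hcon
  have hu0 : u ≠ 0 := by
    rintro rfl
    rw [hH.zero] at hu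
    simp at hu
  have hun : 0 < ‖u‖ := norm_pos_iff.2 hu0
  obtain ⟨L, hL, hb, hlip⟩ := hH.exists_lipschitz
  set g : ℝ := ((w0 * u).re - H u) / ‖u‖ with hg
  have hg0 : 0 < g := div_pos (by linarith) hun
  have hgu : g * ‖u‖ = (w0 * u).re - H u := by rw [hg]; field_simp
  obtain ⟨l, S, hS, hw0l, hsep⟩ := disc_sep (w0 := w0) hu0 hg0 (L + ‖w0‖)
  have hDD : ∀ w ∈ DD H, ‖w - l‖ ≤ S - g / 2 := by
    intro w hw
    apply hsep w
    · exact (norm_sub_le _ _).trans (add_le_add (hH.norm_le_of_mem hb hw) le_rfl)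
    · rw [sub_mul, Complex.sub_re, hgu]
      linarith [hw u]
  have hHl : ∀ z, H z - (l * z).re ≤ (S - g / 2) * ‖z‖ := by
    intro z
    obtain ⟨w, hw, hws⟩ := hH.exists_support z
    rw [← hws, ← Complex.sub_re, ← sub_mul]
    refine (re_mul_le _ _).trans ?_
    have := hDD w hw
    gcongr
  set σ : ℝ := S - g / 3 with hσ
  have hσ0 : 0 < σ := by linarith
  set F : ℂ → ℂ := fun z => Complex.exp (-(l * z)) * f z with hF
  have hFd : Differentiable ℂ F := by
    have := hf.1
    rw [hF]; fun_prop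
  -- the growth of `F`
  obtain ⟨C, hC, hFb⟩ : ∃ C : ℝ, 0 < C ∧ ∀ z, ‖F z‖ ≤ C * Real.exp (σ * ‖z‖) := by
    obtain ⟨R, hR, hR'⟩ := hU (g / 6) (by positivity)
    obtain ⟨M, hM0, hM⟩ := exists_bound hFd 0 R
    refine ⟨M + 1, by linarith, fun z => ?_⟩
    have h1 : 1 ≤ Real.exp (σ * ‖z‖) := Real.one_le_exp (by positivity)
    rcases le_total R ‖z‖ with h | h
    · have h2 : ‖F z‖ ≤ Real.exp (σ * ‖z‖) := by
        rw [hF]
        simp only
        rw [norm_exp_neg_mul]
        calc Real.exp (-(l * z).re) * ‖f z‖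
            ≤ Real.exp (-(l * z).re) * Real.exp (H z + g / 6 * ‖z‖) := by
              gcongr
              exact hR' z h
          _ = Real.exp (H z - (l * z).re + g / 6 * ‖z‖) := by
              rw [← Real.exp_add]
              congr 1
              ring
          _ ≤ _ := by
              apply Real.exp_le_exp.2
              have := hHl z
              rw [hσ]
              linarith
      nlinarith
    · have h2 := hM z (by rwa [mem_closedBall_zero_iff])
      nlinarith
  have hcoef := coef_bound hFd hC hσ0 hFb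
  obtain ⟨A, τ, hA⟩ := geomBdd_of_expType hf
  have hK : closedBall l (S - g / 4) ∈
      {K : Set ℂ | IsClosed K ∧ Convex ℝ K ∧ ContinuesOutside f K} := by
    refine ⟨isClosed_closedBall, convex_closedBall _ _, ?_⟩
    refine ⟨fun w => ∑' n : ℕ, iteratedDeriv n F 0 / (w - l) ^ (n + 1), ?_, ?_⟩
    · refine (series_diff (C := 3 * C) (σ := σ) (T := S - g / 4) (by positivity) hσ0
        (by rw [hσ]; linarith) (fun n => hcoef n) l).mono ?_
      intro w hw
      rw [mem_compl_iff, mem_closedBall, dist_eq_norm, not_le] at hw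
      exact hw
    · refine ⟨‖l‖ + τ + ‖l‖, fun w _ hw => ?_⟩
      have hx : ‖l‖ + τ < ‖w - l‖ := by
        have := norm_sub_norm_le w l
        linarith
      have h1 := (borel_shift hA l hx).tsum_eq
      rw [sub_add_cancel] at h1
      unfold borel
      rw [← h1]
      refine tsum_congr fun n => ?_
      rw [hF, shB_eq hf.1]
  have h1 : w0 ∈ closedBall l (S - g / 4) := mem_sInter.1 hw0 _ hK
  rw [mem_closedBall, dist_eq_norm, hw0l] at h1
  linarith

/-- Pólya, hard inclusion. -/
theorem subset_of_continues {f : ℂ → ℂ} {H : ℂ → ℝ} (hf : ExpType f)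
    (hfH : ∀ z : ℂ, z ≠ 0 → ∀ c : ℝ,
      (∀ᶠ r : ℝ in atTop, ‖f (r * z)‖ ≤ Real.exp (r * c)) → H z ≤ c)
    {K : Set ℂ} (hKc : IsClosed K) (hKv : Convex ℝ K) (hK : ContinuesOutside f K) :
    DD H ⊆ K := by
  intro w0 hw0
  by_contra hw0K
  -- separation
  obtain ⟨u, c, hu0, hKu, hcu⟩ : ∃ (u : ℂ) (c : ℝ), u ≠ 0 ∧ (∀ w ∈ K, (w * u).re < c) ∧
      c < (w0 * u).re := by
    rcases K.eq_empty_or_nonempty with hemp | ⟨w1, hw1⟩
    · refine ⟨1, w0.re - 1, one_ne_zero, fun w hw => ?_, ?_⟩
      · rw [hemp] at hw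
        exact absurd hw (notMem_empty _)
      · rw [mul_one]
        linarith
    · obtain ⟨φ, c, h1, h2⟩ := geometric_hahn_banach_closed_point hKv hKc hw0K
      have hφ : ∀ w : ℂ, φ w = (w * ((φ 1 : ℂ) - (φ Complex.I : ℂ) * Complex.I)).re := by
        intro w
        have hw : w = w.re • (1 : ℂ) + w.im • Complex.I := by
          rw [Complex.real_smul, Complex.real_smul, mul_one, Complex.re_add_im]
        have e1 : φ w = w.re * φ 1 + w.im * φ Complex.I := by
          conv_lhs => rw [hw]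
          rw [map_add, map_smul, map_smul, smul_eq_mul, smul_eq_mul]
        rw [e1]
        simp [Complex.mul_re, Complex.mul_im]
      refine ⟨(φ 1 : ℂ) - (φ Complex.I : ℂ) * Complex.I, c, ?_, fun w hw => ?_, ?_⟩
      · intro h0
        have e1 := h1 w1 hw1
        rw [hφ, h0, mul_zero] at e1
        rw [hφ, h0, mul_zero] at h2
        linarith
      · rw [← hφ]
        exact h1 w hw
      · rw [← hφ]
        exact h2
  have hun : 0 < ‖u‖ := norm_pos_iff.2 hu0
  obtain ⟨G, hG, R0, hGR⟩ := hK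
  obtain ⟨A, τ, hA⟩ := geomBdd_of_expType hf
  have hApos := hA.1
  have hτpos := hA.2.1
  set a : ℕ → ℂ := fun k => iteratedDeriv k f 0 with ha
  set R : ℝ := |R0| + τ + 1 with hR
  have hR0 : R0 < R := by
    have := le_abs_self R0
    linarith
  have hRτ : τ + 1 ≤ R := by
    have := abs_nonneg R0
    linarith
  have hRpos : 0 < R := by linarith
  set g : ℝ := ((w0 * u).re - c) / ‖u‖ with hg
  have hg0 : 0 < g := div_pos (by linarith) hun
  have hgu : g * ‖u‖ = (w0 * u).re - c := by rw [hg]; field_simp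
  obtain ⟨l, S, hS, hw0l, hsep⟩ := disc_sep (w0 := w0) hu0 hg0 (R + ‖w0‖)
  have hout : ∀ w : ℂ, S - g / 2 < ‖w - l‖ → c < (w * u).re ∨ R < ‖w‖ := by
    intro w hw
    by_contra hcon
    push Not at hcon
    have h1 := hsep w ((norm_sub_le _ _).trans (add_le_add hcon.2 le_rfl)) (by
      rw [sub_mul, Complex.sub_re, hgu]
      linarith [hcon.1])
    linarith
  classical
  let Bt : ℂ → ℂ := fun w => if c < (w * u).re then G w else borel f w
  have hborel : ∀ w : ℂ, R < ‖w‖ → DifferentiableAt ℂ (borel f) w := by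
    intro w hw
    have h1 := series_diff (b := a) (C := A) (σ := τ) (T := R) hApos hτpos (by linarith)
      (fun n => (hA.2.2 n).trans (by
        have h2 : (1 : ℝ) ≤ n + 1 := by linarith [(Nat.cast_nonneg n : (0 : ℝ) ≤ n)]
        have h3 : 0 < A * τ ^ n := by positivity
        calc A * τ ^ n = A * 1 * τ ^ n := by ring
          _ ≤ A * (n + 1) * τ ^ n := by gcongr)) 0
    simp only [sub_zero] at h1
    exact h1.differentiableAt ((isOpen_lt continuous_const continuous_norm).mem_nhds hw)
  have hBt_big : ∀ w : ℂ, R < ‖w‖ → Bt w = borel f w := by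
    intro w hw
    simp only [Bt]
    split_ifs with h
    · exact hGR w (fun hwK => absurd (hKu w hwK) (not_lt.2 h.le)) (hR0.trans hw)
    · rfl
  have hBt : ∀ w : ℂ, S - g / 2 < ‖w - l‖ → DifferentiableAt ℂ Bt w := by
    intro w hw
    rcases hout w hw with h | h
    · have h1 : Bt =ᶠ[𝓝 w] G := by
        have hopen : IsOpen {x : ℂ | c < (x * u).re} := isOpen_lt continuous_const (by fun_prop)
        filter_upwards [hopen.mem_nhds h] with x hx
        simp only [Bt]
        rw [if_pos hx]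
      have h2 : DifferentiableAt ℂ G w :=
        hG.differentiableAt (hKc.isOpen_compl.mem_nhds
          (fun hwK => absurd (hKu w hwK) (not_lt.2 h.le)))
      exact h2.congr_of_eventuallyEq h1
    · have h1 : Bt =ᶠ[𝓝 w] borel f := by
        filter_upwards [(isOpen_lt continuous_const continuous_norm).mem_nhds h] with x hx
        exact hBt_big x hx
      exact (hborel w h).congr_of_eventuallyEq h1
  let Bh : ℂ → ℂ := fun v => if v = 0 then 0 else Bt (l + v⁻¹)
  let co : ℕ → ℂ := fun n => match n with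
    | 0 => 0
    | n + 1 => shB a l n
  let p : FormalMultilinearSeries ℂ ℂ ℂ := FormalMultilinearSeries.ofScalars ℂ co
  have hpc : ∀ n, p.coeff n = co n := fun n => FormalMultilinearSeries.coeff_ofScalars
  have hpow : HasFPowerSeriesAt Bh p 0 := by
    rw [hasFPowerSeriesAt_iff]
    have hpos : 0 < 1 / (‖l‖ + R) := by positivity
    filter_upwards [Metric.ball_mem_nhds (0 : ℂ) hpos] with v hv
    rw [mem_ball_zero_iff] at hv
    rw [zero_add]
    simp only [hpc, smul_eq_mul]
    rcases eq_or_ne v 0 with rfl | hv0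
    · have h1 : ∀ n : ℕ, (0 : ℂ) ^ n * co n = 0 := by
        intro n
        cases n with
        | zero => simp [co]
        | succ n => simp
      simp only [h1, Bh, if_true]
      exact hasSum_zero
    · have hvn : 0 < ‖v‖ := norm_pos_iff.2 hv0
      have hvi : ‖l‖ + R < ‖v⁻¹‖ := by
        rw [norm_inv, ← one_div, lt_one_div (by positivity) hvn]
        exact hv
      have h1 : R < ‖l + v⁻¹‖ := by
        have := norm_sub_norm_le v⁻¹ (-l)
        rw [norm_neg, sub_neg_eq_add, add_comm] at this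
        linarith
      have h2 : Bh v = ∑' k : ℕ, a k / (v⁻¹ + l) ^ (k + 1) := by
        simp only [Bh]
        rw [if_neg hv0, hBt_big _ h1, add_comm]
        rfl
      rw [h2]
      have h3 := borel_shift hA l (x := v⁻¹) (by linarith)
      have h4 : HasSum (fun n : ℕ => v ^ (n + 1) * co (n + 1))
          (∑' k : ℕ, a k / (v⁻¹ + l) ^ (k + 1)) := by
        refine h3.congr_fun ?_
        intro n
        simp only [co]
        rw [inv_pow, div_inv_eq_mul, mul_comm]
      have h5 := (hasSum_nat_add_iff (f := fun n : ℕ => v ^ n * co n) 1).1 h4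
      simpa [co] using h5
  set T : ℝ := S - g / 4 with hT
  have hT0 : 0 < T := by linarith
  have hBhd : DifferentiableOn ℂ Bh (closedBall 0 (1 / T)) := by
    intro v hv
    rw [mem_closedBall_zero_iff] at hv
    rcases eq_or_ne v 0 with rfl | hv0
    · exact hpow.differentiableAt.differentiableWithinAt
    · have hvn : 0 < ‖v‖ := norm_pos_iff.2 hv0
      have h1 : S - g / 2 < ‖(l + v⁻¹) - l‖ := by
        rw [add_sub_cancel_left, norm_inv, ← one_div]
        have : T ≤ 1 / ‖v‖ := by
          rw [le_one_div hT0 hvn]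
          exact hv
        linarith
      have h2 : DifferentiableAt ℂ (fun v : ℂ => Bt (l + v⁻¹)) v := by
        have h3 : DifferentiableAt ℂ (fun v : ℂ => l + v⁻¹) v := by
          fun_prop (disch := exact hv0)
        exact (hBt _ h1).comp v h3
      have h3 : Bh =ᶠ[𝓝 v] fun v : ℂ => Bt (l + v⁻¹) := by
        filter_upwards [isOpen_compl_singleton.mem_nhds hv0] with x hx
        have hx' : x ≠ 0 := hx
        simp only [Bh]
        rw [if_neg hx']
      exact (h2.congr_of_eventuallyEq h3).differentiableWithinAt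
  -- coefficient bound
  obtain ⟨C1, hC1, hcoef⟩ : ∃ C1 : ℝ, 0 ≤ C1 ∧ ∀ n, ‖shB a l n‖ ≤ C1 * T ^ (n + 1) := by
    have hr : 0 < 1 / T := by positivity
    set r' : NNReal := ⟨1 / T, hr.le⟩ with hr'
    have hr'c : (r' : ℝ) = 1 / T := rfl
    have h1 : HasFPowerSeriesOnBall Bh (cauchyPowerSeries Bh 0 r') 0 r' :=
      DifferentiableOn.hasFPowerSeriesOnBall (by rw [hr'c]; exact hBhd) hr
    have h2 : p = cauchyPowerSeries Bh 0 r' := hpow.eq_formalMultilinearSeries h1.hasFPowerSeriesAt
    refine ⟨(2 * Real.pi)⁻¹ * ∫ θ : ℝ in 0..2 * Real.pi, ‖Bh (circleMap 0 r' θ)‖, ?_, fun n => ?_⟩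
    · apply mul_nonneg (by positivity)
      apply intervalIntegral.integral_nonneg (by positivity)
      intro x _
      exact norm_nonneg _
    · have h3 := norm_cauchyPowerSeries_le Bh 0 r' (n + 1)
      rw [← h2, FormalMultilinearSeries.norm_apply_eq_norm_coef, hpc] at h3
      have h4 : |(r' : ℝ)|⁻¹ = T := by
        rw [hr'c, abs_of_pos hr, one_div, inv_inv]
      rw [h4] at h3
      exact h3
  -- growth of `exp (-l z) f z`
  have hgrow : ∀ z : ℂ, Real.exp (-(l * z).re) * ‖f z‖ ≤ C1 * T * Real.exp (T * ‖z‖) := by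
    intro z
    set F : ℂ → ℂ := fun z => Complex.exp (-(l * z)) * f z with hF
    have hFd : Differentiable ℂ F := by
      have := hf.1
      rw [hF]; fun_prop
    have h1 := Complex.hasSum_taylorSeries_of_entire hFd 0 z
    have h2 : ∀ n : ℕ, ‖((n.factorial : ℂ))⁻¹ • (z - 0) ^ n • iteratedDeriv n F 0‖ ≤
        C1 * T * ((T * ‖z‖) ^ n / n.factorial) := by
      intro n
      have h3 : iteratedDeriv n F 0 = shB a l n := shB_eq hf.1 l n
      rw [h3, sub_zero, smul_eq_mul, smul_eq_mul, norm_mul, norm_mul, norm_inv,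
        Complex.norm_natCast, norm_pow]
      have hfac : (0 : ℝ) < n.factorial := by exact_mod_cast n.factorial_pos
      calc ((n.factorial : ℝ))⁻¹ * (‖z‖ ^ n * ‖shB a l n‖)
          ≤ ((n.factorial : ℝ))⁻¹ * (‖z‖ ^ n * (C1 * T ^ (n + 1))) := by
            gcongr
            exact hcoef n
        _ = _ := by
            rw [mul_pow, pow_succ]
            field_simp
    have h4 := tsum_of_norm_bounded ((hasSum_exp_real (T * ‖z‖)).mul_left (C1 * T)) h2
    rw [h1.tsum_eq] at h4
    rw [hF] at h4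
    simp only at h4
    rwa [norm_exp_neg_mul] at h4
  have hHle : ∀ z : ℂ, z ≠ 0 → H z ≤ (l * z).re + T * ‖z‖ := by
    intro z hz
    apply le_of_forall_pos_le_add
    intro ε hε
    apply hfH z hz
    have hCT : 0 < C1 * T + 1 := by positivity
    filter_upwards [eventually_ge_atTop 0, eventually_ge_atTop (Real.log (C1 * T + 1) / ε)]
      with r hr hr'
    have h1 := hgrow (r * z)
    have h2 : (l * (r * z)).re = r * (l * z).re := re_mul_ofReal_mul l z r
    rw [h2, Real.exp_neg, inv_mul_le_iff₀ (Real.exp_pos _), norm_mul, Complex.norm_real,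
      Real.norm_of_nonneg hr] at h1
    have h3 : C1 * T ≤ Real.exp (r * ε) := by
      rw [div_le_iff₀ hε, Real.log_le_iff_le_exp hCT] at hr'
      linarith
    calc ‖f (r * z)‖ ≤ Real.exp (r * (l * z).re) * (C1 * T * Real.exp (T * (r * ‖z‖))) := h1
      _ ≤ Real.exp (r * (l * z).re) * (Real.exp (r * ε) * Real.exp (T * (r * ‖z‖))) := by gcongr
      _ = _ := by
          rw [← Real.exp_add, ← Real.exp_add]
          congr 1
          ring
  have hS0 : 0 < S := by linarith
  have hne : (starRingEnd ℂ) (w0 - l) ≠ 0 := by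
    intro h0
    rw [map_eq_zero] at h0
    rw [h0, norm_zero] at hw0l
    linarith
  have h1 := hHle _ hne
  have h2 := hw0 ((starRingEnd ℂ) (w0 - l))
  have h3 : ((w0 - l) * (starRingEnd ℂ) (w0 - l)).re = S ^ 2 := by
    rw [Complex.mul_conj, Complex.ofReal_re, Complex.normSq_eq_norm_sq, hw0l]
  rw [sub_mul, Complex.sub_re] at h3
  rw [RCLike.norm_conj, hw0l] at h1
  nlinarith

end Pool.Agent.Work.MP_8d04b0_an
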