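import Mathlib
import Pool.Agent.Work.MP_8d04b0_an.Direction
import Pool.Agent.Work.MP_8d04b0_an.Defs

set_option autoImplicit false

open Metric Set Filter Topology

namespace Pool.Agent.Work.MP_8d04b0_an

lemma opS_zero_fun {a : ℕ → ℂ} : opS a (fun _ => 0) = fun _ => 0 := by
  funext z
  have h : ∀ k : ℕ, iteratedDeriv k (fun _ : ℂ => (0 : ℂ)) z = 0 := by
    intro k
    have := iteratedDeriv_const (𝕜 := ℂ) (F := ℂ) (n := k) (c := (0 : ℂ)) (x := z)
    rw [this]
    simp
  simp [opS, h]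

theorem upper_opS {a : ℕ → ℂ} {A τ : ℝ} (ha : GeomBdd a A τ) {H : ℂ → ℝ} (hH : Subl H)
    {f : ℂ → ℂ} (hf : Differentiable ℂ f) (hU : Upper f H) : Upper (opS a f) H := by
  intro ε hε
  obtain ⟨hA, hτ, hak⟩ := id ha
  obtain ⟨L, hL, hb, hlip⟩ := hH.exists_lipschitz
  obtain ⟨R, hR, hR'⟩ := hU (ε / 2) (half_pos hε)
  set K : ℝ := |Real.log (2 * A)| + 2 * τ * L + ε * τ with hK
  have hK0 : 0 < K := by positivity
  refine ⟨R + 2 * τ + 2 * K / ε, by positivity, fun z hz => ?_⟩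
  have hKε : 0 < 2 * K / ε := by positivity
  have h1 : ∀ w ∈ closedBall z (2 * τ), ‖f w‖ ≤
      Real.exp (H z + 2 * τ * L + ε / 2 * ‖z‖ + ε * τ) := by
    intro w hw
    rw [mem_closedBall, dist_eq_norm] at hw
    have h2 : ‖z‖ ≤ ‖w‖ + ‖w - z‖ := by
      have := norm_sub_le w (w - z)
      rwa [sub_sub_cancel] at this
    have h3 : ‖w‖ ≤ ‖z‖ + ‖w - z‖ := by
      have := norm_add_le z (w - z)
      rwa [add_sub_cancel] at this
    refine (hR' w (by linarith)).trans (Real.exp_le_exp.2 ?_)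
    have h4 := hlip w z
    have h5 : L * ‖w - z‖ ≤ L * (2 * τ) := by gcongr
    have h6 : ε / 2 * ‖w‖ ≤ ε / 2 * (‖z‖ + 2 * τ) := by
      gcongr
      linarith
    linarith
  refine (norm_opS_le ha hf h1).trans ?_
  have h2 : 2 * A ≤ Real.exp |Real.log (2 * A)| := by
    have := Real.exp_le_exp.2 (le_abs_self (Real.log (2 * A)))
    rwa [Real.exp_log (by positivity)] at this
  calc 2 * A * Real.exp (H z + 2 * τ * L + ε / 2 * ‖z‖ + ε * τ)
      ≤ Real.exp |Real.log (2 * A)| * Real.exp (H z + 2 * τ * L + ε / 2 * ‖z‖ + ε * τ) := by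
        gcongr
    _ = Real.exp (H z + ε / 2 * ‖z‖ + K) := by
        rw [← Real.exp_add]
        congr 1
        rw [hK]
        ring
    _ ≤ _ := by
        apply Real.exp_le_exp.2
        have h3 : 2 * K / ε ≤ ‖z‖ := by linarith
        rw [div_le_iff₀ hε] at h3
        linarith

lemma segment_subset_frontier {H : ℂ → ℝ} (hH : Subl H) {l m u : ℂ} (hu : u ≠ 0)
    (hl : l ∈ DD H) (hm : m ∈ DD H) (hlu : u ∈ Nl H l) (hmu : u ∈ Nl H m) :
    segment ℝ l m ⊆ frontier (DD H) := by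
  rintro z ⟨a, b, ha, hb, hab, rfl⟩
  have hz : a • l + b • m ∈ DD H := hH.convex_DD hl hm ha hb hab
  have hzu : ((a • l + b • m) * u).re = H u := by
    have h1 : (l * u).re = H u := hlu
    have h2 : (m * u).re = H u := hmu
    rw [add_mul, Complex.add_re, smul_mul_assoc, smul_mul_assoc, Complex.smul_re,
      Complex.smul_re, h1, h2, smul_eq_mul, smul_eq_mul, ← add_mul, hab, one_mul]
  refine ⟨subset_closure hz, fun hint => ?_⟩
  obtain ⟨ρ, hρ, hball⟩ := Metric.isOpen_iff.1 isOpen_interior _ hint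
  have hun : 0 < ‖u‖ := norm_pos_iff.2 hu
  set t : ℝ := ρ / (2 * ‖u‖) with ht
  have ht0 : 0 < t := by positivity
  have hmem : a • l + b • m + t * (starRingEnd ℂ) u ∈ ball (a • l + b • m) ρ := by
    rw [mem_ball, dist_eq_norm, add_sub_cancel_left, norm_mul, RCLike.norm_conj,
      Complex.norm_real, Real.norm_of_nonneg ht0.le, ht]
    have : ρ / (2 * ‖u‖) * ‖u‖ = ρ / 2 := by field_simp
    rw [this]
    linarith
  have h3 := interior_subset (hball hmem) u
  rw [add_mul, Complex.add_re, hzu, mul_assoc, mul_comm ((starRingEnd ℂ) u), Complex.mul_conj,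
    Complex.re_ofReal_mul, Complex.ofReal_re, Complex.normSq_eq_norm_sq] at h3
  have : 0 < t * ‖u‖ ^ 2 := by positivity
  linarith

/-- If two opposite directions are supported by `l`, then `l` is an end of a segment. -/
lemma corner_of_line {H : ℂ → ℝ} (hH : Subl H) {l u0 w : ℂ} (hl : l ∈ DD H)
    (hns : DD H ≠ {l}) (h0 : u0 ∈ interior (Nl H l)) (hw : w ≠ 0) (hw1 : w ∈ Nl H l)
    (hw2 : -w ∈ Nl H l) : IsCorner (DD H) l := by
  right
  set n : ℂ := Complex.I / w with hn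
  have hn0 : n ≠ 0 := div_ne_zero Complex.I_ne_zero hw
  have hline : ∀ z ∈ DD H, ∃ t : ℝ, z = l + t * n := by
    intro z hz
    have h1 := hz w
    have h2 := hz (-w)
    have h3 : (l * w).re = H w := hw1
    have h4 : (l * -w).re = H (-w) := hw2
    rw [mul_neg, Complex.neg_re] at h2 h4
    have h5 : ((z - l) * w).re = 0 := by
      rw [sub_mul, Complex.sub_re]
      linarith
    refine ⟨((z - l) * w).im, ?_⟩
    have h6 : (z - l) * w = ((z - l) * w).im * Complex.I := by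
      apply Complex.ext <;> simp [h5]
    rw [hn, mul_div_assoc', ← h6, mul_div_assoc, div_self hw]
    ring
  obtain ⟨ρ, hρ, hball⟩ := Metric.isOpen_iff.1 isOpen_interior _ h0
  -- a direction near `u0` not orthogonal to the line
  obtain ⟨u, hu, hun⟩ : ∃ u ∈ Nl H l, (n * u).re ≠ 0 := by
    by_cases h : (n * u0).re = 0
    · set t : ℝ := ρ / (2 * ‖n‖) with ht
      have hnn : 0 < ‖n‖ := norm_pos_iff.2 hn0
      have ht0 : 0 < t := by positivity
      refine ⟨u0 + t * (starRingEnd ℂ) n, interior_subset (hball ?_), ?_⟩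
      · rw [mem_ball, dist_eq_norm, add_sub_cancel_left, norm_mul, RCLike.norm_conj,
          Complex.norm_real, Real.norm_of_nonneg ht0.le, ht]
        have : ρ / (2 * ‖n‖) * ‖n‖ = ρ / 2 := by field_simp
        rw [this]
        linarith
      · rw [mul_add, Complex.add_re, h, zero_add, re_mul_ofReal_mul, Complex.mul_conj,
          Complex.ofReal_re, Complex.normSq_eq_norm_sq]
        positivity
    · exact ⟨u0, interior_subset h0, h⟩
  have hsign : ∀ t : ℝ, (l + t * n) ∈ DD H → t * (n * u).re ≤ 0 := by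
    intro t ht
    have h1 := ht u
    have h2 : (l * u).re = H u := hu
    rw [add_mul, Complex.add_re, mul_assoc, Complex.re_ofReal_mul, h2] at h1
    linarith
  obtain ⟨m, hm, hmax⟩ := hH.isCompact_DD.exists_isMaxOn ⟨l, hl⟩
    (f := fun z : ℂ => ‖z - l‖) (by fun_prop)
  have hml : m ≠ l := by
    rintro rfl
    apply hns
    ext z
    constructor
    · intro hz
      have h1 := hmax hz
      simp only [mem_ofPred_eq, sub_self, norm_zero, norm_le_zero_iff] at h1
      exact sub_eq_zero.1 h1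
    · intro hz
      rw [mem_singleton_iff] at hz
      rw [hz]
      exact hl
  refine ⟨m, hml, Subset.antisymm ?_ (hH.convex_DD.segment_subset hl hm)⟩
  intro z hz
  obtain ⟨tm, htm⟩ := hline m hm
  obtain ⟨tz, htz⟩ := hline z hz
  have h1 := hmax hz
  simp only [mem_ofPred_eq] at h1
  have h2 : z - l = tz * n := by rw [htz]; ring
  have h3 : m - l = tm * n := by rw [htm]; ring
  have hnn : 0 < ‖n‖ := norm_pos_iff.2 hn0
  rw [h2, h3, norm_mul, norm_mul, Complex.norm_real, Complex.norm_real, Real.norm_eq_abs,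
    Real.norm_eq_abs] at h1
  have h4 : |tz| ≤ |tm| := le_of_mul_le_mul_right h1 hnn
  have htm0 : tm ≠ 0 := by
    rintro rfl
    apply hml
    rw [htm]
    simp
  have h5 := hsign tm (by rw [← htm]; exact hm)
  have h6 := hsign tz (by rw [← htz]; exact hz)
  have h7 : 0 ≤ tz / tm := by
    have h8 : 0 ≤ (tz * (n * u).re) * (tm * (n * u).re) := mul_nonneg_of_nonpos_of_nonpos h6 h5
    have h9 : 0 < (n * u).re ^ 2 := by positivity
    have h10 : 0 ≤ tz * tm := by
      by_contra hneg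
      push Not at hneg
      nlinarith
    rw [div_eq_mul_inv, show tz * tm⁻¹ = tz * tm * (tm⁻¹) ^ 2 by field_simp]
    positivity
  have h8 : tz / tm ≤ 1 := by
    have : |tz / tm| ≤ 1 := by
      rw [abs_div, div_le_one (abs_pos.2 htm0)]
      exact h4
    exact (le_abs_self _).trans this
  rw [segment_eq_image']
  refine ⟨tz / tm, ⟨h7, h8⟩, ?_⟩
  simp only
  rw [Complex.real_smul, h3, htz]
  push_cast
  have : (tm : ℂ) ≠ 0 := by exact_mod_cast htm0
  field_simp

theorem reg_all {a : ℕ → ℂ} {A τ : ℝ} (ha : GeomBdd a A τ) {H : ℂ → ℝ} (hH : Subl H)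
    {f : ℂ → ℂ} (hf : Differentiable ℂ f) (hU : Upper f H) (hR : ∀ u : ℂ, u ≠ 0 → Reg f H u)
    (hfin : {l ∈ DD H | shiftSeq a l 0 = 0}.Finite)
    (hcorner : ∀ l : ℂ, IsCorner (DD H) l → shiftSeq a l 0 ≠ 0)
    (hns : ∀ l : ℂ, DD H ≠ {l}) : ∀ u : ℂ, u ≠ 0 → Reg (opS a f) H u := by
  set F : ℂ → ℂ := opS a f with hFdef
  have hF : Differentiable ℂ F := differentiable_opS ha hf
  have hFU : Upper F H := upper_opS ha hH hf hU
  set S : Set ℂ := {l ∈ DD H | shiftSeq a l 0 = 0} with hS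
  have hSD : S ⊆ DD H := fun l hl => hl.1
  by_contra hcon
  push Not at hcon
  obtain ⟨u1, hu1, hu1'⟩ := hcon
  have hopen : IsOpen ({u : ℂ | ¬ Reg F H u} ∩ {0}ᶜ) :=
    (isOpen_not_reg hH F).inter isOpen_compl_singleton
  have hclosed : IsClosed (⋃ m ∈ S, Nl H m) := hfin.isClosed_biUnion (fun m _ => isClosed_Nl hH m)
  have hcov : ∀ u : ℂ, u ≠ 0 → ¬ Reg F H u → ∃ l ∈ S, u ∈ Nl H l := by
    intro u hu hnr
    by_contra hno
    have hmem : u ∈ ({u : ℂ | ¬ Reg F H u} ∩ {0}ᶜ) ∩ (⋃ m ∈ S, Nl H m)ᶜ := by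
      refine ⟨⟨hnr, hu⟩, fun h => hno ?_⟩
      rw [mem_iUnion₂] at h
      obtain ⟨m, hm, hum⟩ := h
      exact ⟨m, hm, hum⟩
    obtain ⟨z, hz, huniq⟩ := exists_unique_support hH (hopen.inter hclosed.isOpen_compl)
      ⟨u, hmem⟩
    obtain ⟨l, hl, hlz⟩ := hH.exists_support z
    have hz0 : z ≠ 0 := hz.1.2
    by_cases h0 : shiftSeq a l 0 = 0
    · apply hz.2
      rw [mem_iUnion₂]
      exact ⟨l, ⟨hl, h0⟩, hlz⟩
    · refine hz.1.1 (reg_of_good ha hH hf hU hz0 hl hlz (fun η hη => ?_) h0 (hR z hz0))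
      exact hH.diff_of_unique hl (fun w hw hws => huniq w hw l hl hws hlz) hη
  -- Baire
  obtain ⟨l, hl, u0, hu0, hu0N⟩ : ∃ l ∈ S, ∃ u0 : ℂ, (u0 ≠ 0 ∧ ¬ Reg F H u0) ∧
      u0 ∈ interior (Nl H l) := by
    have hdense := dense_biUnion_interior_of_closed (X := ℂ) (S := S)
      (f := fun m => Nl H m ∪ ({u : ℂ | ¬ Reg F H u} ∩ {0}ᶜ)ᶜ)
      (fun m _ => (isClosed_Nl hH m).union hopen.isClosed_compl) hfin.countable (by
        rw [eq_univ_iff_forall]
        intro x
        rw [mem_iUnion₂]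
        obtain ⟨m1, hm1, -⟩ := hcov u1 hu1 hu1'
        by_cases hx : x ∈ ({u : ℂ | ¬ Reg F H u} ∩ {0}ᶜ)
        · obtain ⟨m, hm, hxm⟩ := hcov x hx.2 hx.1
          exact ⟨m, hm, Or.inl hxm⟩
        · exact ⟨m1, hm1, Or.inr hx⟩)
    obtain ⟨x, hx, hx'⟩ := hdense.inter_open_nonempty _ hopen ⟨u1, hu1', hu1⟩
    rw [mem_iUnion₂] at hx'
    obtain ⟨m, hm, hxm⟩ := hx'
    refine ⟨m, hm, x, ⟨hx.2, hx.1⟩, ?_⟩
    rw [mem_interior_iff_mem_nhds] at hxm ⊢
    filter_upwards [hxm, hopen.mem_nhds hx] with y hy hy'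
    exact hy.resolve_right (fun h => h hy')
  have hlD : l ∈ DD H := hl.1
  refine hcorner l ?_ hl.2
  by_cases hpt : ∃ w : ℂ, w ≠ 0 ∧ w ∈ Nl H l ∧ -w ∈ Nl H l
  · obtain ⟨w, hw, hw1, hw2⟩ := hpt
    exact corner_of_line hH hlD (hns l) hu0N hw hw1 hw2
  push Not at hpt
  have hu0n : 0 < ‖u0‖ := norm_pos_iff.2 hu0.1
  have hu0c : u0 ≠ 0 := hu0.1
  have hneg : -u0 ∉ Nl H l := hpt u0 hu0.1 (interior_subset hu0N)
  obtain ⟨ρ, hρ, hball⟩ := Metric.isOpen_iff.1 (isClosed_Nl hH l).isOpen_compl (-u0) hneg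
  set s : ℝ := ρ / (2 * ‖u0‖) with hs
  have hs0 : 0 < s := by positivity
  have hout : ∀ x : ℝ, |x| = s → (-1 + x * Complex.I) * u0 ∉ Nl H l := by
    intro x hx
    apply hball
    rw [mem_ball, dist_eq_norm, show (-1 + x * Complex.I) * u0 - -u0 = x * Complex.I * u0 by ring,
      norm_mul, norm_mul, Complex.norm_I, mul_one, Complex.norm_real, Real.norm_eq_abs, hx, hs]
    have : ρ / (2 * ‖u0‖) * ‖u0‖ = ρ / 2 := by field_simp
    rw [this]
    linarith
  have hend : ∀ x : ℝ, |x| = s → ∃ t : ℝ, 0 < t ∧ ∃ ub : ℂ,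
      ub = ((1 - 2 * t : ℝ) + (x * t : ℝ) * Complex.I) * u0 ∧ ub ∈ Nl H l ∧
      ∃ ν ∈ DD H, ν ≠ l ∧ ub ∈ Nl H ν := by
    intro x hx
    have hx0 : x ≠ 0 := by
      intro h
      rw [h, abs_zero] at hx
      linarith
    obtain ⟨t, ht0, ht1, htN, htN'⟩ := exists_last (isClosed_Nl hH l)
      (p := fun t : ℝ => (1 - t) * u0 + t * ((-1 + x * Complex.I) * u0)) (by fun_prop)
      (by simpa using interior_subset hu0N) (by simpa using hout x hx)
    have htpos : 0 < t := by
      refine lt_of_le_of_ne ht0 ?_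
      rintro rfl
      rw [closure_compl] at htN'
      apply htN'
      simpa using hu0N
    set ub : ℂ := (1 - t) * u0 + t * ((-1 + x * Complex.I) * u0) with hub
    have hub' : ub = ((1 - 2 * t : ℝ) + (x * t : ℝ) * Complex.I) * u0 := by
      rw [hub]
      push_cast
      ring
    refine ⟨t, htpos, ub, hub', htN, ?_⟩
    refine end_lemma hH hF hFU hSD hfin hcov hlD hu0.2 hu0N htN htN' ?_
    rw [hub']
    set c : ℂ := ((1 - 2 * t : ℝ) + (x * t : ℝ) * Complex.I) with hc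
    have hcim : c.im = x * t := by simp [hc]
    have hc0 : c ≠ 0 := by
      intro h
      rw [h] at hcim
      simp only [Complex.zero_im] at hcim
      have : x * t ≠ 0 := mul_ne_zero hx0 htpos.ne'
      exact this hcim.symm
    have : u0 / (c * u0) = c⁻¹ := by field_simp
    rw [this, Complex.inv_im, hcim]
    have hn : 0 < Complex.normSq c := Complex.normSq_pos.2 hc0
    have : x * t ≠ 0 := mul_ne_zero hx0 htpos.ne'
    exact div_ne_zero (neg_ne_zero.2 this) hn.ne'
  obtain ⟨t1, ht1, ub1, hub1, hub1N, μ, hμ, hμl, hμu⟩ := hend s (abs_of_pos hs0)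
  obtain ⟨t2, ht2, ub2, hub2, hub2N, ν, hν, hνl, hνu⟩ := hend (-s) (by rw [abs_neg, abs_of_pos hs0])
  have hub1c : ub1 ≠ 0 := by
    intro h
    rw [h, eq_comm, mul_eq_zero] at hub1
    rcases hub1 with h1 | h1
    · have := congrArg Complex.im h1
      simp at this
      rcases this with h2 | h2 <;> linarith
    · exact hu0c h1
  have hub2c : ub2 ≠ 0 := by
    intro h
    rw [h, eq_comm, mul_eq_zero] at hub2
    rcases hub2 with h1 | h1
    · have := congrArg Complex.im h1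
      simp at this
      rcases this with h2 | h2 <;> linarith
    · exact hu0c h1
  left
  refine ⟨μ, ν, segment_subset_frontier hH hub1c hlD hμ hub1N hμu,
    segment_subset_frontier hH hub2c hlD hν hub2N hνu, ?_⟩
  intro hcol
  rw [collinear_iff_of_mem (p₀ := l) (by simp)] at hcol
  obtain ⟨v, hv⟩ := hcol
  obtain ⟨r1, hr1⟩ := hv μ (by simp)
  obtain ⟨r2, hr2⟩ := hv ν (by simp)
  simp only [vadd_eq_add, Complex.real_smul] at hr1 hr2
  have hr10 : r1 ≠ 0 := by
    rintro rfl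
    apply hμl
    rw [hr1]; simp
  have hr20 : r2 ≠ 0 := by
    rintro rfl
    apply hνl
    rw [hr2]; simp
  have hv0 : v ≠ 0 := by
    rintro rfl
    apply hμl
    rw [hr1]; simp
  have key : ∀ (r : ℝ) (ub m : ℂ), r ≠ 0 → m = r * v + l → ub ∈ Nl H l → ub ∈ Nl H m →
      (v * ub).re = 0 := by
    intro r ub m hr hm h1 h2
    have h3 : (l * ub).re = H ub := h1
    have h4 : (m * ub).re = H ub := h2
    rw [hm, add_mul, Complex.add_re, mul_assoc, Complex.re_ofReal_mul, h3] at h4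
    have h5 : r * (v * ub).re = 0 := by linarith
    exact (mul_eq_zero.1 h5).resolve_left hr
  have k1 := key r1 ub1 μ hr10 hr1 hub1N hμu
  have k2 := key r2 ub2 ν hr20 hr2 hub2N hνu
  have e1 : v * ub1 = ((v * ub1).im : ℂ) * Complex.I := by
    apply Complex.ext <;> simp [k1]
  have e2 : v * ub2 = ((v * ub2).im : ℂ) * Complex.I := by
    apply Complex.ext <;> simp [k2]
  set x1 : ℝ := (v * ub1).im with hx1
  set x2 : ℝ := (v * ub2).im with hx2
  have hx10 : x1 ≠ 0 := by
    intro h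
    rw [h] at e1
    simp only [Complex.ofReal_zero, zero_mul, mul_eq_zero] at e1
    exact e1.elim hv0 hub1c
  have hx20 : x2 ≠ 0 := by
    intro h
    rw [h] at e2
    simp only [Complex.ofReal_zero, zero_mul, mul_eq_zero] at e2
    exact e2.elim hv0 hub2c
  have hx1c : (x1 : ℂ) ≠ 0 := by exact_mod_cast hx10
  have hprop : ub2 = ((x2 / x1 : ℝ) : ℂ) * ub1 := by
    have h1 : v * ub2 = v * (((x2 / x1 : ℝ) : ℂ) * ub1) := by
      rw [mul_left_comm, e1, e2]
      push_cast
      field_simp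
    exact mul_left_cancel₀ hv0 h1
  rcases lt_or_gt_of_ne (div_ne_zero hx20 hx10) with hneg' | hpos'
  · refine hpt (((-(x2 / x1) : ℝ) : ℂ) * ub1) ?_ ?_ ?_
    · apply mul_ne_zero _ hub1c
      exact_mod_cast neg_ne_zero.2 hneg'.ne
    · have := Nl_comb hH hlD hub1N hub1N (a := -(x2 / x1)) (b := 0) (by linarith) le_rfl
      simpa using this
    · have : -(((-(x2 / x1) : ℝ) : ℂ) * ub1) = ub2 := by
        rw [hprop]
        push_cast
        ring
      rw [this]
      exact hub2N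
  · rw [hub1, hub2, ← mul_assoc] at hprop
    have h1 := mul_right_cancel₀ hu0c hprop
    have h2 := congrArg Complex.im h1
    rw [Complex.im_ofReal_mul] at h2
    simp only [Complex.add_im, Complex.mul_im, Complex.ofReal_re, Complex.I_im, mul_one,
      Complex.ofReal_im, Complex.I_re, mul_zero, add_zero, zero_add] at h2
    have h3 : 0 < x2 / x1 * (s * t1) := by positivity
    have h4 : 0 < s * t2 := by positivity
    linarith

end Pool.Agent.Work.MP_8d04b0_an
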