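import Mathlib
import Pool.Agent.Work.MP_8d04b0_an.Annulus
import Pool.Agent.Work.MP_8d04b0_an.Ind

set_option autoImplicit false

open Metric Set Filter Topology MeasureTheory

namespace Pool.Agent.Work.MP_8d04b0_an

lemma diag {P : ℕ → ℝ → Prop} (h : ∀ ε : ℝ, 0 < ε → ∀ᶠ n in atTop, P n ε) :
    ∃ e : ℕ → ℝ, (∀ n, 0 < e n) ∧ Tendsto e atTop (𝓝 0) ∧ ∀ᶠ n in atTop, P n (e n) := by
  classical
  let k : ℕ → ℕ := fun n => Nat.findGreatest (fun k => P n (1 / ((k : ℝ) + 1))) n
  refine ⟨fun n => 1 / ((k n : ℝ) + 1), fun n => by positivity, ?_, ?_⟩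
  · have hk : Tendsto k atTop atTop := by
      rw [Filter.tendsto_atTop]
      intro K
      filter_upwards [h (1 / ((K : ℝ) + 1)) (by positivity), eventually_ge_atTop K] with n h1 h2
      exact Nat.le_findGreatest h2 h1
    exact tendsto_one_div_add_atTop_nhds_zero_nat.comp hk
  · filter_upwards [h (1 / ((0 : ℕ) + 1 : ℝ)) (by positivity)] with n h1
    exact Nat.findGreatest_spec (P := fun k => P n (1 / ((k : ℝ) + 1))) (Nat.zero_le n) h1

/-- A finite family of short closed intervals does not cover a long interval. -/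
lemma avoid_list (T : List (ℝ × ℝ)) {a b : ℝ} (hT : ∀ p ∈ T, 0 < p.2)
    (hab : 2 * (T.map Prod.snd).sum < b - a) :
    ∃ t ∈ Icc a b, ∀ p ∈ T, p.2 < |t - p.1| := by
  have hvol : ∀ T : List (ℝ × ℝ), (∀ p ∈ T, 0 < p.2) →
      0 ≤ (T.map Prod.snd).sum ∧ volume {t : ℝ | ∃ p ∈ T, |t - p.1| ≤ p.2} ≤
        ENNReal.ofReal (2 * (T.map Prod.snd).sum) := by
    intro T
    induction T with
    | nil => intro _; simp
    | cons q T ih =>
      intro hq
      obtain ⟨h0, ih⟩ := ih (fun p hp => hq p (List.mem_cons_of_mem _ hp))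
      have hq0 := hq q List.mem_cons_self
      rw [List.map_cons, List.sum_cons]
      refine ⟨by positivity, ?_⟩
      have h1 : {t : ℝ | ∃ p ∈ q :: T, |t - p.1| ≤ p.2} ⊆
          Icc (q.1 - q.2) (q.1 + q.2) ∪ {t : ℝ | ∃ p ∈ T, |t - p.1| ≤ p.2} := by
        rintro t ⟨p, hp, hp'⟩
        rw [List.mem_cons] at hp
        rcases hp with rfl | hp
        · left
          rw [abs_le] at hp'
          exact ⟨by linarith, by linarith⟩
        · right
          exact ⟨p, hp, hp'⟩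
      refine (measure_mono h1).trans ((measure_union_le _ _).trans ?_)
      rw [Real.volume_Icc]
      refine (add_le_add le_rfl ih).trans (le_of_eq ?_)
      rw [← ENNReal.ofReal_add (by linarith) (by linarith)]
      congr 1
      ring
  obtain ⟨h0, h1⟩ := hvol T hT
  by_contra hcon
  push Not at hcon
  have h2 : Icc a b ⊆ {t : ℝ | ∃ p ∈ T, |t - p.1| ≤ p.2} := fun t ht => hcon t ht
  have h3 := (measure_mono (μ := volume) h2).trans h1
  rw [Real.volume_Icc, ENNReal.ofReal_le_ofReal_iff (by linarith)] at h3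
  linarith

/-- The bad event on the `n`-th dyadic annulus. -/
def PA (F : ℂ → ℂ) (H : ℂ → ℝ) (n : ℕ) (ε : ℝ) : Prop :=
  Cov {z | 2 ^ n ≤ ‖z‖ ∧ ‖z‖ ≤ 2 * 2 ^ n ∧ ‖F z‖ < Real.exp (H z - ε * 2 ^ n)}
    {z | 2 ^ n / 4 ≤ ‖z‖} (ε * 2 ^ n)

lemma eventually_PA {F : ℂ → ℂ} {H : ℂ → ℝ} (hH : Subl H) (hF : Differentiable ℂ F)
    (hU : Upper F H) (hR : ∀ u : ℂ, u ≠ 0 → Reg F H u) (ε : ℝ) (hε : 0 < ε) :
    ∀ᶠ n in atTop, PA F H n ε := by
  obtain ⟨R0, hR0, hR0'⟩ := annulus hH hF hU hR hε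
  have h1 : Tendsto (fun n : ℕ => (2 : ℝ) ^ n) atTop atTop :=
    tendsto_pow_atTop_atTop_of_one_lt (by norm_num)
  filter_upwards [h1.eventually_ge_atTop R0] with n hn
  exact hR0' _ hn

lemma norm_eIθ (θ : ℝ) : ‖Complex.exp (θ * Complex.I)‖ = 1 := Complex.norm_exp_ofReal_mul_I θ

lemma norm_r_eIθ {r : ℝ} (hr : 0 ≤ r) (θ : ℝ) : ‖(r : ℂ) * Complex.exp (θ * Complex.I)‖ = r := by
  rw [norm_mul, norm_eIθ, mul_one, Complex.norm_real, Real.norm_of_nonneg hr]

/-- the indicator is `H`. -/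
lemma indicator_eq {F : ℂ → ℂ} {H : ℂ → ℝ} (hH : Subl H) (hF : Differentiable ℂ F)
    (hU : Upper F H) (hR : ∀ u : ℂ, u ≠ 0 → Reg F H u) (θ : ℝ) :
    indicator F θ = ((H (Complex.exp (θ * Complex.I)) : ℝ) : EReal) := by
  set e : ℂ := Complex.exp (θ * Complex.I) with he
  have hHr : ∀ r : ℝ, 0 ≤ r → H (r * e) = r * H e := fun r hr => hH.smul r e hr
  apply le_antisymm
  · rw [EReal.le_of_forall_lt_iff_le.symm]
    intro c hc
    rw [EReal.coe_lt_coe_iff] at hc
    refine indicator_le ?_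
    obtain ⟨R, hR0, hR'⟩ := hU (c - H e) (by linarith)
    filter_upwards [eventually_ge_atTop R, eventually_gt_atTop 0] with r h1 h2
    have h3 := hR' (r * e) (by rw [norm_r_eIθ h2.le]; exact h1)
    rw [norm_r_eIθ h2.le, hHr r h2.le] at h3
    refine h3.trans (Real.exp_le_exp.2 (le_of_eq (by ring)))
  · rw [EReal.ge_of_forall_gt_iff_ge.symm]
    intro c hc
    rw [EReal.coe_lt_coe_iff] at hc
    refine le_indicator ?_
    rw [frequently_atTop]
    intro a
    set ε : ℝ := min (H e - c) (1 / 8) with hε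
    have hε0 : 0 < ε := lt_min (by linarith) (by norm_num)
    have h1 : Tendsto (fun n : ℕ => (2 : ℝ) ^ n) atTop atTop :=
      tendsto_pow_atTop_atTop_of_one_lt (by norm_num)
    obtain ⟨n, hn1, hn2⟩ := ((eventually_PA hH hF hU hR ε hε0).and
      (h1.eventually_ge_atTop a)).exists
    obtain ⟨T, hT1, hT2, hT3⟩ := hn1
    have h2n : (0 : ℝ) < 2 ^ n := by positivity
    obtain ⟨t, ht, ht'⟩ := avoid_list (T.map (fun p => ((p.1 * (starRingEnd ℂ) e).re, p.2)))
      (a := 2 ^ n) (b := 2 * 2 ^ n)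
      (by
        intro p hp
        rw [List.mem_map] at hp
        obtain ⟨q, hq, rfl⟩ := hp
        exact (hT1 q hq).2)
      (by
        rw [List.map_map]
        have h3 : (List.map (Prod.snd ∘ fun p : ℂ × ℝ => ((p.1 * (starRingEnd ℂ) e).re, p.2)) T) =
          T.map Prod.snd := by
          apply List.map_congr_left
          intro p _
          rfl
        rw [h3]
        have h4 : ε * 2 ^ n ≤ 1 / 8 * 2 ^ n := by
          gcongr
          exact min_le_right _ _
        linarith)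
    have ht0 : 0 < t := h2n.trans_le ht.1
    refine ⟨t, hn2.trans ht.1, ?_⟩
    by_contra hcon
    push Not at hcon
    obtain ⟨p, hp, hp'⟩ := hT3 (t * e) ⟨by rw [norm_r_eIθ ht0.le]; exact ht.1,
      by rw [norm_r_eIθ ht0.le]; exact ht.2, by
        refine hcon.trans_le (Real.exp_le_exp.2 ?_)
        rw [hHr t ht0.le]
        have h3 : ε * 2 ^ n ≤ ε * t := by
          gcongr
          exact ht.1
        have h4 : ε * t ≤ (H e - c) * t := by
          gcongr
          exact min_le_left _ _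
        linarith⟩
    have h3 := ht' ((p.1 * (starRingEnd ℂ) e).re, p.2) (List.mem_map.2 ⟨p, hp, rfl⟩)
    have h4 : (((t : ℂ) * e - p.1) * (starRingEnd ℂ) e).re = t - (p.1 * (starRingEnd ℂ) e).re := by
      rw [sub_mul, Complex.sub_re, mul_assoc, Complex.mul_conj, Complex.normSq_eq_norm_sq,
        norm_eIθ]
      simp
    have h5 := Complex.abs_re_le_norm (((t : ℂ) * e - p.1) * (starRingEnd ℂ) e)
    rw [h4, norm_mul, RCLike.norm_conj, norm_eIθ, mul_one] at h5
    linarith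

lemma expType_of_upper {F : ℂ → ℂ} {H : ℂ → ℝ} (hH : Subl H) (hF : Differentiable ℂ F)
    (hU : Upper F H) : ExpType F := by
  obtain ⟨L, hL, hb, hlip⟩ := hH.exists_lipschitz
  obtain ⟨R, hR, hR'⟩ := hU 1 one_pos
  obtain ⟨M, hM0, hM⟩ := exists_bound hF 0 R
  refine ⟨hF, M + 1, L + 1, fun z => ?_⟩
  have h1 : 1 ≤ Real.exp ((L + 1) * ‖z‖) := Real.one_le_exp (by positivity)
  rcases le_total R ‖z‖ with h | h
  · refine (hR' z h).trans ?_
    calc Real.exp (H z + 1 * ‖z‖) ≤ Real.exp ((L + 1) * ‖z‖) := by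
          apply Real.exp_le_exp.2
          linarith [hb z]
      _ ≤ (M + 1) * Real.exp ((L + 1) * ‖z‖) := by nlinarith
  · refine (hM z (by rwa [mem_closedBall_zero_iff])).trans ?_
    nlinarith

/-- Splitting the sum of the radii. -/
lemma sum_radii_le (e : ℕ → ℝ) (he : ∀ n, 0 < e n) (T : ℕ → List (ℂ × ℝ))
    (hT1 : ∀ n, ∀ p ∈ T n, (2 : ℝ) ^ n / 4 ≤ ‖p.1‖ ∧ 0 < p.2)
    (hT2 : ∀ n, ((T n).map Prod.snd).sum ≤ e n * 2 ^ n) (R : ℝ) (m : ℕ) (hm : 4 * R ≤ 2 ^ m) :
    (∑' j : ℕ, if ‖((T (Nat.unpair j).1).getD (Nat.unpair j).2 (0, 0)).1‖ < R then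
      ENNReal.ofReal (2 * ((T (Nat.unpair j).1).getD (Nat.unpair j).2 (0, 0)).2) else 0) ≤
      ENNReal.ofReal (∑ n ∈ Finset.range m, 2 * (e n * 2 ^ n)) := by
  set g : ℕ → ℕ → ENNReal := fun n i => if ‖((T n).getD i (0, 0)).1‖ < R then
      ENNReal.ofReal (2 * ((T n).getD i (0, 0)).2) else 0 with hg
  have h1 : (∑' j : ℕ, g (Nat.unpair j).1 (Nat.unpair j).2) = ∑' n : ℕ, ∑' i : ℕ, g n i := by
    rw [← ENNReal.tsum_prod]
    exact Nat.pairEquiv.symm.tsum_eq (fun p : ℕ × ℕ => g p.1 p.2)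
  have h2 : ∀ n : ℕ, m ≤ n → ∑' i : ℕ, g n i = 0 := by
    intro n hn
    rw [ENNReal.tsum_eq_zero]
    intro i
    simp only [hg]
    rcases lt_or_ge i (T n).length with hi | hi
    · rw [List.getD_eq_getElem _ _ hi]
      have h3 := (hT1 n _ (List.getElem_mem hi)).1
      have h4 : (2 : ℝ) ^ m ≤ 2 ^ n := pow_le_pow_right₀ (by norm_num) hn
      rw [if_neg (by linarith)]
    · rw [List.getD_eq_default _ _ hi]
      simp
  have h3 : ∀ n : ℕ, ∑' i : ℕ, g n i ≤ ENNReal.ofReal (2 * (e n * 2 ^ n)) := by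
    intro n
    have h4 : ∑' i : ℕ, g n i ≤ ∑' i : ℕ, ENNReal.ofReal (2 * ((T n).getD i (0, 0)).2) := by
      refine ENNReal.tsum_le_tsum (fun i => ?_)
      simp only [hg]
      split_ifs
      · exact le_rfl
      · exact zero_le
    refine h4.trans ?_
    rw [tsum_eq_sum (s := Finset.range (T n).length) (by
      intro i hi
      rw [Finset.mem_range, not_lt] at hi
      rw [List.getD_eq_default _ _ hi]
      simp)]
    rw [← ENNReal.ofReal_sum_of_nonneg]
    · apply ENNReal.ofReal_le_ofReal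
      rw [← Finset.mul_sum]
      refine mul_le_mul_of_nonneg_left ?_ (by norm_num)
      refine le_trans (le_of_eq ?_) (hT2 n)
      have h5 : ∀ l : List (ℂ × ℝ), ∑ i ∈ Finset.range l.length, (l.getD i (0, 0)).2 =
          (l.map Prod.snd).sum := by
        intro l
        induction l with
        | nil => simp
        | cons a l ih =>
          rw [List.length_cons, Finset.sum_range_succ', List.map_cons, List.sum_cons, ← ih]
          simp [add_comm]
      exact h5 (T n)
    · intro i hi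
      rw [Finset.mem_range] at hi
      rw [List.getD_eq_getElem _ _ hi]
      have := (hT1 n _ (List.getElem_mem hi)).2
      positivity
  calc (∑' j : ℕ, g (Nat.unpair j).1 (Nat.unpair j).2) = ∑' n : ℕ, ∑' i : ℕ, g n i := h1
    _ = ∑ n ∈ Finset.range m, ∑' i : ℕ, g n i := by
        rw [tsum_eq_sum (s := Finset.range m)]
        intro n hn
        rw [Finset.mem_range, not_lt] at hn
        exact h2 n hn
    _ ≤ ∑ n ∈ Finset.range m, ENNReal.ofReal (2 * (e n * 2 ^ n)) :=
        Finset.sum_le_sum (fun n _ => h3 n)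
    _ = _ := by
        rw [← ENNReal.ofReal_sum_of_nonneg]
        intro n _
        have := he n
        positivity

lemma sum_e_small (e : ℕ → ℝ) (he : ∀ n, 0 < e n) (he0 : Tendsto e atTop (𝓝 0)) {ε : ℝ}
    (hε : 0 < ε) : ∃ C : ℝ, 0 ≤ C ∧ ∀ m : ℕ, ∑ n ∈ Finset.range m, 2 * (e n * 2 ^ n) ≤
      C + 2 * ε * 2 ^ m := by
  obtain ⟨N, hN⟩ := (he0.eventually_le_const hε).exists_forall_of_atTop
  refine ⟨∑ n ∈ Finset.range N, 2 * (e n * 2 ^ n), Finset.sum_nonneg (fun n _ => by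
    have := he n
    positivity), fun m => ?_⟩
  induction m with
  | zero =>
    simp only [Finset.range_zero, Finset.sum_empty]
    have : 0 ≤ ∑ n ∈ Finset.range N, 2 * (e n * 2 ^ n) := Finset.sum_nonneg (fun n _ => by
      have := he n
      positivity)
    positivity
  | succ m ih =>
    rcases le_or_gt N m with h | h
    · rw [Finset.sum_range_succ]
      have h1 : e m * 2 ^ m ≤ ε * 2 ^ m := by
        gcongr
        exact hN m h
      rw [pow_succ]
      linarith
    · have h1 : ∑ n ∈ Finset.range (m + 1), 2 * (e n * 2 ^ n) ≤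
          ∑ n ∈ Finset.range N, 2 * (e n * 2 ^ n) := by
        refine Finset.sum_le_sum_of_subset_of_nonneg ?_ ?_
        · intro x hx
          rw [Finset.mem_range] at hx ⊢
          omega
        · intro n _ _
          have := he n
          positivity
      have h2 : 0 < 2 * ε * 2 ^ (m + 1) := by positivity
      linarith

theorem crg_of_reg {F : ℂ → ℂ} {H : ℂ → ℝ} (hH : Subl H) (hF : Differentiable ℂ F)
    (hU : Upper F H) (hR : ∀ u : ℂ, u ≠ 0 → Reg F H u) : CRG F := by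
  refine ⟨expType_of_upper hH hF hU, ?_, fun θ => H (Complex.exp (θ * Complex.I)),
    indicator_eq hH hF hU hR, ?_⟩
  · obtain ⟨R, hR'⟩ := hR 1 one_ne_zero 1 one_pos 1 one_pos
    obtain ⟨z, -, hz⟩ := hR' R le_rfl
    exact ⟨z, norm_pos_iff.1 ((Real.exp_pos _).trans_le hz)⟩
  obtain ⟨e, he, he0, heP⟩ := diag (eventually_PA hH hF hU hR)
  -- choose the lists
  have hch : ∀ n : ℕ, ∃ T : List (ℂ × ℝ), (∀ p ∈ T, (2 : ℝ) ^ n / 4 ≤ ‖p.1‖ ∧ 0 < p.2) ∧
      (T.map Prod.snd).sum ≤ e n * 2 ^ n ∧ (PA F H n (e n) →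
        ∀ z : ℂ, 2 ^ n ≤ ‖z‖ → ‖z‖ ≤ 2 * 2 ^ n → ‖F z‖ < Real.exp (H z - e n * 2 ^ n) →
          ∃ p ∈ T, ‖z - p.1‖ ≤ p.2) := by
    intro n
    by_cases h : PA F H n (e n)
    · obtain ⟨T, h1, h2, h3⟩ := h
      exact ⟨T, h1, h2, fun _ z a b c => h3 z ⟨a, b, c⟩⟩
    · have := he n
      exact ⟨[], by simp, by simp only [List.map_nil, List.sum_nil]; positivity,
        fun h' => absurd h' h⟩
  choose T hT1 hT2 hT3 using hch
  refine ⟨fun j => ((T (Nat.unpair j).1).getD (Nat.unpair j).2 (0, 0)).1,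
    fun j => 2 * ((T (Nat.unpair j).1).getD (Nat.unpair j).2 (0, 0)).2, ?_, ?_, ?_⟩
  · intro j
    rcases lt_or_ge (Nat.unpair j).2 (T (Nat.unpair j).1).length with hi | hi
    · simp only
      rw [List.getD_eq_getElem _ _ hi]
      have := (hT1 _ _ (List.getElem_mem hi)).2
      positivity
    · simp only
      rw [List.getD_eq_default _ _ hi]
      simp
  · rw [ENNReal.tendsto_nhds_zero]
    intro η hη
    obtain ⟨x, hx0, hxη⟩ := ENNReal.lt_iff_exists_nnreal_btwn.1 hη
    have hx : (0 : ℝ) < x := by exact_mod_cast hx0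
    obtain ⟨C, hC0, hC⟩ := sum_e_small e he he0 (show 0 < (x : ℝ) / 32 by positivity)
    filter_upwards [eventually_ge_atTop 1, eventually_ge_atTop (2 * C / x)] with R hR1 hR2
    have hR0 : 0 < R := by linarith
    have hex : ∃ m : ℕ, 4 * R ≤ 2 ^ m := by
      obtain ⟨m, hm⟩ := pow_unbounded_of_one_lt (4 * R) (show (1 : ℝ) < 2 by norm_num)
      exact ⟨m, hm.le⟩
    classical
    set m := Nat.find hex with hm
    have hm1 : 4 * R ≤ 2 ^ m := Nat.find_spec hex
    have hm2 : (2 : ℝ) ^ m ≤ 8 * R := by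
      rcases Nat.eq_zero_or_pos m with h0 | h0
      · rw [h0]
        simp only [pow_zero]
        linarith
      · have h1 := Nat.find_min hex (m := m - 1) (by omega)
        push Not at h1
        have h2 : (2 : ℝ) ^ m = 2 ^ (m - 1) * 2 := by
          rw [← pow_succ]
          congr 1
          omega
        rw [h2]
        linarith
    refine le_trans ?_ hxη.le
    rw [ENNReal.div_le_iff (by simpa using hR0) ENNReal.ofReal_ne_top]
    refine (sum_radii_le e he T hT1 hT2 R m hm1).trans ?_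
    have h3 : (x : ENNReal) * ENNReal.ofReal R = ENNReal.ofReal (x * R) := by
      rw [ENNReal.ofReal_mul hx.le, ENNReal.ofReal_coe_nnreal]
    rw [h3]
    apply ENNReal.ofReal_le_ofReal
    refine (hC m).trans ?_
    have h4 : 2 * C ≤ R * x := by rwa [div_le_iff₀ hx] at hR2
    have h5 : 2 * ((x : ℝ) / 32) * 2 ^ m ≤ 2 * ((x : ℝ) / 32) * (8 * R) := by gcongr
    linarith
  · intro ε hε
    obtain ⟨n0, hn0⟩ := ((heP.and (he0.eventually_lt_const hε))).exists_forall_of_atTop
    obtain ⟨RU, hRU, hRU'⟩ := hU (ε / 2) (half_pos hε)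
    refine ⟨max (2 ^ (n0 + 1)) RU, fun r θ hr hav => ?_⟩
    have hr1 : (2 : ℝ) ^ (n0 + 1) < r := (le_max_left _ _).trans_lt hr
    have hr2 : RU < r := (le_max_right _ _).trans_lt hr
    have hr0 : 0 < r := hRU.trans hr2
    have h1r : 1 ≤ r := (one_le_pow₀ (by norm_num)).trans hr1.le
    obtain ⟨n, hn1, hn2⟩ := exists_nat_pow_near h1r (show (1 : ℝ) < 2 by norm_num)
    have hnn0 : n0 ≤ n := by
      by_contra hcon
      push Not at hcon
      have h2 : (2 : ℝ) ^ (n + 1) ≤ 2 ^ (n0 + 1) := pow_le_pow_right₀ (by norm_num) (by omega)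
      linarith
    obtain ⟨hPA, hen⟩ := hn0 n hnn0
    set z : ℂ := r * Complex.exp (θ * Complex.I) with hz
    have hzn : ‖z‖ = r := norm_r_eIθ hr0.le θ
    have hHz : H z = r * H (Complex.exp (θ * Complex.I)) := hH.smul r _ hr0.le
    have hlow : Real.exp (H z - e n * 2 ^ n) ≤ ‖F z‖ := by
      by_contra hcon
      push Not at hcon
      obtain ⟨p, hp, hp'⟩ := hT3 n hPA z (by rw [hzn]; exact hn1)
        (by rw [hzn]; rw [pow_succ] at hn2; linarith) hcon
      obtain ⟨i, hi, rfl⟩ := List.mem_iff_getElem.1 hp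
      have h3 := hav (Nat.pair n i)
      simp only [Nat.unpair_pair] at h3
      rw [List.getD_eq_getElem _ _ hi, mem_ball, dist_eq_norm, not_lt] at h3
      have h4 := (hT1 n _ (List.getElem_mem hi)).2
      linarith
    have hup := hRU' z (by rw [hzn]; exact hr2.le)
    have hpos : 0 < ‖F z‖ := (Real.exp_pos _).trans_le hlow
    refine ⟨norm_pos_iff.1 hpos, ?_⟩
    have h5 : H z - e n * 2 ^ n ≤ Real.log ‖F z‖ := by
      rwa [Real.le_log_iff_exp_le hpos]
    have h6 : Real.log ‖F z‖ ≤ H z + ε / 2 * ‖z‖ := by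
      rwa [Real.log_le_iff_le_exp hpos]
    rw [hzn] at h6
    rw [hHz] at h5 h6
    have h7 : e n * 2 ^ n ≤ e n * r := by
      have := he n
      gcongr
    rw [abs_lt]
    have h8 : Real.log ‖F z‖ / r - H (Complex.exp (θ * Complex.I)) =
        (Real.log ‖F z‖ - r * H (Complex.exp (θ * Complex.I))) / r := by
      field_simp
    rw [h8]
    constructor
    · rw [lt_div_iff₀ hr0]
      nlinarith
    · rw [div_lt_iff₀ hr0]
      nlinarith

end Pool.Agent.Work.MP_8d04b0_an
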