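import Mathlib
import Pool.Agent.Work.MP_8d04b0_an.Polya
import Pool.Agent.Work.MP_8d04b0_an.ToCRG
import Pool.Agent.Work.MP_8d04b0_an.RegAll
import Pool.Agent.Work.MP_8d04b0_an.Degenerate

set_option autoImplicit false

open Metric Set Filter Topology

namespace Pool.Agent.Work.MP_8d04b0_an

lemma finite_zeros {φ : ℂ → ℂ} (hφ : Differentiable ℂ φ) (hφ0 : ∃ z, φ z ≠ 0) {K : Set ℂ}
    (hK : IsCompact K) : {l | l ∈ K ∧ φ l = 0}.Finite := by
  by_contra hinf
  obtain ⟨x, -, hx⟩ := Set.Infinite.exists_accPt_of_subset_isCompact hinf hK (fun l hl => hl.1)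
  have h1 : ∃ᶠ z in 𝓝[≠] x, φ z = 0 := by
    have h2 := accPt_iff_frequently_nhdsNE.1 hx
    exact h2.mono fun z hz => hz.2
  have h2 : AnalyticOnNhd ℂ φ univ := hφ.differentiableOn.analyticOnNhd isOpen_univ
  have h3 := h2.eqOn_zero_of_preconnected_of_frequently_eq_zero isPreconnected_univ
    (mem_univ x) h1
  obtain ⟨z, hz⟩ := hφ0
  exact hz (h3 (mem_univ z))

lemma shiftSeq_zero {φ : ℂ → ℂ} (hφ : Differentiable ℂ φ) (l : ℂ) :
    shiftSeq (fun k => iteratedDeriv k φ 0) l 0 = φ l := by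
  rw [← Complex.taylorSeries_eq_of_entire' 0 l hφ]
  unfold shiftSeq
  refine tsum_congr fun i => ?_
  rw [add_zero, sub_zero]
  ring

theorem conjDiagram_eq {f : ℂ → ℂ} {h : ℝ → ℝ} (hf : ExpType f)
    (hi : ∀ θ, indicator f θ = (h θ : EReal)) (hU : Upper f (HH h)) :
    conjDiagram f = DD (HH h) := by
  apply Subset.antisymm (conjDiagram_subset (HH_subl hf hi) hf hU)
  intro w hw
  rw [conjDiagram, mem_sInter]
  rintro K ⟨hKc, hKv, hK⟩
  exact subset_of_continues hf (fun z hz c hc => HH_le hi hz hc) hKc hKv hK hw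

theorem main {f φ : ℂ → ℂ} (hf : CRG f) (hφ : ExpType φ) (hφ0 : ∃ z, φ z ≠ 0)
    (hcorner : ∀ l, IsCorner (conjDiagram f) l → φ l ≠ 0) :
    CRG (opD φ f) ∨ ((∀ z, opD φ f z = 0) ∧ ∃ l, conjDiagram f = {l} ∧ φ l = 0) := by
  obtain ⟨hfE, hfne, h, hi, c, ρ, hρ, hd, hc⟩ := hf
  have hH : Subl (HH h) := HH_subl hfE hi
  have hU : Upper f (HH h) := upper_of_crg hfE hi hρ hd hc
  have hR : ∀ u : ℂ, u ≠ 0 → Reg f (HH h) u := fun u hu => reg_of_crg hfE hi hρ hd hc hu
  have hconj : conjDiagram f = DD (HH h) := conjDiagram_eq hfE hi hU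
  obtain ⟨A, τ, ha⟩ := geomBdd_of_expType hφ
  set a : ℕ → ℂ := fun k => iteratedDeriv k φ 0 with hadef
  have hop : opD φ f = opS a f := rfl
  have hshift : ∀ l, shiftSeq a l 0 = φ l := fun l => shiftSeq_zero hφ.1 l
  have hFd : Differentiable ℂ (opS a f) := differentiable_opS ha hfE.1
  have hFU : Upper (opS a f) (HH h) := upper_opS ha hH hfE.1 hU
  rw [hop]
  by_cases hpt : ∃ l, DD (HH h) = {l}
  · obtain ⟨l, hl⟩ := hpt
    have hlD : l ∈ DD (HH h) := by rw [hl]; exact mem_singleton l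
    by_cases hφl : φ l = 0
    · by_cases hzero : ∀ z, opS a f z = 0
      · right
        exact ⟨hzero, l, by rw [hconj, hl], hφl⟩
      · left
        push Not at hzero
        exact crg_of_reg hH hFd hFU (fun u hu => reg_of_point hH hl hFd hFU hzero hu)
    · left
      refine crg_of_reg hH hFd hFU (fun u hu => ?_)
      have huniq : ∀ w ∈ DD (HH h), (w * u).re = HH h u → w = l := by
        intro w hw _
        rw [hl] at hw
        exact hw
      obtain ⟨w, hw, hws⟩ := hH.exists_support u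
      have hwl : w = l := huniq w hw hws
      rw [hwl] at hws
      exact reg_of_good ha hH hfE.1 hU hu hlD hws
        (fun η hη => hH.diff_of_unique hlD huniq hη) (by rw [hshift]; exact hφl) (hR u hu)
  · left
    push Not at hpt
    refine crg_of_reg hH hFd hFU (reg_all ha hH hfE.1 hU hR ?_ ?_ hpt)
    · simp only [hshift]
      exact finite_zeros hφ.1 hφ0 hH.isCompact_DD
    · intro l hl
      rw [hshift]
      exact hcorner l (by rw [hconj]; exact hl)

end Pool.Agent.Work.MP_8d04b0_an
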